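import Mathlib

/-!
Maximum dispersal of profiles of orders: definitions and the elementary bounds.
-/

set_option autoImplicit false

namespace Pool.Agent.Helper20.Disp

open Finset

/-- a binary relation on `{0, ..., n - 1}` -/
abbrev Rel (n : ℕ) := Finset (Fin n × Fin n)

/-- (strict) partial order -/
def IsPO {n : ℕ} (r : Rel n) : Prop :=
  (∀ a, (a, a) ∉ r) ∧ ∀ a b c, (a, b) ∈ r → (b, c) ∈ r → (a, c) ∈ r

/-- weak order: incomparability is transitive -/
def IsWeak {n : ℕ} (r : Rel n) : Prop :=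
  IsPO r ∧ ∀ a b c, (a, b) ∉ r → (b, a) ∉ r → (b, c) ∉ r → (c, b) ∉ r → (a, c) ∉ r ∧ (c, a) ∉ r

/-- interval order -/
def IsInterval {n : ℕ} (r : Rel n) : Prop :=
  IsPO r ∧ ∀ a b c d, (a, b) ∈ r → (c, d) ∈ r → (a, d) ∈ r ∨ (c, b) ∈ r

/-- semiorder -/
def IsSemi {n : ℕ} (r : Rel n) : Prop :=
  IsInterval r ∧ ∀ a b c, (a, b) ∈ r → (b, c) ∈ r → ∀ d, (a, d) ∈ r ∨ (d, c) ∈ r

/-- linear order -/
def IsLin {n : ℕ} (r : Rel n) : Prop :=
  IsPO r ∧ ∀ a b, a ≠ b → (a, b) ∈ r ∨ (b, a) ∈ r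

/-- `Δ(π, s)` -/
def rem {n v : ℕ} (π : Fin v → Rel n) (s : Rel n) : ℕ := ∑ i, (symmDiff (π i) s).card

/-- the values `min_s Δ(π, s)` of the profiles `π` of `v` relations of the class `R` -/
def values {n : ℕ} (R : Rel n → Prop) (v : ℕ) : Set ℕ :=
  {m | ∃ π : Fin v → Rel n, (∀ i, R (π i)) ∧ IsLeast {t | ∃ s, R s ∧ rem π s = t} m}

/-- the maximum dispersal -/
noncomputable def F {n : ℕ} (R : Rel n → Prop) (v : ℕ) : ℕ := sSup (values R v)

/-- the number of relations of the profile which contain the pair `e` -/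
def wt {n v : ℕ} (π : Fin v → Rel n) (e : Fin n × Fin n) : ℕ := (univ.filter fun i => e ∈ π i).card

theorem sum_wt {n v : ℕ} (π : Fin v → Rel n) (s : Rel n) :
    ∑ e ∈ s, wt π e = ∑ i, (π i ∩ s).card := by
  simp only [wt, card_filter]
  rw [sum_comm]
  refine sum_congr rfl fun i _ => ?_
  rw [← card_filter]
  congr 1
  ext e
  rw [mem_filter, mem_inter]
  tauto

theorem rem_eq {n v : ℕ} (π : Fin v → Rel n) (s : Rel n) :
    (rem π s : ℤ) = ∑ e, (wt π e : ℤ) + ∑ e ∈ s, ((v : ℤ) - 2 * wt π e) := by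
  have h1 : ∀ i, ((symmDiff (π i) s).card : ℤ) = (π i).card + s.card - 2 * (π i ∩ s).card := by
    intro i
    have h2 := card_union_of_disjoint (disjoint_sdiff_sdiff (x := π i) (y := s))
    have h3 : (symmDiff (π i) s).card = (π i \ s).card + (s \ π i).card := by
      rw [← h2]
      rfl
    have h4 := card_sdiff_add_card_inter (π i) s
    have h5 := card_sdiff_add_card_inter s (π i)
    rw [inter_comm] at h5
    rw [h3]
    push_cast
    have h4' : ((π i \ s).card : ℤ) + (π i ∩ s).card = (π i).card := by exact_mod_cast h4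
    have h5' : ((s \ π i).card : ℤ) + (π i ∩ s).card = s.card := by exact_mod_cast h5
    linarith
  rw [rem, Nat.cast_sum, sum_congr rfl fun i _ => h1 i, sum_sub_distrib, sum_add_distrib, sum_sub_distrib]
  have h6 : ∑ e, (wt π e : ℤ) = ∑ i, ((π i).card : ℤ) := by
    have := sum_wt π univ
    rw [← Nat.cast_sum, this, Nat.cast_sum]
    refine sum_congr rfl fun i _ => ?_
    rw [inter_univ]
  have h7 : ∑ e ∈ s, (2 * (wt π e : ℤ)) = ∑ i, (2 * ((π i ∩ s).card : ℤ)) := by
    rw [← mul_sum, ← mul_sum, ← Nat.cast_sum, sum_wt π s, Nat.cast_sum]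
  rw [h6, h7]
  simp only [sum_const, card_univ, Fintype.card_fin, nsmul_eq_mul]
  ring

section values

variable {n : ℕ} {R : Rel n → Prop}

theorem exists_least (h0 : R ∅) {v : ℕ} (π : Fin v → Rel n) :
    ∃ m, IsLeast {t | ∃ s, R s ∧ rem π s = t} m := by
  classical
  have h : ∃ t, ∃ s, R s ∧ rem π s = t := ⟨_, ∅, h0, rfl⟩
  refine ⟨Nat.find h, Nat.find_spec h, fun t ht => Nat.find_min' h ht⟩

theorem values_nonempty (h0 : R ∅) (v : ℕ) : (values R v).Nonempty := by
  obtain ⟨m, hm⟩ := exists_least h0 (fun _ : Fin v => (∅ : Rel n))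
  exact ⟨m, fun _ => ∅, fun _ => h0, hm⟩

theorem values_bdd (h0 : R ∅) (v : ℕ) : BddAbove (values R v) := by
  refine ⟨v * (n * n), ?_⟩
  rintro m ⟨π, -, hm⟩
  refine (hm.2 ⟨∅, h0, rfl⟩).trans ?_
  rw [rem]
  have h1 : ∀ i ∈ (univ : Finset (Fin v)), (symmDiff (π i) ∅).card ≤ n * n := by
    intro i _
    refine (card_le_univ _).trans ?_
    simp
  refine (sum_le_sum h1).trans ?_
  simp

/-- the maximum dispersal is the maximum over the profiles of the minimum over the class -/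
theorem F_isGreatest (h0 : R ∅) (v : ℕ) : IsGreatest (values R v) (F R v) :=
  ⟨Nat.sSup_mem (values_nonempty h0 v) (values_bdd h0 v), fun _ hm => le_csSup (values_bdd h0 v) hm⟩

theorem le_F (h0 : R ∅) {v B : ℕ} (π : Fin v → Rel n) (hπ : ∀ i, R (π i))
    (h : ∀ s, R s → B ≤ rem π s) : B ≤ F R v := by
  obtain ⟨m, hm⟩ := exists_least h0 π
  have h1 : m ∈ values R v := ⟨π, hπ, hm⟩
  obtain ⟨s, hs, hsm⟩ := hm.1
  rw [← hsm] at h1
  exact (h s hs).trans ((F_isGreatest h0 v).2 h1)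

theorem exists_profile (h0 : R ∅) (v : ℕ) : ∃ π : Fin v → Rel n, (∀ i, R (π i)) ∧
    ∀ s, R s → F R v ≤ rem π s := by
  obtain ⟨π, hπ, hm⟩ := (F_isGreatest h0 v).1
  exact ⟨π, hπ, fun s hs => hm.2 ⟨s, hs, rfl⟩⟩

end values

/-- what the four classes have in common -/
structure Good {n : ℕ} (R : Rel n → Prop) : Prop where
  empty : R ∅
  lin : ∀ r, IsLin r → R r
  po : ∀ r, R r → IsPO r

theorem good_po {n : ℕ} : Good (IsPO (n := n)) where
  empty := ⟨fun _ h => absurd h (notMem_empty _), fun _ _ _ h => absurd h (notMem_empty _)⟩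
  lin _ h := h.1
  po _ h := h

theorem asymm {n : ℕ} {r : Rel n} (h : IsPO r) {a b : Fin n} (h1 : (a, b) ∈ r) : (b, a) ∉ r :=
  fun h2 => h.1 a (h.2 a b a h1 h2)

theorem lin_iff {n : ℕ} {r : Rel n} (h : IsLin r) {a b : Fin n} (hab : a ≠ b) :
    (a, b) ∉ r ↔ (b, a) ∈ r :=
  ⟨fun h1 => (h.2 a b hab).resolve_left h1, fun h1 => asymm h.1 h1⟩

theorem good_weak {n : ℕ} : Good (IsWeak (n := n)) where
  empty := ⟨good_po.empty, fun _ _ _ _ _ _ _ => ⟨notMem_empty _, notMem_empty _⟩⟩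
  lin r h := by
    refine ⟨h.1, fun a b c h1 h2 h3 h4 => ?_⟩
    have h5 : a = b := by
      by_contra hne
      rcases h.2 a b hne with h6 | h6
      · exact h1 h6
      · exact h2 h6
    subst h5
    exact ⟨h3, h4⟩
  po _ h := h.1

theorem lin_interval {n : ℕ} {r : Rel n} (h : IsLin r) : IsInterval r := by
  refine ⟨h.1, fun a b c d h1 h2 => ?_⟩
  by_cases hac : a = c
  · subst hac
    exact Or.inl h2
  rcases h.2 a c hac with h3 | h3
  · exact Or.inl (h.1.2 a c d h3 h2)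
  · exact Or.inr (h.1.2 c a b h3 h1)

theorem good_interval {n : ℕ} : Good (IsInterval (n := n)) where
  empty := ⟨good_po.empty, fun _ _ _ _ h => absurd h (notMem_empty _)⟩
  lin _ h := lin_interval h
  po _ h := h.1

theorem good_semi {n : ℕ} : Good (IsSemi (n := n)) where
  empty := ⟨good_interval.empty, fun _ _ _ h => absurd h (notMem_empty _)⟩
  lin r h := by
    refine ⟨lin_interval h, fun a b c h1 h2 d => ?_⟩
    by_cases had : a = d
    · subst had
      exact Or.inr (h.1.2 a b c h1 h2)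
    rcases h.2 a d had with h3 | h3
    · exact Or.inl h3
    · exact Or.inr (h.1.2 d a c h3 (h.1.2 a b c h1 h2))
  po _ h := h.1.1

/-! ### Counting -/

/-- the pairs off the diagonal -/
def off (n : ℕ) : Rel n := univ.filter fun e => e.1 ≠ e.2

theorem card_off (n : ℕ) : (off n).card = 2 * n.choose 2 := by
  have h1 : off n = (univ : Finset (Fin n)).offDiag := by
    ext e
    simp [off, mem_offDiag]
  rw [h1, offDiag_card, card_univ, Fintype.card_fin, Nat.choose_two_right,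
    Nat.mul_div_cancel' (Nat.even_mul_pred_self n).two_dvd, Nat.mul_sub, mul_one]

theorem sub_off {n : ℕ} {r : Rel n} (h : IsPO r) : r ⊆ off n := by
  intro e he
  rw [off, mem_filter]
  refine ⟨mem_univ _, fun h1 => ?_⟩
  obtain ⟨a, b⟩ := e
  have h2 : a = b := h1
  subst h2
  exact h.1 a he

theorem wt_diag {n v : ℕ} {π : Fin v → Rel n} (h : ∀ i, IsPO (π i)) {e : Fin n × Fin n}
    (he : e ∉ off n) : wt π e = 0 := by
  rw [wt, card_eq_zero, filter_eq_empty_iff]
  intro i _ h1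
  exact he (sub_off (h i) h1)

theorem wt_swap {n v : ℕ} {π : Fin v → Rel n} (h : ∀ i, IsPO (π i)) (e : Fin n × Fin n) :
    wt π e + wt π e.swap ≤ v := by
  classical
  rw [wt, wt, ← card_union_of_disjoint]
  · refine (card_le_univ _).trans ?_
    simp
  · rw [disjoint_filter]
    intro i _ h1 h2
    obtain ⟨a, b⟩ := e
    exact asymm (h i) h1 h2

theorem sum_off {n : ℕ} {M : Type*} [AddCommMonoid M] (f : Fin n × Fin n → M) :
    ∑ e ∈ off n, f e = ∑ e ∈ off n, f e.swap := by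
  refine sum_bij' (fun e _ => e.swap) (fun e _ => e.swap) ?_ ?_ ?_ ?_ ?_
  · intro e he
    rw [off, mem_filter] at he ⊢
    exact ⟨mem_univ _, he.2.symm⟩
  · intro e he
    rw [off, mem_filter] at he ⊢
    exact ⟨mem_univ _, he.2.symm⟩
  · intro e _
    exact e.swap_swap
  · intro e _
    exact e.swap_swap
  · intro e _
    rw [Prod.swap_swap]

theorem sum_wt_off {n v : ℕ} {π : Fin v → Rel n} (h : ∀ i, IsPO (π i)) :
    ∑ e, (wt π e : ℤ) = ∑ e ∈ off n, (wt π e : ℤ) := by
  symm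
  refine sum_subset (subset_univ _) fun e _ he => ?_
  rw [wt_diag h he, Nat.cast_zero]

theorem sum_wt_le {n v : ℕ} {π : Fin v → Rel n} (h : ∀ i, IsPO (π i)) :
    ∑ e, (wt π e : ℤ) ≤ v * (n.choose 2 : ℤ) := by
  rw [sum_wt_off h]
  have h1 : 2 * ∑ e ∈ off n, (wt π e : ℤ) = ∑ e ∈ off n, ((wt π e : ℤ) + wt π e.swap) := by
    rw [sum_add_distrib, ← sum_off (fun e => (wt π e : ℤ)), two_mul]
  have h2 : ∑ e ∈ off n, ((wt π e : ℤ) + wt π e.swap) ≤ ∑ e ∈ off n, (v : ℤ) :=
    sum_le_sum fun e _ => by exact_mod_cast wt_swap h e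
  rw [sum_const, card_off, nsmul_eq_mul] at h2
  push_cast at h2
  nlinarith

/-! ### The upper bounds -/

theorem F_le {n : ℕ} {R : Rel n → Prop} (hR : Good R) (v : ℕ) : F R v ≤ v * n.choose 2 := by
  obtain ⟨π, hπ, h⟩ := exists_profile hR.empty v
  have h1 := h ∅ hR.empty
  have h2 := rem_eq π ∅
  rw [sum_empty, add_zero] at h2
  have h3 := sum_wt_le fun i => hR.po _ (hπ i)
  rw [← h2] at h3
  have h4 : (rem π ∅ : ℤ) ≤ ((v * n.choose 2 : ℕ) : ℤ) := by
    push_cast
    exact h3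
  exact h1.trans (by exact_mod_cast h4)

/-- averaging over the members of the profile -/
theorem F_le_odd {n : ℕ} {R : Rel n → Prop} (hR : Good R) {v : ℕ} (hv : Odd v) :
    v * F R v ≤ (v ^ 2 - 1) * n.choose 2 := by
  obtain ⟨π, hπ, h⟩ := exists_profile hR.empty v
  have hpo : ∀ i, IsPO (π i) := fun i => hR.po _ (hπ i)
  have h1 : ((v * F R v : ℕ) : ℤ) ≤ ∑ j, (rem π (π j) : ℤ) := by
    have h2 : ∑ j : Fin v, F R v ≤ ∑ j, rem π (π j) := sum_le_sum fun j _ => h _ (hπ j)
    rw [sum_const, card_univ, Fintype.card_fin, smul_eq_mul] at h2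
    exact_mod_cast h2
  have h3 : ∑ j, (rem π (π j) : ℤ) = ∑ e ∈ off n, 2 * (wt π e : ℤ) * (v - wt π e) := by
    have h4 : ∀ j, (rem π (π j) : ℤ) = ∑ e, (wt π e : ℤ) + ∑ e, (if e ∈ π j then ((v : ℤ) - 2 * wt π e) else 0) := by
      intro j
      rw [rem_eq, sum_ite_mem, univ_inter]
    rw [sum_congr rfl fun j _ => h4 j, sum_add_distrib, sum_const, card_univ, Fintype.card_fin,
      nsmul_eq_mul, sum_comm]
    have h5 : ∀ e : Fin n × Fin n, ∑ j, (if e ∈ π j then ((v : ℤ) - 2 * wt π e) else 0) =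
        wt π e * ((v : ℤ) - 2 * wt π e) := by
      intro e
      rw [← sum_filter, sum_const, nsmul_eq_mul]
      rfl
    rw [sum_congr rfl fun e _ => h5 e, mul_sum, ← sum_add_distrib]
    have h6 : ∑ e ∈ off n, 2 * (wt π e : ℤ) * (v - wt π e) =
        ∑ e, 2 * (wt π e : ℤ) * (v - wt π e) := by
      refine sum_subset (subset_univ _) fun e _ he => ?_
      rw [wt_diag hpo he]
      simp
    rw [h6]
    refine sum_congr rfl fun e _ => ?_
    ring
  have h7 : ∀ e ∈ off n, 2 * (2 * (wt π e : ℤ) * (v - wt π e)) ≤ (v : ℤ) ^ 2 - 1 := by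
    intro e _
    obtain ⟨k, hk⟩ := hv
    have h8 : 1 ≤ ((v : ℤ) - 2 * wt π e) ^ 2 := by
      have h9 : (v : ℤ) - 2 * wt π e ≠ 0 := by omega
      have := sq_nonneg ((v : ℤ) - 2 * wt π e)
      have h10 : ((v : ℤ) - 2 * wt π e) ^ 2 ≠ 0 := pow_ne_zero _ h9
      omega
    nlinarith
  have h8 := sum_le_sum h7
  rw [sum_const, card_off, nsmul_eq_mul, ← mul_sum, ← h3] at h8
  have hv1 : 1 ≤ v ^ 2 := Nat.one_le_pow _ _ hv.pos
  have h9 : ((v * F R v : ℕ) : ℤ) ≤ (((v ^ 2 - 1) * n.choose 2 : ℕ) : ℤ) := by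
    rw [Nat.cast_mul (v ^ 2 - 1), Nat.cast_sub hv1]
    push_cast at h8 ⊢
    push_cast at h1
    nlinarith
  exact_mod_cast h9

/-! ### The alternating profile -/

/-- the standard linear order -/
def stdLin (n : ℕ) : Rel n := univ.filter fun e => e.1 < e.2

/-- the reversed order -/
def revLin (n : ℕ) : Rel n := univ.filter fun e => e.2 < e.1

theorem stdLin_lin (n : ℕ) : IsLin (stdLin n) := by
  refine ⟨⟨fun a h => ?_, fun a b c h1 h2 => ?_⟩, fun a b hab => ?_⟩
  · exact lt_irrefl a (mem_filter.1 h).2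
  · exact mem_filter.2 ⟨mem_univ _, lt_trans (mem_filter.1 h1).2 (mem_filter.1 h2).2⟩
  · rcases lt_or_gt_of_ne hab with h | h
    · exact Or.inl (mem_filter.2 ⟨mem_univ _, h⟩)
    · exact Or.inr (mem_filter.2 ⟨mem_univ _, h⟩)

theorem revLin_lin (n : ℕ) : IsLin (revLin n) := by
  refine ⟨⟨fun a h => ?_, fun a b c h1 h2 => ?_⟩, fun a b hab => ?_⟩
  · exact lt_irrefl a (mem_filter.1 h).2
  · exact mem_filter.2 ⟨mem_univ _, lt_trans (mem_filter.1 h2).2 (mem_filter.1 h1).2⟩
  · rcases lt_or_gt_of_ne hab with h | h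
    · exact Or.inr (mem_filter.2 ⟨mem_univ _, h⟩)
    · exact Or.inl (mem_filter.2 ⟨mem_univ _, h⟩)

/-- adding two opposite linear orders to a profile -/
def ext2 {n v : ℕ} (π : Fin v → Rel n) : Fin (v + 2) → Rel n :=
  Fin.snoc (Fin.snoc π (stdLin n)) (revLin n)

theorem ext2_mem {n v : ℕ} {π : Fin v → Rel n} {R : Rel n → Prop} (hR : Good R)
    (h : ∀ i, R (π i)) (i : Fin (v + 2)) : R (ext2 π i) := by
  rw [ext2]
  refine Fin.lastCases ?_ (fun i => ?_) i
  · rw [Fin.snoc_last]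
    exact hR.lin _ (revLin_lin n)
  · rw [Fin.snoc_castSucc]
    refine Fin.lastCases ?_ (fun i => ?_) i
    · rw [Fin.snoc_last]
      exact hR.lin _ (stdLin_lin n)
    · rw [Fin.snoc_castSucc]
      exact h i

theorem rem_ext2 {n v : ℕ} (π : Fin v → Rel n) {s : Rel n} (hs : IsPO s) :
    rem (ext2 π) s = rem π s + 2 * n.choose 2 := by
  rw [rem, Fin.sum_univ_castSucc, Fin.sum_univ_castSucc, ext2]
  simp only [Fin.snoc_last, Fin.snoc_castSucc]
  rw [rem, add_assoc]
  congr 1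
  have h1 : rem (fun i : Fin 2 => if i = 0 then stdLin n else revLin n) s =
      (symmDiff (stdLin n) s).card + (symmDiff (revLin n) s).card := by
    rw [rem, Fin.sum_univ_two]
    simp
  rw [← h1]
  have h2 := rem_eq (fun i : Fin 2 => if i = 0 then stdLin n else revLin n) s
  have hw : ∀ e ∈ off n, wt (fun i : Fin 2 => if i = 0 then stdLin n else revLin n) e = 1 := by
    intro e he
    have hne := (mem_filter.1 he).2
    rw [wt, card_eq_one]
    rcases lt_or_gt_of_ne hne with h | h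
    · refine ⟨0, ?_⟩
      ext i
      fin_cases i
      · simp [stdLin, h]
      · simp [revLin, h.le]
    · refine ⟨1, ?_⟩
      ext i
      fin_cases i
      · simp [stdLin, h.le]
      · simp [revLin, h]
  have hpo : ∀ i : Fin 2, IsPO (if i = 0 then stdLin n else revLin n) := by
    intro i
    split_ifs
    · exact (stdLin_lin n).1
    · exact (revLin_lin n).1
  rw [sum_wt_off (π := fun i : Fin 2 => if i = 0 then stdLin n else revLin n) hpo,
    sum_congr rfl fun e he => by rw [hw e he], sum_const, card_off,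
    sum_congr rfl fun e he => by rw [hw e (sub_off hs he)], sum_const] at h2
  have h3 : (rem (fun i : Fin 2 => if i = 0 then stdLin n else revLin n) s : ℤ) =
      ((2 * n.choose 2 : ℕ) : ℤ) := by
    rw [h2]
    simp
  exact_mod_cast h3

theorem F_add_two {n : ℕ} {R : Rel n → Prop} (hR : Good R) (v : ℕ) :
    F R v + 2 * n.choose 2 ≤ F R (v + 2) := by
  obtain ⟨π, hπ, h⟩ := exists_profile hR.empty v
  refine le_F hR.empty (ext2 π) (ext2_mem hR hπ) fun s hs => ?_
  rw [rem_ext2 π (hR.po s hs)]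
  exact Nat.add_le_add_right (h s hs) _

theorem F_add_even {n : ℕ} {R : Rel n → Prop} (hR : Good R) (v k : ℕ) :
    F R v + 2 * k * n.choose 2 ≤ F R (v + 2 * k) := by
  induction k with
  | zero => simp
  | succ k ih =>
    have h := F_add_two hR (v + 2 * k)
    have h2 : v + 2 * (k + 1) = v + 2 * k + 2 := by ring
    rw [h2]
    refine le_trans ?_ h
    calc F R v + 2 * (k + 1) * n.choose 2 = F R v + 2 * k * n.choose 2 + 2 * n.choose 2 := by ring
      _ ≤ _ := Nat.add_le_add_right ih _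

/-- **Even number of voters.** -/
theorem F_even {n : ℕ} {R : Rel n → Prop} (hR : Good R) {v : ℕ} (hv : Even v) :
    F R v = v * n.choose 2 := by
  refine le_antisymm (F_le hR v) ?_
  obtain ⟨k, rfl⟩ := hv
  have h := F_add_even hR 0 k
  rw [zero_add] at h
  calc (k + k) * n.choose 2 ≤ F R 0 + 2 * k * n.choose 2 := by
        rw [← two_mul]
        exact Nat.le_add_left _ _
    _ ≤ F R (2 * k) := h
    _ = F R (k + k) := by rw [two_mul]

/-- the trivial lower bound for an odd number of voters -/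
theorem F_odd_ge {n : ℕ} {R : Rel n → Prop} (hR : Good R) {v : ℕ} (hv : Odd v) :
    (v - 1) * n.choose 2 ≤ F R v := by
  obtain ⟨k, rfl⟩ := hv
  have h := F_add_even hR 1 k
  rw [add_comm 1] at h
  refine le_trans ?_ h
  rw [Nat.add_sub_cancel]
  exact Nat.le_add_left _ _

end Pool.Agent.Helper20.Disp
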