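import Pool.Agent.Helper20.Disp.Main

/-!
Maximum dispersal: blowing up a base tournament on `m` points, interval orders.
-/

set_option autoImplicit false

namespace Pool.Agent.Helper20.Disp

open Finset

/-- a hereditary class of irreflexive relations on the numbers -/
structure Cls (C : (ℕ → ℕ → Prop) → Prop) : Prop where
  irrefl : ∀ s, C s → ∀ x, ¬ s x x
  comap : ∀ s, C s → ∀ φ : ℕ → ℕ, C fun x y => s (φ x) (φ y)

/-- partial orders on the numbers -/
structure PoN (s : ℕ → ℕ → Prop) : Prop where
  irrefl : ∀ x, ¬ s x x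
  trans : ∀ x y z, s x y → s y z → s x z

/-- interval orders on the numbers -/
structure IntN (s : ℕ → ℕ → Prop) : Prop where
  irrefl : ∀ x, ¬ s x x
  trans : ∀ x y z, s x y → s y z → s x z
  int : ∀ a b c d, s a b → s c d → s a d ∨ s c b

theorem cls_po : Cls PoN :=
  ⟨fun _ h => h.irrefl, fun _ h _ => ⟨fun _ => h.irrefl _, fun _ _ _ => h.trans _ _ _⟩⟩

theorem cls_int : Cls IntN :=
  ⟨fun _ h => h.irrefl, fun _ h _ =>
    ⟨fun _ => h.irrefl _, fun _ _ _ => h.trans _ _ _, fun _ _ _ _ => h.int _ _ _ _⟩⟩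

/-- the margins of the blow-up: two numbers are compared at the least digit in base `m` where they
differ -/
def Mg (m : ℕ) (T : ℕ → ℕ → ℤ) : ℕ → ℕ → ℕ → ℤ
  | 0, _, _ => 0
  | k + 1, x, y => if x % m = y % m then Mg m T k (x / m) (y / m) else T (x % m) (y % m)

/-- the number of `x < n` with the last digit `r` -/
def cnt (m n r : ℕ) : ℕ := (n + m - 1 - r) / m

theorem lt_cnt {m n r i : ℕ} (hr : r < m) : i < cnt m n r ↔ m * i + r < n := by
  have hm : 0 < m := by omega
  rw [cnt, Nat.lt_iff_add_one_le, Nat.le_div_iff_mul_le hm, add_mul, one_mul, mul_comm i m]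
  omega

theorem sum_digits {M : Type*} [AddCommMonoid M] {m : ℕ} (hm : 0 < m) (f : ℕ → M) (n : ℕ) :
    ∑ x ∈ range n, f x = ∑ r ∈ range m, ∑ i ∈ range (cnt m n r), f (m * i + r) := by
  classical
  rw [← sum_fiberwise_of_maps_to (s := range n) (t := range m) (g := fun x => x % m)
    (fun x _ => mem_range.2 (Nat.mod_lt x hm))]
  refine sum_congr rfl fun r hr => ?_
  have hr' := mem_range.1 hr
  refine sum_nbij' (fun x => x / m) (fun i => m * i + r) ?_ ?_ ?_ ?_ ?_
  · intro x hx
    rw [mem_filter, mem_range] at hx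
    rw [mem_range, lt_cnt hr']
    have := Nat.div_add_mod x m
    rw [hx.2] at this
    omega
  · intro i hi
    rw [mem_range, lt_cnt hr'] at hi
    rw [mem_filter, mem_range]
    refine ⟨hi, ?_⟩
    rw [Nat.mul_add_mod, Nat.mod_eq_of_lt hr']
  · intro x hx
    rw [mem_filter] at hx
    have := Nat.div_add_mod x m
    rw [hx.2] at this
    exact this
  · intro i _
    show (m * i + r) / m = i
    rw [Nat.mul_add_div hm, Nat.div_eq_of_lt hr', add_zero]
  · intro x hx
    rw [mem_filter] at hx
    have := Nat.div_add_mod x m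
    rw [hx.2] at this
    show f x = f (m * (x / m) + r)
    rw [this]

/-- the total margin on the pairs of a relation -/
noncomputable def Gn (m : ℕ) (T : ℕ → ℕ → ℤ) (k n : ℕ) (s : ℕ → ℕ → Prop) : ℤ := by
  classical
  exact ∑ x ∈ range n, ∑ y ∈ range n, if s x y then Mg m T k x y else 0

open Classical in
/-- the pairs of two different blocks -/
noncomputable def blk (s : ℕ → ℕ → Prop) (m r r' a b : ℕ) : ℤ :=
  ∑ i ∈ range a, ∑ j ∈ range b, if s (m * i + r) (m * j + r') then (1 : ℤ) else 0

theorem Gn_succ {m : ℕ} (hm : 0 < m) (T : ℕ → ℕ → ℤ) (k n : ℕ) (s : ℕ → ℕ → Prop) :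
    Gn m T (k + 1) n s = ∑ r ∈ range m, Gn m T k (cnt m n r) (fun x y => s (m * x + r) (m * y + r)) +
      ∑ r ∈ range m, ∑ r' ∈ range m, if r = r' then 0 else
        T r r' * blk s m r r' (cnt m n r) (cnt m n r') := by
  classical
  unfold Gn
  rw [sum_digits hm]
  simp only [sum_digits hm _ n]
  rw [← sum_add_distrib]
  refine sum_congr rfl fun r hr => ?_
  have hr' := mem_range.1 hr
  rw [sum_comm]
  have key : ∀ r' ∈ range m, ∑ i ∈ range (cnt m n r), ∑ j ∈ range (cnt m n r'),
      (if s (m * i + r) (m * j + r') then Mg m T (k + 1) (m * i + r) (m * j + r') else 0) =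
      (if r = r' then ∑ i ∈ range (cnt m n r), ∑ j ∈ range (cnt m n r),
        (if s (m * i + r) (m * j + r) then Mg m T k i j else 0) else 0) +
      (if r = r' then 0 else T r r' * blk s m r r' (cnt m n r) (cnt m n r')) := by
    intro r' hr1
    have hr1' := mem_range.1 hr1
    by_cases h : r = r'
    · subst h
      rw [if_pos rfl, if_pos rfl, add_zero]
      refine sum_congr rfl fun i _ => sum_congr rfl fun j _ => ?_
      have e : Mg m T (k + 1) (m * i + r) (m * j + r) = Mg m T k i j := by
        rw [Mg, if_pos (by rw [Nat.mul_add_mod, Nat.mul_add_mod]), Nat.mul_add_div hm,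
          Nat.mul_add_div hm, Nat.div_eq_of_lt hr', add_zero, add_zero]
      rw [e]
    · rw [if_neg h, if_neg h, zero_add, blk, mul_sum]
      refine sum_congr rfl fun i _ => ?_
      rw [mul_sum]
      refine sum_congr rfl fun j _ => ?_
      have e : Mg m T (k + 1) (m * i + r) (m * j + r') = T r r' := by
        rw [Mg, if_neg (by rw [Nat.mul_add_mod, Nat.mul_add_mod, Nat.mod_eq_of_lt hr',
          Nat.mod_eq_of_lt hr1']; exact h), Nat.mul_add_mod, Nat.mul_add_mod,
          Nat.mod_eq_of_lt hr', Nat.mod_eq_of_lt hr1']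
      rw [e]
      split_ifs <;> simp
  rw [sum_congr rfl key, sum_add_distrib, sum_ite_eq, if_pos hr]

/-! ### Transversals -/

/-- the number of functions with two given values -/
theorem count_fun {m q : ℕ} (r r' : Fin m) (h : r ≠ r') (i j : Fin q) :
    (∑ φ : Fin m → Fin q, if φ r = i ∧ φ r' = j then (1 : ℤ) else 0) = (q : ℤ) ^ (m - 2) := by
  classical
  let f : Fin m → Fin q → ℤ := fun t x =>
    if t = r then (if x = i then 1 else 0) else if t = r' then (if x = j then 1 else 0) else 1
  have h1 : ∀ φ : Fin m → Fin q, (if φ r = i ∧ φ r' = j then (1 : ℤ) else 0) = ∏ t, f t (φ t) := by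
    intro φ
    by_cases h2 : φ r = i ∧ φ r' = j
    · rw [if_pos h2]
      symm
      refine prod_eq_one fun t _ => ?_
      show (if t = r then (if φ t = i then (1 : ℤ) else 0) else if t = r' then (if φ t = j then 1 else 0) else 1) = 1
      split_ifs with h3 h4 h5 h6
      · rfl
      · subst h3
        exact absurd h2.1 h4
      · rfl
      · subst h5
        exact absurd h2.2 h6
      · rfl
    · rw [if_neg h2]
      symm
      rw [not_and_or] at h2
      rcases h2 with h2 | h2
      · refine prod_eq_zero (mem_univ r) ?_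
        show (if r = r then (if φ r = i then (1 : ℤ) else 0) else _) = 0
        rw [if_pos rfl, if_neg h2]
      · refine prod_eq_zero (mem_univ r') ?_
        show (if r' = r then _ else if r' = r' then (if φ r' = j then (1 : ℤ) else 0) else 1) = 0
        rw [if_neg h.symm, if_pos rfl, if_neg h2]
  rw [sum_congr rfl fun φ _ => h1 φ]
  have h3 := (Finset.prod_univ_sum (fun _ : Fin m => (univ : Finset (Fin q))) f)
  rw [Fintype.piFinset_univ] at h3
  rw [← h3]
  have h4 : ∀ t, ∑ x, f t x = if t = r ∨ t = r' then 1 else (q : ℤ) := by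
    intro t
    show ∑ x, (if t = r then (if x = i then (1 : ℤ) else 0) else if t = r' then (if x = j then 1 else 0) else 1) = _
    by_cases h5 : t = r
    · simp [h5]
    · by_cases h6 : t = r'
      · subst h6
        simp [h5]
      · simp [h5, h6]
  rw [prod_congr rfl fun t _ => h4 t, prod_ite, prod_const_one, one_mul, prod_const]
  congr 1
  have h5 : (univ.filter fun t : Fin m => ¬ (t = r ∨ t = r')) = (univ.erase r).erase r' := by
    ext t
    simp only [mem_filter, mem_univ, true_and, mem_erase, not_or]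
    tauto
  rw [h5, card_erase_of_mem, card_erase_of_mem (mem_univ _), card_univ, Fintype.card_fin]
  · omega
  · rw [mem_erase]
    exact ⟨h.symm, mem_univ _⟩

/-- the main part of the cross gain, for equal blocks -/
theorem cross_main {C : (ℕ → ℕ → Prop) → Prop} (hC : Cls C) {m : ℕ} (hm : 2 ≤ m)
    {T : ℕ → ℕ → ℤ} {g : ℝ}
    (hbase : ∀ s : ℕ → ℕ → Prop, C s → ∀ [DecidableRel s],
      ((∑ a ∈ range m, ∑ b ∈ range m, if s a b then T a b else 0 : ℤ) : ℝ) ≤ g)
    {s : ℕ → ℕ → Prop} (hs : C s) {q : ℕ} :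
    ((∑ r ∈ range m, ∑ r' ∈ range m, if r = r' then 0 else T r r' * blk s m r r' q q : ℤ) : ℝ) ≤
      g * (q : ℝ) ^ 2 := by
  classical
  rcases Nat.eq_zero_or_pos q with hq | hq
  · subst hq
    have : ∀ r r', blk s m r r' 0 0 = 0 := fun r r' => by simp [blk]
    simp [this]
  -- sum over the transversals
  have h1 : ∀ φ : Fin m → Fin q,
      ((∑ r : Fin m, ∑ r' : Fin m, if s (m * φ r + r) (m * φ r' + r') then T r r' else 0 : ℤ) : ℝ) ≤ g := by
    intro φ
    let ψ : ℕ → ℕ := fun a => if h : a < m then m * φ ⟨a, h⟩ + a else a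
    have h2 := hbase _ (hC.comap _ hs ψ)
    rw [Finset.sum_range] at h2
    refine le_trans (le_of_eq ?_) h2
    congr 1
    refine sum_congr rfl fun r _ => ?_
    rw [Finset.sum_range]
    refine sum_congr rfl fun r' _ => ?_
    have e1 : ψ r = m * φ r + r := by
      show (if h : (r : ℕ) < m then m * φ ⟨r, h⟩ + r else (r : ℕ)) = _
      rw [dif_pos r.2]
    have e2 : ψ r' = m * φ r' + r' := by
      show (if h : (r' : ℕ) < m then m * φ ⟨r', h⟩ + r' else (r' : ℕ)) = _
      rw [dif_pos r'.2]
    rw [e1, e2]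
  have h2 : ((∑ φ : Fin m → Fin q, ∑ r : Fin m, ∑ r' : Fin m,
      if s (m * φ r + r) (m * φ r' + r') then T r r' else 0 : ℤ) : ℝ) ≤ (q : ℝ) ^ m * g := by
    rw [Int.cast_sum]
    refine (sum_le_sum fun φ _ => h1 φ).trans (le_of_eq ?_)
    rw [sum_const, card_univ, Fintype.card_fun, Fintype.card_fin, Fintype.card_fin, nsmul_eq_mul]
    push_cast
    rfl
  have h3 : (∑ φ : Fin m → Fin q, ∑ r : Fin m, ∑ r' : Fin m,
      if s (m * φ r + r) (m * φ r' + r') then T r r' else 0 : ℤ) =
      (q : ℤ) ^ (m - 2) * ∑ r ∈ range m, ∑ r' ∈ range m, if r = r' then 0 else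
        T r r' * blk s m r r' q q := by
    rw [sum_comm, Finset.sum_range, mul_sum]
    refine sum_congr rfl fun r _ => ?_
    rw [sum_comm, Finset.sum_range, mul_sum]
    refine sum_congr rfl fun r' _ => ?_
    by_cases hrr : r = r'
    · subst hrr
      rw [if_pos rfl, mul_zero]
      exact sum_eq_zero fun φ _ => if_neg (hC.irrefl _ hs _)
    · rw [if_neg fun h => hrr (Fin.ext h)]
      have h4 : ∀ φ : Fin m → Fin q, (if s (m * φ r + r) (m * φ r' + r') then T r r' else 0) =
          ∑ i : Fin q, ∑ j : Fin q, (if s (m * i + r) (m * j + r') then T r r' else 0) *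
            (if φ r = i ∧ φ r' = j then (1 : ℤ) else 0) := by
        intro φ
        rw [sum_eq_single (φ r), sum_eq_single (φ r')]
        · simp
        · intro j _ hj
          rw [if_neg (c := φ r = φ r ∧ φ r' = j) fun h => hj h.2.symm, mul_zero]
        · intro h
          exact absurd (mem_univ _) h
        · intro i _ hi
          refine sum_eq_zero fun j _ => ?_
          rw [if_neg (c := φ r = i ∧ φ r' = j) fun h => hi h.1.symm, mul_zero]
        · intro h
          exact absurd (mem_univ _) h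
      rw [sum_congr rfl fun φ _ => h4 φ, sum_comm, blk, Finset.sum_range, mul_sum, mul_sum]
      refine sum_congr rfl fun i _ => ?_
      rw [sum_comm, Finset.sum_range, mul_sum, mul_sum]
      refine sum_congr rfl fun j _ => ?_
      rw [← mul_sum, count_fun r r' hrr]
      split_ifs <;> ring
  rw [h3] at h2
  have h4 : (q : ℝ) ^ m = (q : ℝ) ^ (m - 2) * (q : ℝ) ^ 2 := by
    rw [← pow_add]
    congr 1
    omega
  have h5 : (0 : ℝ) < (q : ℝ) ^ (m - 2) := pow_pos (by exact_mod_cast hq) _
  rw [h4, Int.cast_mul, Int.cast_pow, Int.cast_natCast, mul_assoc] at h2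
  have h6 := le_of_mul_le_mul_left h2 h5
  rw [mul_comm] at h6
  exact h6

theorem blk_nonneg (s : ℕ → ℕ → Prop) (m r r' a b : ℕ) : 0 ≤ blk s m r r' a b := by
  classical
  unfold blk
  refine sum_nonneg fun i _ => sum_nonneg fun j _ => ?_
  split_ifs <;> norm_num

theorem blk_diff (s : ℕ → ℕ → Prop) (m r r' : ℕ) {a b q : ℕ} (ha : q ≤ a) (hb : q ≤ b) :
    |blk s m r r' a b - blk s m r r' q q| ≤ (a : ℤ) * b - q * q := by
  classical
  have h1 : blk s m r r' q q ≤ blk s m r r' a b := by
    unfold blk
    refine (sum_le_sum_of_subset_of_nonneg (range_subset_range.2 ha) fun i _ _ =>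
      sum_nonneg fun j _ => by split_ifs <;> norm_num).trans (sum_le_sum fun i _ =>
      sum_le_sum_of_subset_of_nonneg (range_subset_range.2 hb) fun j _ _ => by
        split_ifs <;> norm_num)
  have h2 : (a : ℤ) * b - blk s m r r' a b ≥ q * q - blk s m r r' q q := by
    have e : ∀ a b : ℕ, (a : ℤ) * b - blk s m r r' a b =
        ∑ i ∈ range a, ∑ j ∈ range b, if s (m * i + r) (m * j + r') then (0 : ℤ) else 1 := by
      intro a b
      have h3 : (a : ℤ) * b = ∑ i ∈ range a, ∑ j ∈ range b, (1 : ℤ) := by simp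
      rw [h3, blk, ← sum_sub_distrib]
      refine sum_congr rfl fun i _ => ?_
      rw [← sum_sub_distrib]
      refine sum_congr rfl fun j _ => ?_
      split_ifs <;> norm_num
    rw [e, e]
    exact (sum_le_sum_of_subset_of_nonneg (range_subset_range.2 ha) fun i _ _ =>
      sum_nonneg fun j _ => by split_ifs <;> norm_num).trans (sum_le_sum fun i _ =>
      sum_le_sum_of_subset_of_nonneg (range_subset_range.2 hb) fun j _ _ => by
        split_ifs <;> norm_num)
  rw [abs_of_nonneg (by linarith)]
  linarith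

end Pool.Agent.Helper20.Disp
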