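import Pool.Agent.Helper20.Disp.Blow

/-!
Maximum dispersal: the bound for the blow-up, and the profile of the blow-up.
-/

set_option autoImplicit false

namespace Pool.Agent.Helper20.Disp

open Finset

theorem sum_cnt {m : ℕ} (hm : 0 < m) (n : ℕ) : ∑ r ∈ range m, cnt m n r = n := by
  have h := sum_digits hm (fun _ => 1) n
  simp only [sum_const, card_range, smul_eq_mul, mul_one] at h
  exact h.symm

theorem cnt_ge {m n r : ℕ} (hr : r < m) : n / m ≤ cnt m n r := by
  rw [cnt]
  exact Nat.div_le_div_right (by omega)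

theorem cnt_le {m n r : ℕ} (hr : r < m) : cnt m n r ≤ n := by
  by_contra hcon
  push Not at hcon
  have h1 := (lt_cnt (m := m) (n := n) (i := n) hr).1 hcon
  have h2 : n ≤ m * n := Nat.le_mul_of_pos_left n (by omega)
  omega

/-- the cross part -/
theorem cross_le {C : (ℕ → ℕ → Prop) → Prop} (hC : Cls C) {m : ℕ} (hm : 2 ≤ m) {T : ℕ → ℕ → ℤ} (hT : ∀ a b, |T a b| ≤ 1) {g : ℝ}
    (hbase : ∀ s : ℕ → ℕ → Prop, C s → ∀ [DecidableRel s],
      ((∑ a ∈ range m, ∑ b ∈ range m, if s a b then T a b else 0 : ℤ) : ℝ) ≤ g)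
    {s : ℕ → ℕ → Prop} (hs : C s) (n : ℕ) :
    ((∑ r ∈ range m, ∑ r' ∈ range m, if r = r' then 0 else
        T r r' * blk s m r r' (cnt m n r) (cnt m n r') : ℤ) : ℝ) ≤
      g * ((n / m : ℕ) : ℝ) ^ 2 + 2 * m * n := by
  set q := n / m with hq
  have h1 := cross_main hC hm hbase hs (q := q)
  have h2 : (∑ r ∈ range m, ∑ r' ∈ range m, if r = r' then 0 else
        T r r' * blk s m r r' (cnt m n r) (cnt m n r') : ℤ) ≤
      (∑ r ∈ range m, ∑ r' ∈ range m, if r = r' then 0 else T r r' * blk s m r r' q q) +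
      ∑ r ∈ range m, ∑ r' ∈ range m, ((cnt m n r : ℤ) * cnt m n r' - q * q) := by
    rw [← sum_add_distrib]
    refine sum_le_sum fun r hr => ?_
    rw [← sum_add_distrib]
    refine sum_le_sum fun r' hr' => ?_
    have h3 := blk_diff s m r r' (cnt_ge (n := n) (mem_range.1 hr)) (cnt_ge (n := n) (mem_range.1 hr'))
    rw [← hq] at h3
    have h4 : (0 : ℤ) ≤ (cnt m n r : ℤ) * cnt m n r' - q * q := (abs_nonneg _).trans h3
    by_cases h5 : r = r'
    · rw [if_pos h5, if_pos h5]
      linarith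
    · rw [if_neg h5, if_neg h5]
      have h6 : T r r' * (blk s m r r' (cnt m n r) (cnt m n r') - blk s m r r' q q) ≤
          (cnt m n r : ℤ) * cnt m n r' - q * q := by
        refine (le_abs_self _).trans ?_
        rw [abs_mul]
        calc |T r r'| * _ ≤ 1 * _ := mul_le_mul_of_nonneg_right (hT r r') (abs_nonneg _)
          _ ≤ _ := by rw [one_mul]; exact h3
      linarith
  have h3 : ∑ r ∈ range m, ∑ r' ∈ range m, ((cnt m n r : ℤ) * cnt m n r' - q * q) =
      (n : ℤ) * n - m * q * (m * q) := by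
    have h4 : (n : ℤ) = ∑ r ∈ range m, (cnt m n r : ℤ) := by
      rw [← Nat.cast_sum, sum_cnt (by omega)]
    simp only [sum_sub_distrib, sum_const, card_range, nsmul_eq_mul]
    have h5 : ∑ r ∈ range m, ∑ r' ∈ range m, (cnt m n r : ℤ) * cnt m n r' = (n : ℤ) * n := by
      simp only [← mul_sum, ← sum_mul, ← h4]
    rw [h5]
    ring
  have h4 : (n : ℤ) * n - m * q * (m * q) ≤ 2 * m * n := by
    have h5 : m * q ≤ n := by
      rw [hq]
      exact Nat.mul_div_le n m
    have h6 : n < m * q + m := by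
      have := Nat.lt_mul_div_succ n (by omega : 0 < m)
      rw [← hq, mul_add, mul_one] at this
      exact this
    have h5' : (m : ℤ) * q ≤ n := by exact_mod_cast h5
    have h6' : (n : ℤ) < m * q + m := by exact_mod_cast h6
    have h7 : (0 : ℤ) ≤ m * q := by positivity
    nlinarith
  have h5 : ((∑ r ∈ range m, ∑ r' ∈ range m, if r = r' then 0 else
        T r r' * blk s m r r' (cnt m n r) (cnt m n r') : ℤ) : ℝ) ≤
      ((∑ r ∈ range m, ∑ r' ∈ range m, if r = r' then 0 else T r r' * blk s m r r' q q : ℤ) : ℝ) +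
        2 * m * n := by
    have h6 := h2.trans (add_le_add_right (h3.le.trans h4) _)
    exact_mod_cast h6
  linarith

theorem Gn_le {C : (ℕ → ℕ → Prop) → Prop} (hC : Cls C) {m : ℕ} (hm : 2 ≤ m) {T : ℕ → ℕ → ℤ} (hT : ∀ a b, |T a b| ≤ 1) {ε : ℝ} (hε : 0 ≤ ε)
    (hbase : ∀ s : ℕ → ℕ → Prop, C s → ∀ [DecidableRel s],
      ((∑ a ∈ range m, ∑ b ∈ range m, if s a b then T a b else 0 : ℤ) : ℝ) ≤ ε * m.choose 2)
    (k n : ℕ) {s : ℕ → ℕ → Prop} (hs : C s) :
    (Gn m T k n s : ℝ) ≤ ε * n.choose 2 + 2 * m * n * k := by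
  classical
  induction k generalizing n s with
  | zero =>
    have h1 : Gn m T 0 n s = 0 := by
      unfold Gn
      refine sum_eq_zero fun x _ => sum_eq_zero fun y _ => ?_
      rw [Mg, ite_self]
    rw [h1]
    push_cast
    positivity
  | succ k ih =>
    rw [Gn_succ (by omega)]
    have h1 := cross_le hC hm hT hbase hs n
    have h2 : ((∑ r ∈ range m, Gn m T k (cnt m n r) (fun x y => s (m * x + r) (m * y + r)) : ℤ) : ℝ) ≤
        ∑ r ∈ range m, (ε * (cnt m n r).choose 2 + 2 * m * (cnt m n r) * k) := by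
      push_cast
      exact sum_le_sum fun r _ => ih (cnt m n r) (hC.comap _ hs fun x => m * x + r)
    have h4 : ∑ r ∈ range m, (cnt m n r : ℝ) = n := by
      rw [← Nat.cast_sum, sum_cnt (by omega)]
    have h3 : ∑ r ∈ range m, (ε * (cnt m n r).choose 2 + 2 * m * (cnt m n r) * k) =
        ε * ∑ r ∈ range m, ((cnt m n r).choose 2 : ℝ) + 2 * m * n * k := by
      rw [sum_add_distrib, ← mul_sum]
      congr 1
      rw [← h4, mul_sum, sum_mul]
    have h5 : ∑ r ∈ range m, ((cnt m n r).choose 2 : ℝ) + m.choose 2 * ((n / m : ℕ) : ℝ) ^ 2 ≤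
        n.choose 2 := by
      set q := n / m with hq
      have h6 : ∑ r ∈ range m, ∑ r' ∈ range m, ((cnt m n r : ℝ) * cnt m n r') = (n : ℝ) * n := by
        simp only [← mul_sum, ← sum_mul, h4]
      have h7 : ∑ r ∈ range m, (((cnt m n r : ℝ)) ^ 2 + (m - 1) * (q : ℝ) ^ 2) ≤ (n : ℝ) * n := by
        rw [← h6]
        refine sum_le_sum fun r hr => ?_
        rw [← add_sum_erase _ _ hr, ← sq]
        refine add_le_add le_rfl ?_
        have h8 : ∑ r' ∈ (range m).erase r, (q : ℝ) ^ 2 ≤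
            ∑ r' ∈ (range m).erase r, (cnt m n r : ℝ) * cnt m n r' := by
          refine sum_le_sum fun r' hr' => ?_
          rw [sq]
          have e1 : (q : ℝ) ≤ cnt m n r := by exact_mod_cast cnt_ge (mem_range.1 hr)
          have e2 : (q : ℝ) ≤ cnt m n r' := by
            exact_mod_cast cnt_ge (mem_range.1 (mem_of_mem_erase hr'))
          exact mul_le_mul e1 e2 (by positivity) (by positivity)
        refine le_trans (le_of_eq ?_) h8
        rw [sum_const, card_erase_of_mem hr, card_range, nsmul_eq_mul, Nat.cast_sub (by omega)]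
        push_cast
        ring
      rw [sum_add_distrib, sum_const, card_range, nsmul_eq_mul] at h7
      have h8 : ∑ r ∈ range m, ((cnt m n r).choose 2 : ℝ) =
          (∑ r ∈ range m, (cnt m n r : ℝ) ^ 2 - n) / 2 := by
        rw [← h4, ← sum_sub_distrib, sum_div]
        refine sum_congr rfl fun r _ => ?_
        rw [Nat.cast_choose_two]
        ring
      rw [h8, Nat.cast_choose_two, Nat.cast_choose_two]
      nlinarith
    have h6 := mul_le_mul_of_nonneg_left h5 hε
    push_cast at h1 h2 ⊢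
    have h7 : (0 : ℝ) ≤ n := by positivity
    nlinarith

/-! ### The profile -/

/-- comparing two numbers at the least digit where they differ -/
def ltm (m : ℕ) (b : ℕ → ℕ → Prop) : ℕ → ℕ → ℕ → Prop
  | 0, _, _ => False
  | k + 1, x, y => (x % m = y % m ∧ ltm m b k (x / m) (y / m)) ∨ (x % m ≠ y % m ∧ b (x % m) (y % m))

theorem toNat_lt {m : ℕ} {s : Rel m} {x y : ℕ} (h : toNat s x y) : x < m ∧ y < m :=
  ⟨h.1, h.2.1⟩

theorem ltm_irrefl {m : ℕ} {s : Rel m} (k x : ℕ) : ¬ ltm m (toNat s) k x x := by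
  induction k generalizing x with
  | zero => exact fun h => h
  | succ k ih =>
    rintro (⟨-, h⟩ | ⟨h, -⟩)
    · exact ih _ h
    · exact h rfl

theorem ltm_trans {m : ℕ} {s : Rel m} (hs : IsPO s) (k x y z : ℕ) (h1 : ltm m (toNat s) k x y)
    (h2 : ltm m (toNat s) k y z) : ltm m (toNat s) k x z := by
  induction k generalizing x y z with
  | zero => exact h1
  | succ k ih =>
    obtain ⟨hirr, htr⟩ := toNat_strict hs
    rcases h1 with ⟨e1, h1⟩ | ⟨e1, h1⟩ <;> rcases h2 with ⟨e2, h2⟩ | ⟨e2, h2⟩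
    · exact Or.inl ⟨e1.trans e2, ih _ _ _ h1 h2⟩
    · exact Or.inr ⟨by rw [e1]; exact e2, by rw [e1]; exact h2⟩
    · exact Or.inr ⟨by rw [← e2]; exact e1, by rw [← e2]; exact h1⟩
    · have h3 := htr _ _ _ h1 h2
      refine Or.inr ⟨fun h => ?_, h3⟩
      rw [h] at h3
      exact hirr _ h3

theorem ltm_total {m : ℕ} (hm : 0 < m) {s : Rel m} (hs : IsLin s) (k x y : ℕ) (hx : x < m ^ k)
    (hy : y < m ^ k) (hne : x ≠ y) : ltm m (toNat s) k x y ∨ ltm m (toNat s) k y x := by
  induction k generalizing x y with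
  | zero => simp at hx hy; omega
  | succ k ih =>
    by_cases hxy : x % m = y % m
    · rw [pow_succ] at hx hy
      have h1 : x / m < m ^ k := Nat.div_lt_of_lt_mul (by rw [mul_comm]; exact hx)
      have h2 : y / m < m ^ k := Nat.div_lt_of_lt_mul (by rw [mul_comm]; exact hy)
      have h3 : x / m ≠ y / m := by
        intro h
        apply hne
        rw [← Nat.div_add_mod x m, ← Nat.div_add_mod y m, h, hxy]
      rcases ih _ _ h1 h2 h3 with h | h
      · exact Or.inl (Or.inl ⟨hxy, h⟩)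
      · exact Or.inr (Or.inl ⟨hxy.symm, h⟩)
    · have h1 := Nat.mod_lt x hm
      have h2 := Nat.mod_lt y hm
      rcases hs.2 ⟨x % m, h1⟩ ⟨y % m, h2⟩ (fun h => hxy (congrArg Fin.val h)) with h | h
      · exact Or.inl (Or.inr ⟨hxy, h1, h2, h⟩)
      · exact Or.inr (Or.inr ⟨Ne.symm hxy, h2, h1, h⟩)

open Classical in
/-- the blow-up of a relation -/
noncomputable def blow (n k : ℕ) {m : ℕ} (s : Rel m) : Rel n :=
  univ.filter fun e => ltm m (toNat s) k e.1 e.2

theorem mem_blow {n k m : ℕ} {s : Rel m} {e : Fin n × Fin n} :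
    e ∈ blow n k s ↔ ltm m (toNat s) k e.1 e.2 := by
  classical
  simp [blow]

theorem blow_lin {n k m : ℕ} (hm : 0 < m) (hn : n ≤ m ^ k) {s : Rel m} (hs : IsLin s) :
    IsLin (blow n k s) := by
  refine ⟨⟨fun a h => ?_, fun a b d h1 h2 => ?_⟩, fun a b hab => ?_⟩
  · exact ltm_irrefl k a (mem_blow.1 h)
  · exact mem_blow.2 (ltm_trans hs.1 k a b d (mem_blow.1 h1) (mem_blow.1 h2))
  · rw [mem_blow, mem_blow]
    exact ltm_total hm hs k _ _ (a.2.trans_le hn) (b.2.trans_le hn) fun h => hab (Fin.ext h)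

/-- the margins of a base profile -/
noncomputable def Tb {m v : ℕ} (B : Fin v → Rel m) (a b : ℕ) : ℤ := by
  classical
  exact if h : a < m ∧ b < m ∧ a ≠ b then 2 * (wt B (⟨a, h.1⟩, ⟨b, h.2.1⟩) : ℤ) - v else 0

theorem wt_blow {n k m v : ℕ} (hm : 0 < m) (hn : n ≤ m ^ k) (B : Fin v → Rel m)
    {e : Fin n × Fin n} (he : e ∈ off n) :
    2 * (wt (fun i => blow n k (B i)) e : ℤ) - v = Mg m (Tb B) k e.1 e.2 := by
  classical
  have hne : (e.1 : ℕ) ≠ e.2 := fun h => (mem_filter.1 he).2 (Fin.ext h)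
  have h1 : wt (fun i => blow n k (B i)) e = (univ.filter fun i => ltm m (toNat (B i)) k e.1 e.2).card := by
    rw [wt]
    congr 1
    ext i
    simp only [mem_filter, mem_univ, true_and, mem_blow]
  rw [h1]
  have key : ∀ k x y, x < m ^ k → y < m ^ k → x ≠ y →
      2 * ((univ.filter fun i => ltm m (toNat (B i)) k x y).card : ℤ) - v = Mg m (Tb B) k x y := by
    intro k
    induction k with
    | zero =>
      intro x y hx hy hxy
      simp at hx hy
      omega
    | succ k ih =>
      intro x y hx hy hxy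
      by_cases h2 : x % m = y % m
      · rw [Mg, if_pos h2]
        rw [pow_succ] at hx hy
        have h3 : x / m < m ^ k := Nat.div_lt_of_lt_mul (by rw [mul_comm]; exact hx)
        have h4 : y / m < m ^ k := Nat.div_lt_of_lt_mul (by rw [mul_comm]; exact hy)
        have h5 : x / m ≠ y / m := by
          intro h
          apply hxy
          rw [← Nat.div_add_mod x m, ← Nat.div_add_mod y m, h, h2]
        rw [← ih _ _ h3 h4 h5]
        congr 4
        ext i
        simp only [mem_filter, mem_univ, true_and, ltm]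
        tauto
      · have h3 := Nat.mod_lt x hm
        have h4 := Nat.mod_lt y hm
        rw [Mg, if_neg h2, Tb, dif_pos ⟨h3, h4, h2⟩]
        congr 4
        ext i
        simp only [mem_filter, mem_univ, true_and, ltm]
        constructor
        · rintro (⟨h5, -⟩ | ⟨-, h5⟩)
          · exact absurd h5 h2
          · exact h5.2.2
        · intro h5
          exact Or.inr ⟨h2, h3, h4, h5⟩
  exact key k _ _ (e.1.2.trans_le hn) (e.2.2.trans_le hn) hne

/-- the sum of the weights of a profile of linear orders -/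
theorem sum_wt_lin {n v : ℕ} {π : Fin v → Rel n} (h : ∀ i, IsLin (π i)) :
    ∑ e, (wt π e : ℤ) = v * n.choose 2 := by
  rw [sum_wt_off fun i => (h i).1]
  have h1 : ∀ e ∈ off n, (wt π e : ℤ) + wt π e.swap = v := by
    intro e he
    have hne := (mem_filter.1 he).2
    have h2 : wt π e + wt π e.swap = v := by
      rw [wt, wt, ← card_union_of_disjoint]
      · have h3 : (univ.filter fun i => e ∈ π i) ∪ (univ.filter fun i => e.swap ∈ π i) = univ := by
          ext i
          simp only [mem_union, mem_filter, mem_univ, true_and, iff_true]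
          exact (h i).2 e.1 e.2 hne
        rw [h3, card_univ, Fintype.card_fin]
      · rw [disjoint_filter]
        intro i _ h3 h4
        exact asymm (h i).1 h3 h4
    exact_mod_cast h2
  have h2 := sum_congr rfl h1
  rw [sum_add_distrib, ← sum_off (fun e => (wt π e : ℤ)), sum_const, card_off, nsmul_eq_mul] at h2
  push_cast at h2
  linarith

theorem rem_blow {n k m v : ℕ} (hm : 0 < m) (hn : n ≤ m ^ k) {B : Fin v → Rel m}
    (hB : ∀ i, IsLin (B i)) {s : Rel n} (hs : IsPO s) :
    (rem (fun i => blow n k (B i)) s : ℤ) = v * n.choose 2 - Gn m (Tb B) k n (toNat s) := by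
  classical
  rw [rem_eq, sum_wt_lin fun i => blow_lin hm hn (hB i)]
  have h1 : ∑ e ∈ s, ((v : ℤ) - 2 * wt (fun i => blow n k (B i)) e) =
      - ∑ e ∈ s, Mg m (Tb B) k e.1 e.2 := by
    rw [← sum_neg_distrib]
    refine sum_congr rfl fun e he => ?_
    rw [← wt_blow hm hn B (sub_off hs he)]
    ring
  have h2 : Gn m (Tb B) k n (toNat s) = ∑ e ∈ s, Mg m (Tb B) k e.1 e.2 := by
    unfold Gn
    have h3 : ∑ e ∈ s, Mg m (Tb B) k e.1 e.2 =
        ∑ e : Fin n × Fin n, if e ∈ s then Mg m (Tb B) k e.1 e.2 else 0 := by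
      rw [sum_ite_mem, univ_inter]
    rw [h3, Fintype.sum_prod_type, Finset.sum_range]
    refine sum_congr rfl fun x _ => ?_
    rw [Finset.sum_range]
    refine sum_congr rfl fun y _ => ?_
    have h4 : toNat s (x : ℕ) (y : ℕ) ↔ (x, y) ∈ s :=
      ⟨fun ⟨_, _, h⟩ => h, fun h => ⟨x.2, y.2, h⟩⟩
    by_cases h5 : (x, y) ∈ s
    · rw [if_pos h5, if_pos (h4.2 h5)]
    · rw [if_neg h5, if_neg fun h6 => h5 (h4.1 h6)]
  rw [h1, h2]
  ring

end Pool.Agent.Helper20.Disp
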