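import Pool.Agent.Helper20.Disp.Rand

/-!
Maximum dispersal: a tournament in which no interval order gains more than `30 m ^ (3 / 2)`.
An interval order is the comparison of two ranks; the comparison is decomposed at the binary digits.
-/

set_option autoImplicit false

namespace Pool.Agent.Helper20.Disp

open Finset

/-! ### The code of an interval order -/

/-- the number of points whose set of predecessors contains that of `x` -/
noncomputable def cI {m : ℕ} (s : Rel m) (x : Fin m) : ℕ := by
  classical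
  exact (univ.filter fun x' => ∀ y, (y, x) ∈ s → (y, x') ∈ s).card

/-- the number of successors -/
noncomputable def uI {m : ℕ} (s : Rel m) (y : Fin m) : ℕ := by
  classical
  exact (univ.filter fun x => (y, x) ∈ s).card

theorem mem_iff_code {m : ℕ} {s : Rel m} (hs : IsInterval s) (y x : Fin m) :
    (y, x) ∈ s ↔ cI s x ≤ uI s y := by
  classical
  constructor
  · intro h
    unfold cI uI
    refine card_le_card fun x' hx' => ?_
    rw [mem_filter] at hx' ⊢
    exact ⟨mem_univ _, hx'.2 y h⟩
  · intro h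
    by_contra hcon
    refine absurd h (not_le.2 ?_)
    unfold cI uI
    refine card_lt_card ((ssubset_iff_of_subset fun x' hx' => ?_).2 ⟨x, ?_, ?_⟩)
    · rw [mem_filter] at hx' ⊢
      refine ⟨mem_univ _, fun y' hy' => ?_⟩
      exact (hs.2 y' x y x' hy' hx'.2).resolve_right hcon
    · rw [mem_filter]
      exact ⟨mem_univ _, fun _ h => h⟩
    · rw [mem_filter]
      exact fun h => hcon h.2

/-- the items: every point as an upper end and as a lower end -/
abbrev It (m : ℕ) := Fin m ⊕ Fin m

/-- the quotient part of the key -/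
noncomputable def kq {m : ℕ} (s : Rel m) : It m → ℕ
  | .inl x => 2 * cI s x
  | .inr y => 2 * uI s y + 1

/-- the remainder part of the key -/
def kr {m : ℕ} : It m → ℕ
  | .inl x => x
  | .inr y => y

theorem kr_lt {m : ℕ} (i : It m) : kr i < m := by
  rcases i with x | y
  · exact x.2
  · exact y.2

/-- the key -/
noncomputable def key {m : ℕ} (s : Rel m) (i : It m) : ℕ := kq s i * m + kr i

theorem key_inj {m : ℕ} (s : Rel m) : Function.Injective (key s) := by
  intro i j h
  have hm : 0 < m := by
    have := kr_lt i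
    omega
  have h1 : kq s i = kq s j := by
    have e1 : key s i / m = kq s i := by
      rw [key, mul_comm, Nat.mul_add_div hm, Nat.div_eq_of_lt (kr_lt i), add_zero]
    have e2 : key s j / m = kq s j := by
      rw [key, mul_comm, Nat.mul_add_div hm, Nat.div_eq_of_lt (kr_lt j), add_zero]
    rw [← e1, ← e2, h]
  have h2 : kr i = kr j := by
    rw [key, key, h1] at h
    omega
  rcases i with x | y <;> rcases j with x' | y'
  · exact congrArg _ (Fin.ext h2)
  · have h3 : 2 * cI s x = 2 * uI s y' + 1 := h1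
    omega
  · have h3 : 2 * uI s y + 1 = 2 * cI s x' := h1
    omega
  · exact congrArg _ (Fin.ext h2)

theorem key_lt {m : ℕ} {s : Rel m} (hs : IsInterval s) (y x : Fin m) :
    (y, x) ∈ s ↔ key s (.inl x) < key s (.inr y) := by
  rw [mem_iff_code hs]
  have hx := x.2
  have hy := y.2
  show _ ↔ 2 * cI s x * m + x < (2 * uI s y + 1) * m + y
  constructor
  · intro h
    have h1 : 2 * cI s x * m ≤ 2 * uI s y * m := Nat.mul_le_mul_right _ (by omega)
    have h2 : (2 * uI s y + 1) * m = 2 * uI s y * m + m := by ring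
    omega
  · intro h
    by_contra hcon
    have h1 : (2 * uI s y + 2) * m ≤ 2 * cI s x * m := Nat.mul_le_mul_right _ (by omega)
    have h2 : (2 * uI s y + 2) * m = (2 * uI s y + 1) * m + m := by ring
    omega

/-- the rank -/
noncomputable def rk {m : ℕ} (s : Rel m) (i : It m) : ℕ :=
  ((univ : Finset (It m)).filter fun j => key s j < key s i).card

theorem rk_lt {m : ℕ} (s : Rel m) (i : It m) : rk s i < 2 * m := by
  have h1 : rk s i < (univ : Finset (It m)).card := by
    refine card_lt_card ((ssubset_iff_of_subset (filter_subset _ _)).2 ⟨i, mem_univ _, fun h => ?_⟩)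
    exact lt_irrefl _ (mem_filter.1 h).2
  rw [card_univ, Fintype.card_sum, Fintype.card_fin] at h1
  omega

theorem rk_iff {m : ℕ} (s : Rel m) (i j : It m) : rk s i < rk s j ↔ key s i < key s j := by
  constructor
  · intro h
    by_contra hcon
    push Not at hcon
    refine absurd h (not_lt.2 (card_le_card fun k hk => ?_))
    rw [mem_filter] at hk ⊢
    exact ⟨mem_univ _, hk.2.trans_le hcon⟩
  · intro h
    refine card_lt_card ((ssubset_iff_of_subset fun k hk => ?_).2 ⟨i, ?_, ?_⟩)
    · rw [mem_filter] at hk ⊢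
      exact ⟨mem_univ _, hk.2.trans h⟩
    · exact mem_filter.2 ⟨mem_univ _, h⟩
    · intro h'
      exact lt_irrefl _ (mem_filter.1 h').2

theorem rk_inj {m : ℕ} (s : Rel m) : Function.Injective (rk s) := by
  intro i j h
  by_contra hne
  rcases lt_or_gt_of_ne fun h' => hne (key_inj s h') with h1 | h1
  · exact absurd h ((rk_iff s i j).2 h1).ne
  · exact absurd h ((rk_iff s j i).2 h1).ne'

/-! ### The decomposition at the binary digits -/

theorem lt_decomp (K a b : ℕ) (ha : a < 2 ^ K) (hb : b < 2 ^ K) :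
    (if a < b then (1 : ℤ) else 0) =
      ∑ j ∈ range K, if b / 2 ^ j = a / 2 ^ j + 1 ∧ (a / 2 ^ j) % 2 = 0 then 1 else 0 := by
  induction K generalizing a b with
  | zero =>
    simp at ha hb
    simp [ha, hb]
  | succ K ih =>
    rw [sum_range_succ']
    rw [pow_succ] at ha hb
    have h1 := ih (a / 2) (b / 2) (by omega) (by omega)
    have h2 : ∀ j x : ℕ, x / 2 ^ (j + 1) = x / 2 / 2 ^ j := by
      intro j x
      rw [Nat.div_div_eq_div_mul, pow_succ']
    simp only [h2, pow_zero, Nat.div_one]
    rw [← h1]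
    split_ifs <;> omega

/-- the part of the comparison at one level -/
def lev {m : ℕ} (g : It m → ℕ) : Rel m := by
  classical
  exact univ.filter fun e => g (.inr e.1) = g (.inl e.2) + 1 ∧ g (.inl e.2) % 2 = 0

theorem mem_lev {m : ℕ} {g : It m → ℕ} {e : Fin m × Fin m} :
    e ∈ lev g ↔ g (.inr e.1) = g (.inl e.2) + 1 ∧ g (.inl e.2) % 2 = 0 := by
  classical
  simp [lev]

theorem gain_lev {m K : ℕ} (hK : 2 * m ≤ 2 ^ K) {s : Rel m} (hs : IsInterval s)
    (T : Fin m × Fin m → ℤ) :
    ∑ e ∈ s, T e = ∑ j ∈ range K, ∑ e ∈ lev (fun i => rk s i / 2 ^ j), T e := by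
  classical
  have h1 : ∀ w : Rel m, ∑ e ∈ w, T e = ∑ e, (if e ∈ w then 1 else 0) * T e := by
    intro w
    have : ∑ e ∈ w, T e = ∑ e, if e ∈ w then T e else 0 := by rw [sum_ite_mem, univ_inter]
    rw [this]
    refine sum_congr rfl fun e _ => ?_
    split_ifs <;> ring
  rw [h1, sum_congr rfl fun j _ => h1 _, sum_comm]
  refine sum_congr rfl fun e _ => ?_
  rw [← sum_mul]
  congr 1
  have h2 := lt_decomp K (rk s (.inl e.2)) (rk s (.inr e.1)) ((rk_lt s _).trans_le hK)
    ((rk_lt s _).trans_le hK)
  have h3 : e ∈ s ↔ rk s (.inl e.2) < rk s (.inr e.1) := by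
    rw [rk_iff, ← key_lt hs]
  simp only [mem_lev]
  rw [← h2]
  by_cases h4 : e ∈ s
  · rw [if_pos h4, if_pos (h3.1 h4)]
  · rw [if_neg h4, if_neg fun h5 => h4 (h3.2 h5)]

theorem card_lev {m : ℕ} (s : Rel m) (j : ℕ) :
    (lev (fun i => rk s i / 2 ^ j)).card ≤ 2 ^ j * m := by
  classical
  refine (card_le_mul_card_image (f := Prod.fst) _ (2 ^ j) fun y _ => ?_).trans
    (Nat.mul_le_mul_left _ ((card_le_univ _).trans ?_))
  · set r := rk s (.inr y) / 2 ^ j - 1 with hr
    have h1 : ((lev (fun i => rk s i / 2 ^ j)).filter fun e => e.1 = y).card ≤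
        (Ico (r * 2 ^ j) ((r + 1) * 2 ^ j)).card := by
      refine card_le_card_of_injOn (fun e => rk s (.inl e.2)) ?_ ?_
      · intro e he
        rw [mem_coe, mem_filter, mem_lev] at he
        obtain ⟨⟨h2, -⟩, h3⟩ := he
        rw [h3] at h2
        have h2' : rk s (.inr y) / 2 ^ j = rk s (.inl e.2) / 2 ^ j + 1 := h2
        have h4 : rk s (.inl e.2) / 2 ^ j = r := by
          rw [hr, h2']
          rfl
        rw [mem_coe, mem_Ico, ← h4]
        exact ⟨Nat.div_mul_le_self _ _,
          (Nat.div_lt_iff_lt_mul (by positivity)).1 (Nat.lt_succ_self _)⟩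
      · intro e he e' he' h
        rw [mem_coe, mem_filter] at he he'
        have h2 : (Sum.inl e.2 : It m) = Sum.inl e'.2 := rk_inj s h
        exact Prod.ext (he.2.trans he'.2.symm) (Sum.inl_injective h2)
    refine h1.trans (le_of_eq ?_)
    rw [Nat.card_Ico, add_mul, one_mul, Nat.add_sub_cancel_left]
  · rw [Fintype.card_fin]

/-- the family of one level -/
noncomputable def famL (m K j : ℕ) : Finset (Rel m) := by
  classical
  exact ((univ : Finset (It m → Fin (2 ^ (K - j)))).image fun g => lev fun i => (g i : ℕ)).filter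
    fun w => w.card ≤ 2 ^ j * m

theorem card_famL (m K j : ℕ) : (famL m K j).card ≤ 2 ^ (2 * m * (K - j)) := by
  classical
  unfold famL
  refine (card_filter_le _ _).trans (card_image_le.trans (le_of_eq ?_))
  rw [card_univ, Fintype.card_fun, Fintype.card_sum, Fintype.card_fin, Fintype.card_fin, ← pow_mul]
  congr 1
  ring

theorem mem_famL {m K j : ℕ} (hK : 2 * m ≤ 2 ^ K) (hj : j < K) (s : Rel m) :
    lev (fun i => rk s i / 2 ^ j) ∈ famL m K j := by
  classical
  unfold famL
  rw [mem_filter]
  refine ⟨?_, card_lev s j⟩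
  rw [mem_image]
  have h1 : ∀ i, rk s i / 2 ^ j < 2 ^ (K - j) := by
    intro i
    refine Nat.div_lt_of_lt_mul ?_
    rw [← pow_add, Nat.add_sub_cancel' hj.le]
    exact (rk_lt s i).trans_le hK
  exact ⟨fun i => ⟨rk s i / 2 ^ j, h1 i⟩, mem_univ _, rfl⟩

theorem geom_bound (K : ℕ) {r : ℝ} (h0 : 0 ≤ r) (h1 : r < 1) :
    ∑ j ∈ range K, r ^ (K - j) ≤ r / (1 - r) := by
  have h2 : (0 : ℝ) < 1 - r := by linarith
  have h3 : ∀ K : ℕ, ∑ j ∈ range K, r ^ (K - j) = r / (1 - r) * (1 - r ^ K) := by
    intro K
    induction K with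
    | zero => simp
    | succ K ih =>
      rw [sum_range_succ']
      simp only [Nat.add_sub_add_right, Nat.sub_zero]
      rw [ih, pow_succ]
      field_simp
      ring
  rw [h3]
  have h4 : 0 ≤ r / (1 - r) := div_nonneg h0 h2.le
  have h5 : 0 ≤ r ^ K := pow_nonneg h0 K
  nlinarith

theorem pow_bound (J : ℕ) : 24 * (J : ℝ) ≤ 100 * (9 / 8) ^ J := by
  induction J with
  | zero => norm_num
  | succ J ih =>
    rcases le_or_gt 8 J with h | h
    · have h' : (8 : ℝ) ≤ J := by exact_mod_cast h
      rw [pow_succ]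
      push_cast
      nlinarith
    · interval_cases J <;> norm_num

/-- **A tournament in which no interval order gains much.** -/
theorem chain_tournament {m : ℕ} (hm : 1 ≤ m) :
    ∃ A : Finset (Fin m × Fin m), (∀ e ∈ A, e.1 < e.2) ∧
      ∀ w : Rel m, IsInterval w → ((∑ e ∈ w, Td A e : ℤ) : ℝ) ≤ 30 * (m * Real.sqrt m) := by
  classical
  have hm0 : (1 : ℝ) ≤ m := by exact_mod_cast hm
  obtain ⟨K, hK1, hK2⟩ : ∃ K, 2 * m ≤ 2 ^ K ∧ 2 ^ K ≤ 4 * m := by
    refine ⟨Nat.clog 2 (2 * m), Nat.le_pow_clog (by norm_num) _, ?_⟩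
    have h1 : 2 ^ (Nat.clog 2 (2 * m)).pred < 2 * m :=
      Nat.pow_pred_clog_lt_self (by norm_num) (by omega)
    have h2 : 0 < Nat.clog 2 (2 * m) := Nat.clog_pos (by norm_num) (by omega)
    obtain ⟨k, hk⟩ : ∃ k, Nat.clog 2 (2 * m) = k + 1 := ⟨Nat.clog 2 (2 * m) - 1, by omega⟩
    rw [hk] at h1 ⊢
    rw [Nat.pred_succ] at h1
    rw [pow_succ]
    omega
  have hK2' : (2 : ℝ) ^ K ≤ 4 * m := by exact_mod_cast hK2
  set Q : ℝ := m * Real.sqrt m with hQ
  have hQ0 : 0 ≤ Q := by positivity
  have hQ2 : Q ^ 2 = (m : ℝ) ^ 3 := by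
    rw [hQ, mul_pow, Real.sq_sqrt (by positivity)]
    ring
  obtain ⟨A, hA, h⟩ := exists_balanced (m := m) (range K) (fun j => famL m K j)
    (fun j => ((2 ^ j * m : ℕ) : ℝ)) (fun j => 10 * Q * (3 / 4) ^ (K - j))
    (fun j _ => by
      have : 0 < 2 ^ j * m := by positivity
      exact_mod_cast this)
    (fun j _ w hw => by
      refine (en_le_card w).trans ?_
      have h1 : w.card ≤ 2 ^ j * m := by
        unfold famL at hw
        exact (mem_filter.1 hw).2
      exact_mod_cast h1)
    (fun j _ => by positivity)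
    (by
      have h1 : ∀ j ∈ range K, ((famL m K j).card : ℝ) *
          Real.exp (-((10 * Q * (3 / 4) ^ (K - j)) ^ 2 / (2 * ((2 ^ j * m : ℕ) : ℝ)))) ≤
          (2 / 5) ^ (K - j) := by
        intro j hj
        have hjK : j ≤ K := (mem_range.1 hj).le
        set J := K - j with hJ
        have e1 : ((famL m K j).card : ℝ) ≤ Real.exp (2 * m * J) := by
          have e2 : ((famL m K j).card : ℝ) ≤ 2 ^ (2 * m * J) := by exact_mod_cast card_famL m K j
          have e3 : Real.exp (2 * m * J) = Real.exp 1 ^ (2 * m * J) := by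
            rw [← Real.exp_nat_mul]
            push_cast
            congr 1
            ring
          rw [e3]
          refine e2.trans (pow_le_pow_left₀ (by norm_num) ?_ _)
          have := Real.exp_one_gt_d9
          linarith
        have e4 : 3 * (m : ℝ) * J ≤ (10 * Q * (3 / 4) ^ J) ^ 2 / (2 * ((2 ^ j * m : ℕ) : ℝ)) := by
          have e5 : (0 : ℝ) < 2 * ((2 ^ j * m : ℕ) : ℝ) := by
            have : 0 < 2 ^ j * m := by positivity
            have : (0 : ℝ) < ((2 ^ j * m : ℕ) : ℝ) := by exact_mod_cast this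
            linarith
          rw [le_div_iff₀ e5]
          push_cast
          have e6 : (2 : ℝ) ^ j * 2 ^ J ≤ 4 * m := by
            rw [← pow_add, hJ, Nat.add_sub_cancel' hjK]
            exact hK2'
          have e7 : (10 * Q * (3 / 4) ^ J) ^ 2 = 100 * (m : ℝ) ^ 3 * (9 / 16) ^ J := by
            rw [mul_pow, mul_pow, hQ2, ← pow_mul, mul_comm J 2, pow_mul]
            norm_num
          rw [e7]
          have e8 := pow_bound J
          have e9 : ((9 : ℝ) / 16) ^ J * 2 ^ J = (9 / 8) ^ J := by
            rw [← mul_pow]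
            norm_num
          have e10 : (0 : ℝ) < 2 ^ J := by positivity
          -- multiply by `2 ^ J`
          refine le_of_mul_le_mul_right ?_ e10
          calc 3 * (m : ℝ) * J * (2 * (2 ^ j * m)) * 2 ^ J =
              6 * (m : ℝ) ^ 2 * J * (2 ^ j * 2 ^ J) := by ring
            _ ≤ 6 * (m : ℝ) ^ 2 * J * (4 * m) := mul_le_mul_of_nonneg_left e6 (by positivity)
            _ = (m : ℝ) ^ 3 * (24 * J) := by ring
            _ ≤ (m : ℝ) ^ 3 * (100 * (9 / 8) ^ J) := mul_le_mul_of_nonneg_left e8 (by positivity)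
            _ = 100 * (m : ℝ) ^ 3 * (9 / 16) ^ J * 2 ^ J := by rw [← e9]; ring
        calc ((famL m K j).card : ℝ) *
              Real.exp (-((10 * Q * (3 / 4) ^ J) ^ 2 / (2 * ((2 ^ j * m : ℕ) : ℝ)))) ≤
              Real.exp (2 * m * J) * Real.exp (-(3 * m * J)) :=
              mul_le_mul e1 (Real.exp_le_exp.2 (neg_le_neg e4)) (Real.exp_pos _).le
                (Real.exp_pos _).le
          _ = Real.exp (-(m * J)) := by
              rw [← Real.exp_add]
              congr 1
              ring
          _ ≤ Real.exp (-(J : ℝ)) := by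
              refine Real.exp_le_exp.2 (neg_le_neg ?_)
              have : (0 : ℝ) ≤ J := by positivity
              nlinarith
          _ = Real.exp (-1) ^ J := by
              rw [← Real.exp_nat_mul]
              congr 1
              ring
          _ ≤ (2 / 5) ^ J := by
              refine pow_le_pow_left₀ (Real.exp_pos _).le ?_ _
              rw [Real.exp_neg, inv_le_comm₀ (Real.exp_pos _) (by norm_num)]
              have := Real.exp_one_gt_d9
              norm_num
              linarith
      refine (sum_le_sum h1).trans_lt ?_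
      refine (geom_bound K (r := 2 / 5) (by norm_num) (by norm_num)).trans_lt ?_
      norm_num)
  refine ⟨A, hA, fun w hw => ?_⟩
  rw [gain_lev hK1 hw, Int.cast_sum]
  calc ∑ j ∈ range K, ((∑ e ∈ lev (fun i => rk w i / 2 ^ j), Td A e : ℤ) : ℝ) ≤
      ∑ j ∈ range K, 10 * Q * (3 / 4) ^ (K - j) :=
        sum_le_sum fun j hj => h j hj _ (mem_famL hK1 (mem_range.1 hj) w)
    _ = 10 * Q * ∑ j ∈ range K, (3 / 4) ^ (K - j) := by rw [mul_sum]
    _ ≤ 10 * Q * 3 := by
        refine mul_le_mul_of_nonneg_left ?_ (by positivity)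
        refine (geom_bound K (r := 3 / 4) (by norm_num) (by norm_num)).trans (le_of_eq ?_)
        norm_num
    _ = 30 * Q := by ring

end Pool.Agent.Helper20.Disp
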