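import Pool.Agent.Helper20.Disp.Basic

/-!
Maximum dispersal: the recursive Condorcet profile. Two numbers are compared at the least digit (in
base three) where they differ.
-/

set_option autoImplicit false

namespace Pool.Agent.Helper20.Disp

open Finset

/-- the `c`-th linear order on the numbers below `3 ^ k` -/
def lt3 (c : ℕ) : ℕ → ℕ → ℕ → Bool
  | 0, _, _ => false
  | k + 1, x, y => if x % 3 = y % 3 then lt3 c k (x / 3) (y / 3) else
      decide ((x % 3 + c) % 3 < (y % 3 + c) % 3)

theorem lt3_succ_eq {c k x y : ℕ} (h : x % 3 = y % 3) :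
    lt3 c (k + 1) x y = lt3 c k (x / 3) (y / 3) := by
  rw [lt3, if_pos h]

theorem lt3_succ_ne {c k x y : ℕ} (h : x % 3 ≠ y % 3) :
    lt3 c (k + 1) x y = decide ((x % 3 + c) % 3 < (y % 3 + c) % 3) := by
  rw [lt3, if_neg h]

theorem lt3_irrefl (c k x : ℕ) : lt3 c k x x = false := by
  induction k generalizing x with
  | zero => rfl
  | succ k ih => rw [lt3_succ_eq rfl, ih]

theorem lt3_trans (c k x y z : ℕ) (h1 : lt3 c k x y = true) (h2 : lt3 c k y z = true) :
    lt3 c k x z = true := by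
  induction k generalizing x y z with
  | zero => exact h1
  | succ k ih =>
    by_cases hxy : x % 3 = y % 3
    · rw [lt3_succ_eq hxy] at h1
      by_cases hyz : y % 3 = z % 3
      · rw [lt3_succ_eq hyz] at h2
        rw [lt3_succ_eq (hxy.trans hyz)]
        exact ih _ _ _ h1 h2
      · rw [lt3_succ_ne hyz] at h2
        rw [lt3_succ_ne (by rw [hxy]; exact hyz), hxy]
        exact h2
    · rw [lt3_succ_ne hxy] at h1
      by_cases hyz : y % 3 = z % 3
      · rw [lt3_succ_ne (by rw [← hyz]; exact hxy), ← hyz]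
        exact h1
      · rw [lt3_succ_ne hyz] at h2
        have h3 := of_decide_eq_true h1
        have h4 := of_decide_eq_true h2
        have h5 : (x % 3 + c) % 3 < (z % 3 + c) % 3 := lt_trans h3 h4
        rw [lt3_succ_ne (by
          intro h6
          rw [h6] at h5
          exact lt_irrefl _ h5)]
        exact decide_eq_true h5

theorem lt3_total (c k x y : ℕ) (hx : x < 3 ^ k) (hy : y < 3 ^ k) (hne : x ≠ y) :
    lt3 c k x y = true ∨ lt3 c k y x = true := by
  induction k generalizing x y with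
  | zero => simp at hx hy; omega
  | succ k ih =>
    by_cases hxy : x % 3 = y % 3
    · rw [lt3_succ_eq hxy, lt3_succ_eq hxy.symm]
      rw [pow_succ] at hx hy
      exact ih _ _ (by omega) (by omega) (by omega)
    · rw [lt3_succ_ne hxy, lt3_succ_ne (Ne.symm hxy), decide_eq_true_iff, decide_eq_true_iff]
      omega

/-- the margin of the three orders -/
def mg : ℕ → ℕ → ℕ → ℤ
  | 0, _, _ => 0
  | k + 1, x, y => if x % 3 = y % 3 then mg k (x / 3) (y / 3) else
      if (x % 3 + 1) % 3 = y % 3 then 1 else -1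

theorem mg_eq (k x y : ℕ) (hx : x < 3 ^ k) (hy : y < 3 ^ k) (hne : x ≠ y) :
    2 * (((if lt3 0 k x y then 1 else 0) + (if lt3 1 k x y then 1 else 0) +
      (if lt3 2 k x y then 1 else 0) : ℤ)) - 3 = mg k x y := by
  induction k generalizing x y with
  | zero => simp at hx hy; omega
  | succ k ih =>
    by_cases hxy : x % 3 = y % 3
    · rw [lt3_succ_eq hxy, lt3_succ_eq hxy, lt3_succ_eq hxy, mg, if_pos hxy]
      rw [pow_succ] at hx hy
      exact ih _ _ (by omega) (by omega) (by omega)
    · rw [lt3_succ_ne hxy, lt3_succ_ne hxy, lt3_succ_ne hxy, mg, if_neg hxy]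
      have h1 := Nat.mod_lt x (by norm_num : 0 < 3)
      have h2 := Nat.mod_lt y (by norm_num : 0 < 3)
      generalize x % 3 = a at *
      generalize y % 3 = b at *
      interval_cases a <;> interval_cases b <;> simp_all

/-- the gain of a relation at a pair -/
noncomputable def gn (s : ℕ → ℕ → Prop) (x y : ℕ) : ℤ := by
  classical
  exact (if s x y then 1 else 0) - (if s y x then 1 else 0)

theorem gn_triple {s : ℕ → ℕ → Prop} (h1 : ∀ x, ¬ s x x) (h2 : ∀ x y z, s x y → s y z → s x z)
    (x y z : ℕ) : gn s x y + gn s y z + gn s z x ≤ 1 := by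
  classical
  have hxy : ¬ (s x y ∧ s y x) := fun h => h1 x (h2 x y x h.1 h.2)
  have hyz : ¬ (s y z ∧ s z y) := fun h => h1 y (h2 y z y h.1 h.2)
  have hzx : ¬ (s z x ∧ s x z) := fun h => h1 z (h2 z x z h.1 h.2)
  have a1 := h2 x y z
  have a2 := h2 y z x
  have a3 := h2 z x y
  unfold gn
  by_cases c1 : s x y <;> by_cases c2 : s y x <;> by_cases c3 : s y z <;> by_cases c4 : s z y <;>
    by_cases c5 : s z x <;> by_cases c6 : s x z <;> simp_all

theorem gn_le {s : ℕ → ℕ → Prop} (x y : ℕ) : gn s x y ≤ 1 := by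
  classical
  unfold gn
  split_ifs <;> norm_num

/-- **Three blocks.** `a ≥ b ≥ c ≥ a - 1` are the sizes. -/
theorem three_blocks {s : ℕ → ℕ → Prop} (h1 : ∀ x, ¬ s x x) (h2 : ∀ x y z, s x y → s y z → s x z)
    (u v w : ℕ → ℕ) (a b c : ℕ) (hab : b ≤ a) (hbc : c ≤ b) :
    (a : ℤ) * (∑ i ∈ range a, ∑ j ∈ range b, gn s (u i) (v j) +
      ∑ j ∈ range b, ∑ k ∈ range c, gn s (v j) (w k) +
      ∑ k ∈ range c, ∑ i ∈ range a, gn s (w k) (u i)) ≤
      a * b * c + (a - c) * (a * b) + (a - b) * (c * a) := by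
  have h3 : ∑ i ∈ range a, ∑ j ∈ range b, ∑ k ∈ range c,
      (gn s (u i) (v j) + gn s (v j) (w k) + gn s (w k) (u i)) ≤ a * b * c := by
    calc _ ≤ ∑ i ∈ range a, ∑ j ∈ range b, ∑ k ∈ range c, (1 : ℤ) :=
          sum_le_sum fun i _ => sum_le_sum fun j _ => sum_le_sum fun k _ => gn_triple h1 h2 _ _ _
      _ = a * b * c := by simp [mul_assoc]
  have h4 : ∑ i ∈ range a, ∑ j ∈ range b, ∑ k ∈ range c,
      (gn s (u i) (v j) + gn s (v j) (w k) + gn s (w k) (u i)) =
      c * (∑ i ∈ range a, ∑ j ∈ range b, gn s (u i) (v j)) +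
      a * (∑ j ∈ range b, ∑ k ∈ range c, gn s (v j) (w k)) +
      b * (∑ k ∈ range c, ∑ i ∈ range a, gn s (w k) (u i)) := by
    simp only [sum_add_distrib, sum_const, card_range, nsmul_eq_mul, mul_sum]
    rw [sum_comm (s := range c) (t := range a)]
  have h5 : ∑ i ∈ range a, ∑ j ∈ range b, gn s (u i) (v j) ≤ a * b := by
    calc _ ≤ ∑ i ∈ range a, ∑ j ∈ range b, (1 : ℤ) :=
          sum_le_sum fun i _ => sum_le_sum fun j _ => gn_le _ _
      _ = a * b := by simp
  have h6 : ∑ k ∈ range c, ∑ i ∈ range a, gn s (w k) (u i) ≤ c * a := by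
    calc _ ≤ ∑ k ∈ range c, ∑ i ∈ range a, (1 : ℤ) :=
          sum_le_sum fun i _ => sum_le_sum fun j _ => gn_le _ _
      _ = c * a := by simp
  rw [h4] at h3
  have h7 : (0 : ℤ) ≤ a - c := by
    have : c ≤ a := hbc.trans hab
    omega
  have h8 : (0 : ℤ) ≤ a - b := by omega
  have h9 := mul_le_mul_of_nonneg_left h5 h7
  have h10 := mul_le_mul_of_nonneg_left h6 h8
  nlinarith

theorem sum_split {M : Type*} [AddCommMonoid M] (f : ℕ → M) (n : ℕ) :
    ∑ x ∈ range n, f x = ∑ i ∈ range ((n + 2) / 3), f (3 * i) +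
      ∑ i ∈ range ((n + 1) / 3), f (3 * i + 1) + ∑ i ∈ range (n / 3), f (3 * i + 2) := by
  induction n with
  | zero => simp
  | succ n ih =>
    rw [sum_range_succ, ih]
    have h1 := Nat.div_add_mod n 3
    have h2 := Nat.mod_lt n (by norm_num : 0 < 3)
    generalize n / 3 = q at *
    rcases (by omega : n % 3 = 0 ∨ n % 3 = 1 ∨ n % 3 = 2) with h3 | h3 | h3
    · rw [h3] at h1
      rw [show (n + 2) / 3 = q by omega, show (n + 1) / 3 = q by omega,
        show (n + 1 + 2) / 3 = q + 1 by omega,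
        sum_range_succ (fun i => f (3 * i)), show 3 * q = n by omega]
      abel
    · rw [h3] at h1
      rw [show (n + 2) / 3 = q + 1 by omega, show (n + 1) / 3 = q by omega,
        show (n + 1 + 2) / 3 = q + 1 by omega,
        sum_range_succ (fun i => f (3 * i + 1)), show 3 * q + 1 = n by omega]
      abel
    · rw [h3] at h1
      rw [show (n + 2) / 3 = q + 1 by omega, show (n + 1) / 3 = q + 1 by omega,
        show (n + 1 + 2) / 3 = q + 1 by omega,
        sum_range_succ (fun i => f (3 * i + 2)), show 3 * q + 2 = n by omega]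
      abel

/-- the total margin on the pairs of a relation -/
noncomputable def gain (k n : ℕ) (s : ℕ → ℕ → Prop) : ℤ := by
  classical
  exact ∑ x ∈ range n, ∑ y ∈ range n, if s x y then mg k x y else 0

theorem mg_succ_self (k r x y : ℕ) (hr : r < 3) :
    mg (k + 1) (3 * x + r) (3 * y + r) = mg k x y := by
  rw [mg, if_pos (by omega), show (3 * x + r) / 3 = x by omega, show (3 * y + r) / 3 = y by omega]

theorem mg_succ_up (k r r' x y : ℕ) (_hr : r < 3) (hr' : r' = (r + 1) % 3) :
    mg (k + 1) (3 * x + r) (3 * y + r') = 1 ∧ mg (k + 1) (3 * y + r') (3 * x + r) = -1 := by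
  rw [mg, if_neg (by omega), if_pos (by omega), mg, if_neg (by omega), if_neg (by omega)]
  exact ⟨rfl, rfl⟩

theorem gain_succ (k n : ℕ) (s : ℕ → ℕ → Prop) :
    gain (k + 1) n s = gain k ((n + 2) / 3) (fun x y => s (3 * x) (3 * y)) +
      gain k ((n + 1) / 3) (fun x y => s (3 * x + 1) (3 * y + 1)) +
      gain k (n / 3) (fun x y => s (3 * x + 2) (3 * y + 2)) +
      (∑ i ∈ range ((n + 2) / 3), ∑ j ∈ range ((n + 1) / 3), gn s (3 * i) (3 * j + 1) +
        ∑ j ∈ range ((n + 1) / 3), ∑ l ∈ range (n / 3), gn s (3 * j + 1) (3 * l + 2) +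
        ∑ l ∈ range (n / 3), ∑ i ∈ range ((n + 2) / 3), gn s (3 * l + 2) (3 * i)) := by
  classical
  generalize ha : (n + 2) / 3 = a
  generalize hb : (n + 1) / 3 = b
  generalize hc : n / 3 = c
  have e00 : ∀ x y, mg (k + 1) (3 * x) (3 * y) = mg k x y := fun x y => mg_succ_self k 0 x y (by norm_num)
  have e11 : ∀ x y, mg (k + 1) (3 * x + 1) (3 * y + 1) = mg k x y :=
    fun x y => mg_succ_self k 1 x y (by norm_num)
  have e22 : ∀ x y, mg (k + 1) (3 * x + 2) (3 * y + 2) = mg k x y :=
    fun x y => mg_succ_self k 2 x y (by norm_num)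
  have e01 := fun x y => mg_succ_up k 0 1 x y (by norm_num) rfl
  have e12 := fun x y => mg_succ_up k 1 2 x y (by norm_num) rfl
  have e20 := fun x y => mg_succ_up k 2 0 x y (by norm_num) rfl
  simp only [add_zero] at e01 e20
  unfold gain gn
  rw [sum_split _ n, ha, hb, hc]
  simp only [sum_split _ n, ha, hb, hc, sum_add_distrib, sum_sub_distrib, e00, e11, e22,
    (e01 _ _).1, (e01 _ _).2, (e12 _ _).1, (e12 _ _).2, (e20 _ _).1, (e20 _ _).2]
  rw [sum_comm (s := range b) (t := range a), sum_comm (s := range c) (t := range b),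
    sum_comm (s := range a) (t := range c)]
  have hneg : ∀ (P : Prop) [Decidable P], (if P then (-1 : ℤ) else 0) = -(if P then 1 else 0) := by
    intro P _
    split_ifs <;> rfl
  simp only [hneg, sum_neg_distrib]
  ring

end Pool.Agent.Helper20.Disp
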