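import Pool.Agent.Helper20.Disp.Main

/-!
Maximum dispersal: every profile leaves a gain of the order `n ^ (3 / 2)`.
-/

set_option autoImplicit false

namespace Pool.Agent.Helper20.Disp

open Finset

/-! ### The first absolute moment of a random sum of signs -/

/-- a random sum of signs -/
def sg {ι : Type*} [DecidableEq ι] (I : Finset ι) (c : ι → ℝ) (B : Finset ι) : ℝ :=
  ∑ b ∈ I, (if b ∈ B then 1 else -1) * c b

theorem sg_insert {ι : Type*} [DecidableEq ι] {I : Finset ι} {a : ι} (ha : a ∉ I) (c : ι → ℝ)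
    {B : Finset ι} (hB : B ∈ I.powerset) :
    sg (insert a I) c B = sg I c B - c a ∧ sg (insert a I) c (insert a B) = sg I c B + c a := by
  have hB' := mem_powerset.1 hB
  have h1 : a ∉ B := fun h => ha (hB' h)
  unfold sg
  rw [sum_insert ha, sum_insert ha, if_neg h1, if_pos (mem_insert_self _ _)]
  refine ⟨by ring, ?_⟩
  rw [add_comm, one_mul]
  congr 1
  refine sum_congr rfl fun b hb => ?_
  have h2 : b ∈ insert a B ↔ b ∈ B := by
    rw [mem_insert]
    constructor
    · rintro (h | h)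
      · exact absurd hb (h ▸ ha)
      · exact h
    · exact Or.inr
  by_cases h3 : b ∈ B
  · rw [if_pos h3, if_pos (h2.2 h3)]
  · rw [if_neg h3, if_neg fun h => h3 (h2.1 h)]

theorem moments {ι : Type*} [DecidableEq ι] (I : Finset ι) (c : ι → ℝ) :
    ∑ B ∈ I.powerset, sg I c B ^ 2 = 2 ^ I.card * ∑ b ∈ I, c b ^ 2 ∧
    ∑ B ∈ I.powerset, sg I c B ^ 4 ≤ 3 * 2 ^ I.card * (∑ b ∈ I, c b ^ 2) ^ 2 := by
  induction I using Finset.induction_on with
  | empty => simp [sg]
  | insert a I ha ih =>
    obtain ⟨ih2, ih4⟩ := ih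
    have e : ∀ p : ℕ, ∑ B ∈ (insert a I).powerset, sg (insert a I) c B ^ p =
        ∑ B ∈ I.powerset, ((sg I c B - c a) ^ p + (sg I c B + c a) ^ p) := by
      intro p
      rw [sum_powerset_insert ha, sum_add_distrib]
      congr 1
      · exact sum_congr rfl fun B hB => by rw [(sg_insert ha c hB).1]
      · exact sum_congr rfl fun B hB => by rw [(sg_insert ha c hB).2]
    have hcard : (∑ B ∈ I.powerset, (1 : ℝ)) = 2 ^ I.card := by
      rw [sum_const, card_powerset, nsmul_eq_mul, mul_one]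
      push_cast
      rfl
    rw [e, e, card_insert_of_notMem ha, sum_insert ha]
    set q := ∑ b ∈ I, c b ^ 2 with hq
    have hq0 : 0 ≤ q := sum_nonneg fun b _ => sq_nonneg _
    constructor
    · have e1 : ∑ B ∈ I.powerset, ((sg I c B - c a) ^ 2 + (sg I c B + c a) ^ 2) =
          2 * ∑ B ∈ I.powerset, sg I c B ^ 2 + 2 * c a ^ 2 * ∑ B ∈ I.powerset, (1 : ℝ) := by
        rw [mul_sum, mul_sum, ← sum_add_distrib]
        exact sum_congr rfl fun B _ => by ring
      rw [e1, ih2, hcard, pow_succ]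
      ring
    · have e1 : ∑ B ∈ I.powerset, ((sg I c B - c a) ^ 4 + (sg I c B + c a) ^ 4) =
          2 * ∑ B ∈ I.powerset, sg I c B ^ 4 + 12 * c a ^ 2 * ∑ B ∈ I.powerset, sg I c B ^ 2 +
            2 * c a ^ 4 * ∑ B ∈ I.powerset, (1 : ℝ) := by
        rw [mul_sum, mul_sum, mul_sum, ← sum_add_distrib, ← sum_add_distrib]
        exact sum_congr rfl fun B _ => by ring
      have e2 : (2 : ℝ) ^ (I.card + 1) = 2 ^ I.card * 2 := pow_succ _ _
      rw [e1, ih2, hcard, e2]
      have h1 : (0 : ℝ) < 2 ^ I.card := by positivity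
      have h2 : 0 ≤ 2 ^ I.card * c a ^ 4 := by positivity
      nlinarith

/-- the first absolute moment -/
theorem khinchine {ι : Type*} [DecidableEq ι] (I : Finset ι) (c : ι → ℝ) :
    5 / 9 * 2 ^ I.card * Real.sqrt (∑ b ∈ I, c b ^ 2) ≤ ∑ B ∈ I.powerset, |sg I c B| := by
  obtain ⟨h2, h4⟩ := moments I c
  set q := ∑ b ∈ I, c b ^ 2 with hq
  have hq0 : 0 ≤ q := sum_nonneg fun b _ => sq_nonneg _
  set σ := Real.sqrt q with hσ
  have hσ0 : 0 ≤ σ := Real.sqrt_nonneg _
  have hσ2 : σ ^ 2 = q := Real.sq_sqrt hq0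
  rcases hσ0.eq_or_lt with h0 | h0
  · rw [← h0, mul_zero]
    exact sum_nonneg fun B _ => abs_nonneg _
  have h3 : σ ^ 2 * ∑ B ∈ I.powerset, sg I c B ^ 2 - 4 / 27 * ∑ B ∈ I.powerset, sg I c B ^ 4 ≤
      σ ^ 3 * ∑ B ∈ I.powerset, |sg I c B| := by
    rw [mul_sum, mul_sum, mul_sum, ← sum_sub_distrib]
    refine sum_le_sum fun B _ => ?_
    set x := sg I c B with hx
    have ht : 0 ≤ |x| := abs_nonneg x
    have e1 : x ^ 2 = |x| ^ 2 := (sq_abs x).symm
    have e2 : x ^ 4 = |x| ^ 4 := by
      have : x ^ 4 = (x ^ 2) ^ 2 := by ring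
      rw [this, e1]
      ring
    rw [e1, e2]
    have h5 : 0 ≤ 4 / 27 * |x| * ((|x| - 3 / 2 * σ) ^ 2 * (|x| + 3 * σ)) := by positivity
    nlinarith
  rw [h2, ← hσ2] at h3
  have h5 : σ ^ 2 * (2 ^ I.card * σ ^ 2) - 4 / 27 * (3 * 2 ^ I.card * (σ ^ 2) ^ 2) ≤
      σ ^ 3 * ∑ B ∈ I.powerset, |sg I c B| := by
    rw [← hσ2] at h4
    linarith
  have h6 : σ ^ 3 * (5 / 9 * 2 ^ I.card * σ) ≤ σ ^ 3 * ∑ B ∈ I.powerset, |sg I c B| := by
    refine le_trans (le_of_eq ?_) h5
    ring
  exact le_of_mul_le_mul_left h6 (by positivity)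

/-! ### Weak orders with three classes -/

/-- the weak order of a ranking -/
def wkO {n : ℕ} (f : Fin n → ℕ) : Rel n := univ.filter fun e => f e.1 < f e.2

theorem wkO_weak {n : ℕ} (f : Fin n → ℕ) : IsWeak (wkO f) := by
  have h : ∀ a b, (a, b) ∈ wkO f ↔ f a < f b := fun a b => by simp [wkO]
  refine ⟨⟨fun a h1 => ?_, fun a b c h1 h2 => ?_⟩, fun a b c h1 h2 h3 h4 => ?_⟩
  · exact lt_irrefl _ ((h a a).1 h1)
  · exact (h a c).2 (((h a b).1 h1).trans ((h b c).1 h2))
  · rw [h] at h1 h2 h3 h4 ⊢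
    rw [h]
    omega

/-- the bilinear form -/
def bf {n : ℕ} (w : Fin n → Fin n → ℝ) (x y : Fin n → ℝ) : ℝ := ∑ a, ∑ b, x a * y b * w a b

theorem bf_anti {n : ℕ} {w : Fin n → Fin n → ℝ} (hw : ∀ a b, w b a = - w a b) (x y : Fin n → ℝ) :
    bf w x y = - bf w y x := by
  unfold bf
  rw [sum_comm, ← sum_neg_distrib]
  refine sum_congr rfl fun b _ => ?_
  rw [← sum_neg_distrib]
  refine sum_congr rfl fun a _ => ?_
  rw [hw b a]
  ring

theorem three_classes {n : ℕ} {w : Fin n → Fin n → ℝ} (hw : ∀ a b, w b a = - w a b) {G : ℝ}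
    (hG : ∀ s : Rel n, IsWeak s → ∑ e ∈ s, w e.1 e.2 ≤ G) (B : Finset (Fin n)) :
    ∑ a, (if a ∈ B then 0 else |∑ b ∈ B, w a b|) ≤ 4 * G := by
  classical
  let D : Fin n → ℝ := fun a => ∑ b ∈ B, w a b
  let p : Fin n → ℝ := fun a => if a ∈ B then 0 else if 0 ≤ D a then 1 else 0
  let q : Fin n → ℝ := fun a => if a ∈ B then 1 else 0
  let r : Fin n → ℝ := fun a => if a ∈ B then 0 else if 0 ≤ D a then 0 else 1
  have gain : ∀ f : Fin n → ℕ, ∑ e ∈ wkO f, w e.1 e.2 =
      ∑ a, ∑ b, (if f a < f b then 1 else 0) * w a b := by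
    intro f
    rw [wkO, sum_filter, Fintype.sum_prod_type]
    refine sum_congr rfl fun a _ => sum_congr rfl fun b _ => ?_
    split_ifs <;> simp
  have g1 := hG _ (wkO_weak fun a => if a ∈ B then 1 else if 0 ≤ D a then 0 else 2)
  have g2 := hG _ (wkO_weak fun a => if a ∈ B then 0 else if 0 ≤ D a then 1 else 0)
  have g3 := hG _ (wkO_weak fun a => if a ∈ B then 1 else if 0 ≤ D a then 1 else 0)
  rw [gain] at g1 g2 g3
  have e1 : ∑ a, ∑ b, (if (if a ∈ B then 1 else if 0 ≤ D a then 0 else 2) <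
      (if b ∈ B then 1 else if 0 ≤ D b then 0 else 2) then 1 else 0) * w a b =
      bf w p q + bf w p r + bf w q r := by
    unfold bf
    rw [← sum_add_distrib, ← sum_add_distrib]
    refine sum_congr rfl fun a _ => ?_
    rw [← sum_add_distrib, ← sum_add_distrib]
    refine sum_congr rfl fun b _ => ?_
    simp only [p, q, r]
    split_ifs <;> first | (exfalso; omega) | norm_num
  have e2 : ∑ a, ∑ b, (if (if a ∈ B then 0 else if 0 ≤ D a then 1 else 0) <
      (if b ∈ B then 0 else if 0 ≤ D b then 1 else 0) then 1 else 0) * w a b =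
      bf w q p + bf w r p := by
    unfold bf
    rw [← sum_add_distrib]
    refine sum_congr rfl fun a _ => ?_
    rw [← sum_add_distrib]
    refine sum_congr rfl fun b _ => ?_
    simp only [p, q, r]
    split_ifs <;> first | (exfalso; omega) | norm_num
  have e3 : ∑ a, ∑ b, (if (if a ∈ B then 1 else if 0 ≤ D a then 1 else 0) <
      (if b ∈ B then 1 else if 0 ≤ D b then 1 else 0) then 1 else 0) * w a b =
      bf w r p + bf w r q := by
    unfold bf
    rw [← sum_add_distrib]
    refine sum_congr rfl fun a _ => ?_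
    rw [← sum_add_distrib]
    refine sum_congr rfl fun b _ => ?_
    simp only [p, q, r]
    split_ifs <;> first | (exfalso; omega) | norm_num
  have g1' : bf w p q + bf w p r + bf w q r ≤ G := by
    rw [← e1]
    exact g1
  have g2' : bf w q p + bf w r p ≤ G := by
    rw [← e2]
    exact g2
  have g3' : bf w r p + bf w r q ≤ G := by
    rw [← e3]
    exact g3
  rw [bf_anti hw q p, bf_anti hw r p] at g2'
  rw [bf_anti hw r p, bf_anti hw r q] at g3'
  have e4 : bf w p q = ∑ a, p a * D a := by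
    unfold bf
    refine sum_congr rfl fun a _ => ?_
    show _ = p a * ∑ b ∈ B, w a b
    rw [mul_sum, ← sum_filter_add_sum_filter_not univ (fun b => b ∈ B)]
    have h1 : ∑ b ∈ univ.filter (fun b => ¬ b ∈ B), p a * q b * w a b = 0 := by
      refine sum_eq_zero fun b hb => ?_
      have : q b = 0 := if_neg (mem_filter.1 hb).2
      rw [this]
      ring
    rw [h1, add_zero]
    have h2 : univ.filter (fun b => b ∈ B) = B := by
      ext b
      simp
    rw [h2]
    refine sum_congr rfl fun b hb => ?_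
    have : q b = 1 := if_pos hb
    rw [this]
    ring
  have e5 : bf w r q = ∑ a, r a * D a := by
    unfold bf
    refine sum_congr rfl fun a _ => ?_
    show _ = r a * ∑ b ∈ B, w a b
    rw [mul_sum, ← sum_filter_add_sum_filter_not univ (fun b => b ∈ B)]
    have h1 : ∑ b ∈ univ.filter (fun b => ¬ b ∈ B), r a * q b * w a b = 0 := by
      refine sum_eq_zero fun b hb => ?_
      have : q b = 0 := if_neg (mem_filter.1 hb).2
      rw [this]
      ring
    rw [h1, add_zero]
    have h2 : univ.filter (fun b => b ∈ B) = B := by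
      ext b
      simp
    rw [h2]
    refine sum_congr rfl fun b hb => ?_
    have : q b = 1 := if_pos hb
    rw [this]
    ring
  have e6 : ∑ a, (if a ∈ B then 0 else |∑ b ∈ B, w a b|) = bf w p q - bf w r q := by
    rw [e4, e5, ← sum_sub_distrib]
    refine sum_congr rfl fun a _ => ?_
    show (if a ∈ B then 0 else |D a|) = (if a ∈ B then 0 else if 0 ≤ D a then 1 else 0) * D a -
      (if a ∈ B then 0 else if 0 ≤ D a then 0 else 1) * D a
    by_cases h1 : a ∈ B
    · rw [if_pos h1, if_pos h1, if_pos h1]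
      ring
    · rw [if_neg h1, if_neg h1, if_neg h1]
      by_cases h2 : 0 ≤ D a
      · rw [if_pos h2, if_pos h2, abs_of_nonneg h2]
        ring
      · rw [if_neg h2, if_neg h2, abs_of_neg (not_le.1 h2)]
        ring
  rw [e6]
  have e7 := bf_anti hw q r
  linarith

/-- **The gain of weak orders.** -/
theorem gain_lower {n : ℕ} {w : Fin n → Fin n → ℝ} (hw : ∀ a b, w b a = - w a b) {G : ℝ}
    (hG : ∀ s : Rel n, IsWeak s → ∑ e ∈ s, w e.1 e.2 ≤ G) :
    5 / 144 * ∑ a, Real.sqrt (∑ b, w a b ^ 2) ≤ G := by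
  classical
  have hdiag : ∀ a, w a a = 0 := fun a => by have := hw a a; linarith
  have h1 : ∑ B : Finset (Fin n), ∑ a, (if a ∈ B then 0 else |∑ b ∈ B, w a b|) ≤ 2 ^ n * (4 * G) := by
    refine (sum_le_sum fun B _ => three_classes hw hG B).trans (le_of_eq ?_)
    rw [sum_const, card_univ, Fintype.card_finset, Fintype.card_fin, nsmul_eq_mul]
    push_cast
    rfl
  rw [sum_comm] at h1
  have h2 : ∀ a : Fin n, 5 / 36 * 2 ^ n * Real.sqrt (∑ b, w a b ^ 2) ≤
      ∑ B : Finset (Fin n), (if a ∈ B then 0 else |∑ b ∈ B, w a b|) := by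
    intro a
    -- the sets with and without `a`
    have h3 : ∑ B : Finset (Fin n), (if a ∈ B then |∑ b ∈ B, w a b| else 0) =
        ∑ B : Finset (Fin n), (if a ∈ B then 0 else |∑ b ∈ B, w a b|) := by
      have e1 : ∑ B : Finset (Fin n), (if a ∈ B then |∑ b ∈ B, w a b| else 0) =
          ∑ B ∈ (univ : Finset (Finset (Fin n))).filter (fun B => a ∈ B), |∑ b ∈ B, w a b| := by
        rw [sum_filter]
      have e2 : ∑ B : Finset (Fin n), (if a ∈ B then 0 else |∑ b ∈ B, w a b|) =
          ∑ B ∈ (univ : Finset (Finset (Fin n))).filter (fun B => a ∉ B), |∑ b ∈ B, w a b| := by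
        rw [sum_filter]
        refine sum_congr rfl fun B _ => ?_
        by_cases h : a ∈ B
        · rw [if_pos h, if_neg (not_not.2 h)]
        · rw [if_neg h, if_pos h]
      rw [e1, e2]
      refine sum_nbij' (fun B => B.erase a) (fun B => insert a B) ?_ ?_ ?_ ?_ ?_
      · intro B _
        exact mem_filter.2 ⟨mem_univ _, notMem_erase _ _⟩
      · intro B _
        exact mem_filter.2 ⟨mem_univ _, mem_insert_self _ _⟩
      · intro B hB
        exact insert_erase (mem_filter.1 hB).2
      · intro B hB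
        exact erase_insert (mem_filter.1 hB).2
      · intro B hB
        rw [← add_sum_erase _ _ (mem_filter.1 hB).2, hdiag, zero_add]
    have h4 : ∑ B : Finset (Fin n), |∑ b ∈ B, w a b| =
        2 * ∑ B : Finset (Fin n), (if a ∈ B then 0 else |∑ b ∈ B, w a b|) := by
      rw [two_mul]
      nth_rewrite 1 [← h3]
      rw [← sum_add_distrib]
      refine sum_congr rfl fun B _ => ?_
      split_ifs <;> simp
    -- the random sum
    set R := ∑ b, w a b with hR
    have h5 : ∀ B : Finset (Fin n), ∑ b ∈ B, w a b = (R + sg univ (fun b => w a b) B) / 2 := by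
      intro B
      unfold sg
      rw [hR, ← sum_add_distrib, sum_div]
      have e1 : ∑ b ∈ B, w a b = ∑ b, if b ∈ B then w a b else 0 := by
        rw [sum_ite_mem, univ_inter]
      rw [e1]
      refine sum_congr rfl fun b _ => ?_
      split_ifs <;> ring
    have h6 : ∀ B : Finset (Fin n), sg univ (fun b => w a b) Bᶜ = - sg univ (fun b => w a b) B := by
      intro B
      unfold sg
      rw [← sum_neg_distrib]
      refine sum_congr rfl fun b _ => ?_
      by_cases h : b ∈ B
      · rw [if_pos h, if_neg (by rw [mem_compl]; exact not_not.2 h)]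
        ring
      · rw [if_neg h, if_pos (mem_compl.2 h)]
        ring
    have h7 : ∑ B : Finset (Fin n), |R + sg univ (fun b => w a b) B| =
        ∑ B : Finset (Fin n), |R - sg univ (fun b => w a b) B| := by
      refine sum_nbij' (fun B => Bᶜ) (fun B => Bᶜ) (fun _ _ => mem_univ _) (fun _ _ => mem_univ _)
        (fun B _ => compl_compl B) (fun B _ => compl_compl B) fun B _ => ?_
      rw [h6, sub_neg_eq_add]
    have h8 : ∑ B : Finset (Fin n), |sg univ (fun b => w a b) B| ≤
        ∑ B : Finset (Fin n), |R + sg univ (fun b => w a b) B| := by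
      have e1 : 2 * ∑ B : Finset (Fin n), |sg univ (fun b => w a b) B| ≤
          2 * ∑ B : Finset (Fin n), |R + sg univ (fun b => w a b) B| := by
        have e2 : 2 * ∑ B : Finset (Fin n), |R + sg univ (fun b => w a b) B| =
            ∑ B : Finset (Fin n), (|R + sg univ (fun b => w a b) B| +
              |R - sg univ (fun b => w a b) B|) := by
          rw [sum_add_distrib, ← h7, two_mul]
        rw [e2, mul_sum]
        refine sum_le_sum fun B _ => ?_
        set x := sg univ (fun b => w a b) B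
        have e3 : 2 * |x| = |(R + x) - (R - x)| := by
          have : (R + x) - (R - x) = 2 * x := by ring
          rw [this, abs_mul, abs_of_pos (by norm_num : (0 : ℝ) < 2)]
        rw [e3]
        exact abs_sub _ _
      linarith
    have h9 := khinchine (univ : Finset (Fin n)) (fun b => w a b)
    rw [powerset_univ, card_univ, Fintype.card_fin] at h9
    have h10 : ∑ B : Finset (Fin n), |∑ b ∈ B, w a b| =
        (∑ B : Finset (Fin n), |R + sg univ (fun b => w a b) B|) / 2 := by
      rw [sum_div]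
      refine sum_congr rfl fun B _ => ?_
      rw [h5 B, abs_div, abs_of_pos (by norm_num : (0 : ℝ) < 2)]
    rw [h10] at h4
    linarith
  have h3 := sum_le_sum fun a (_ : a ∈ (univ : Finset (Fin n))) => h2 a
  rw [← mul_sum] at h3
  have h4 : (0 : ℝ) < 2 ^ n := by positivity
  have h5 : 2 ^ n * (5 / 36 * ∑ a, Real.sqrt (∑ b, w a b ^ 2)) ≤ 2 ^ n * (4 * G) := by
    linarith
  have h6 := le_of_mul_le_mul_left h5 h4
  linarith

end Pool.Agent.Helper20.Disp
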