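import Pool.Agent.Helper20.Disp.Part3
import Pool.Agent.Helper20.Disp.Chain
import Pool.Agent.Helper20.Disp.Low

/-!
Maximum dispersal: the asymptotic lower bounds.
-/

set_option autoImplicit false

namespace Pool.Agent.Helper20.Disp

open Finset

theorem Tb_eq {m v : ℕ} {B : Fin v → Rel m} {A : Finset (Fin m × Fin m)}
    (hB : ∀ a b, a ≠ b → 2 * (wt B (a, b) : ℤ) - v = Ta A a b) (a b : Fin m) :
    Tb B a b = Td A (a, b) := by
  unfold Tb Td
  by_cases h : a = b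
  · subst h
    rw [if_pos rfl, dif_neg fun h => h.2.2 rfl]
  · rw [if_neg h, dif_pos ⟨a.2, b.2, fun h' => h (Fin.ext h')⟩]
    exact hB a b h

theorem Tb_le {m v : ℕ} {B : Fin v → Rel m} {A : Finset (Fin m × Fin m)}
    (hB : ∀ a b, a ≠ b → 2 * (wt B (a, b) : ℤ) - v = Ta A a b) (a b : ℕ) : |Tb B a b| ≤ 1 := by
  by_cases h : a < m ∧ b < m
  · have h1 := Tb_eq hB ⟨a, h.1⟩ ⟨b, h.2⟩
    have h2 : Tb B a b = Td A (⟨a, h.1⟩, ⟨b, h.2⟩) := h1
    rw [h2]
    unfold Td Ta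
    split_ifs <;> norm_num
  · unfold Tb
    rw [dif_neg fun h' => h ⟨h'.1, h'.2.1⟩]
    norm_num

open Classical in
/-- the restriction of a relation on the numbers -/
noncomputable def restr (m : ℕ) (s : ℕ → ℕ → Prop) : Rel m := univ.filter fun e => s e.1 e.2

theorem mem_restr {m : ℕ} {s : ℕ → ℕ → Prop} {a b : Fin m} : (a, b) ∈ restr m s ↔ s a b := by
  classical
  simp [restr]

/-- the lower bound from a base tournament -/
theorem lower {C : (ℕ → ℕ → Prop) → Prop} (hC : Cls C) {m : ℕ} (hm : 2 ≤ m)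
    {A : Finset (Fin m × Fin m)} (hA : ∀ e ∈ A, e.1 < e.2) {γ : ℝ} (hγ : 0 ≤ γ)
    (hbase : ∀ s, C s → ((∑ e ∈ restr m s, Td A e : ℤ) : ℝ) ≤ γ * m.choose 2)
    {n : ℕ} {R : Rel n → Prop} (hR : Good R) (hRC : ∀ s, R s → C (toNat s)) {k : ℕ}
    (hn : n ≤ m ^ k) {v : ℕ} (hv : Odd v) (hmv : 2 * m + 1 ≤ v) :
    ((v : ℝ) - γ) * n.choose 2 - 2 * m * n * k ≤ F R v := by
  classical
  obtain ⟨v₀, hv₀, B, hB, hT⟩ : ∃ v₀, v₀ = 2 * m + 1 ∧ ∃ B : Fin v₀ → Rel m,
    (∀ i, IsLin (B i)) ∧ ∀ a b, a ≠ b → 2 * (wt B (a, b) : ℤ) - v₀ = Ta A a b :=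
    ⟨_, rfl, mcgarvey A hA⟩
  have hbase' : ∀ s : ℕ → ℕ → Prop, C s → ∀ [DecidableRel s],
      ((∑ a ∈ range m, ∑ b ∈ range m, if s a b then Tb B a b else 0 : ℤ) : ℝ) ≤ γ * m.choose 2 := by
    intro s hs _
    refine le_trans (le_of_eq ?_) (hbase s hs)
    congr 1
    have h1 : ∑ e ∈ restr m s, Td A e = ∑ e : Fin m × Fin m, if e ∈ restr m s then Td A e else 0 := by
      rw [sum_ite_mem, univ_inter]
    rw [h1, Fintype.sum_prod_type, Finset.sum_range]
    refine sum_congr rfl fun a _ => ?_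
    rw [Finset.sum_range]
    refine sum_congr rfl fun b _ => ?_
    rw [Tb_eq hT a b]
    by_cases h2 : s a b
    · rw [if_pos h2, if_pos (mem_restr.2 h2)]
    · rw [if_neg h2, if_neg fun h3 => h2 (mem_restr.1 h3)]
  have key : ∀ s, R s → ((v₀ : ℝ) - γ) * n.choose 2 - 2 * m * n * k ≤
      (rem (fun i => blow n k (B i)) s : ℝ) := by
    intro s hs
    have h1 := rem_blow (by omega) hn hB (hR.po s hs)
    have h2 := Gn_le hC hm (Tb_le hT) hγ hbase' k n (hRC s hs)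
    have h3 : (rem (fun i => blow n k (B i)) s : ℝ) =
        v₀ * n.choose 2 - (Gn m (Tb B) k n (toNat s) : ℝ) := by
      have := congrArg (Int.cast : ℤ → ℝ) h1
      push_cast at this
      exact this
    rw [h3]
    linarith
  have h1 : ⌈((v₀ : ℝ) - γ) * n.choose 2 - 2 * m * n * k⌉₊ ≤ F R v₀ :=
    le_F hR.empty (fun i => blow n k (B i)) (fun i => hR.lin _ (blow_lin (by omega) hn (hB i)))
      fun s hs => Nat.ceil_le.2 (key s hs)
  have h2 : ((v₀ : ℝ) - γ) * n.choose 2 - 2 * m * n * k ≤ F R v₀ :=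
    (Nat.le_ceil _).trans (by exact_mod_cast h1)
  obtain ⟨j, hj⟩ : ∃ j, v = v₀ + 2 * j := by
    obtain ⟨a, ha⟩ := hv
    exact ⟨a - m, by omega⟩
  have h3 := F_add_even hR v₀ j
  rw [← hj] at h3
  have h4 : (F R v₀ : ℝ) + 2 * j * n.choose 2 ≤ F R v := by exact_mod_cast h3
  have h5 : (v : ℝ) = v₀ + 2 * j := by exact_mod_cast hj
  rw [h5]
  linarith

/-- the error is small -/
theorem err_small (m : ℕ) (hm : 2 ≤ m) {ε : ℝ} (hε : 0 < ε) : ∃ n₀ : ℕ, ∀ n, n₀ ≤ n →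
    ∃ k : ℕ, n ≤ m ^ k ∧ 2 * (m : ℝ) * n * k ≤ ε * n.choose 2 := by
  have hm0 : (0 : ℝ) < m := by
    have : 0 < m := by omega
    exact_mod_cast this
  obtain ⟨x₀, hx₀⟩ := log_small (c := ε / (16 * m)) (by positivity)
  obtain ⟨n₀, hn₀⟩ := exists_nat_ge (max x₀ (8 * m / ε + 2))
  refine ⟨n₀, fun n hn => ⟨Nat.clog m n, Nat.le_pow_clog (by omega) n, ?_⟩⟩
  have hn' : (n₀ : ℝ) ≤ n := by exact_mod_cast hn
  have h1 : x₀ ≤ n := (le_max_left _ _).trans (hn₀.trans hn')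
  have h2 : 8 * m / ε + 2 ≤ n := (le_max_right _ _).trans (hn₀.trans hn')
  have h3 : (2 : ℝ) ≤ n := by
    have : 0 < 8 * m / ε := by positivity
    linarith
  have h3' : 2 ≤ n := by exact_mod_cast h3
  have h4 := hx₀ n h1
  have h5 : (Nat.clog m n : ℝ) ≤ 2 * Real.log n + 1 := by
    have h6 : m ^ (Nat.clog m n).pred < n := Nat.pow_pred_clog_lt_self (by omega) (by omega)
    have h7 : 2 ^ (Nat.clog m n).pred < n := (Nat.pow_le_pow_left hm _).trans_lt h6
    have h8 : ((2 : ℝ)) ^ (Nat.clog m n).pred ≤ n := by exact_mod_cast h7.le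
    have h9 := Real.log_le_log (by positivity) h8
    rw [Real.log_pow] at h9
    have h10 := Real.log_two_gt_d9
    have h11 : (Nat.clog m n : ℝ) ≤ ((Nat.clog m n).pred : ℝ) + 1 := by
      have : Nat.clog m n ≤ (Nat.clog m n).pred + 1 := by
        rw [Nat.pred_eq_sub_one]
        omega
      exact_mod_cast this
    have h12 : (0 : ℝ) ≤ ((Nat.clog m n).pred : ℝ) := by positivity
    nlinarith
  rw [Nat.cast_choose_two]
  have h6 : 8 * m + 2 * ε ≤ ε * n := by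
    have h7 := mul_le_mul_of_nonneg_left h2 hε.le
    rw [mul_add, mul_div_cancel₀ _ hε.ne'] at h7
    linarith
  have h7 : 16 * m * Real.log n ≤ ε * n := by
    have h8 := mul_le_mul_of_nonneg_left h4 (by positivity : (0 : ℝ) ≤ 16 * m)
    refine h8.trans (le_of_eq ?_)
    field_simp
  have h8 : 4 * m * (Nat.clog m n : ℝ) ≤ ε * (n - 1) := by
    have h9 := mul_le_mul_of_nonneg_left h5 (by positivity : (0 : ℝ) ≤ 4 * m)
    linarith
  have h9 := mul_le_mul_of_nonneg_left h8 (by positivity : (0 : ℝ) ≤ n)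
  linarith

theorem asymp {C : (ℕ → ℕ → Prop) → Prop} (hC : Cls C) {m : ℕ} (hm : 2 ≤ m)
    {A : Finset (Fin m × Fin m)} (hA : ∀ e ∈ A, e.1 < e.2) {γ : ℝ} (hγ : 0 ≤ γ)
    (hbase : ∀ s, C s → ((∑ e ∈ restr m s, Td A e : ℤ) : ℝ) ≤ γ * m.choose 2) {ε : ℝ}
    (hε : 0 < ε) :
    ∃ v₀ n₀ : ℕ, ∀ n, n₀ ≤ n → ∀ R : Rel n → Prop, Good R → (∀ s, R s → C (toNat s)) →
      ∀ v, v₀ ≤ v → ((v : ℝ) - (γ + ε)) * n.choose 2 ≤ F R v := by
  obtain ⟨n₀, hn₀⟩ := err_small m hm hε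
  refine ⟨2 * m + 1, n₀, fun n hn R hR hRC v hv => ?_⟩
  obtain ⟨k, hk, herr⟩ := hn₀ n hn
  have hc : (0 : ℝ) ≤ n.choose 2 := by positivity
  rcases Nat.even_or_odd v with h2 | h2
  · rw [F_even hR h2]
    push_cast
    nlinarith
  · have h1 := lower hC hm hA hγ hbase hR hRC hk h2 hv
    nlinarith

theorem restr_po {m : ℕ} {s : ℕ → ℕ → Prop} (h : PoN s) : IsPO (restr m s) :=
  ⟨fun _ h1 => h.irrefl _ (mem_restr.1 h1), fun _ _ _ h1 h2 =>
    mem_restr.2 (h.trans _ _ _ (mem_restr.1 h1) (mem_restr.1 h2))⟩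

theorem restr_int {m : ℕ} {s : ℕ → ℕ → Prop} (h : IntN s) : IsInterval (restr m s) :=
  ⟨restr_po ⟨h.irrefl, h.trans⟩, fun _ _ _ _ h1 h2 => by
    rcases h.int _ _ _ _ (mem_restr.1 h1) (mem_restr.1 h2) with h3 | h3
    · exact Or.inl (mem_restr.2 h3)
    · exact Or.inr (mem_restr.2 h3)⟩

theorem toNat_po {n : ℕ} {s : Rel n} (hs : IsPO s) : PoN (toNat s) :=
  ⟨(toNat_strict hs).1, (toNat_strict hs).2⟩

theorem toNat_int {n : ℕ} {s : Rel n} (hs : IsInterval s) : IntN (toNat s) := by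
  refine ⟨(toNat_strict hs.1).1, (toNat_strict hs.1).2, ?_⟩
  rintro a b c d ⟨ha, hb, h1⟩ ⟨hc, hd, h2⟩
  rcases hs.2 _ _ _ _ h1 h2 with h3 | h3
  · exact Or.inl ⟨ha, hd, h3⟩
  · exact Or.inr ⟨hc, hb, h3⟩

theorem interval_tournament {ε : ℝ} (hε : 0 < ε) : ∃ m : ℕ, 2 ≤ m ∧
    ∃ A : Finset (Fin m × Fin m), (∀ e ∈ A, e.1 < e.2) ∧
      ∀ w : Rel m, IsInterval w → ((∑ e ∈ w, Td A e : ℤ) : ℝ) ≤ ε * m.choose 2 := by
  obtain ⟨m, hm⟩ := exists_nat_ge (max 2 ((120 / ε) ^ 2))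
  have hm2 : (2 : ℝ) ≤ m := (le_max_left _ _).trans hm
  have hm2' : 2 ≤ m := by exact_mod_cast hm2
  obtain ⟨A, hA, h⟩ := chain_tournament (m := m) (by omega)
  refine ⟨m, hm2', A, hA, fun w hw => (h w hw).trans ?_⟩
  rw [Nat.cast_choose_two]
  have h1 : 120 / ε ≤ Real.sqrt m := Real.le_sqrt_of_sq_le ((le_max_right _ _).trans hm)
  rw [div_le_iff₀ hε] at h1
  have h2 : Real.sqrt m * Real.sqrt m = m := Real.mul_self_sqrt (by positivity)
  have h3 : 0 ≤ Real.sqrt m := Real.sqrt_nonneg _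
  have h4 : 60 * Real.sqrt m ≤ ε * (m - 1) := by
    have h5 : 120 * Real.sqrt m ≤ ε * m := by
      calc 120 * Real.sqrt m ≤ Real.sqrt m * ε * Real.sqrt m := mul_le_mul_of_nonneg_right h1 h3
        _ = ε * (Real.sqrt m * Real.sqrt m) := by ring
        _ = ε * m := by rw [h2]
    nlinarith
  have h5 : (0 : ℝ) ≤ m := by positivity
  have h6 := mul_le_mul_of_nonneg_left h4 h5
  linarith

/-- **Weak orders, semiorders and interval orders: many voters.** -/
theorem interval_asymp {ε : ℝ} (hε : 0 < ε) : ∃ v₀ n₀ : ℕ, ∀ n, n₀ ≤ n → ∀ R : Rel n → Prop,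
    Good R → (∀ s, R s → IsInterval s) → ∀ v, v₀ ≤ v → ((v : ℝ) - ε) * n.choose 2 ≤ F R v := by
  obtain ⟨m, hm, A, hA, h⟩ := interval_tournament (ε := ε / 2) (by positivity)
  obtain ⟨v₀, n₀, h1⟩ := asymp cls_int hm hA (by positivity : 0 ≤ ε / 2)
    (fun s hs => h _ (restr_int hs)) (ε := ε / 2) (by positivity)
  refine ⟨v₀, n₀, fun n hn R hR hRI v hv => ?_⟩
  have h2 := h1 n hn R hR (fun s hs => toNat_int (hRI s hs)) v hv
  rwa [add_halves] at h2

/-- **Partial orders: many voters.** -/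
theorem partial_asymp {ε : ℝ} (hε : 0 < ε) : ∃ v₀ n₀ : ℕ, ∀ n, n₀ ≤ n → ∀ v, v₀ ≤ v →
    ((v : ℝ) - 1 / 4 - ε) * n.choose 2 ≤ F (IsPO (n := n)) v := by
  obtain ⟨m, hm, A, hA, h⟩ := po_tournament (κ := ε / 2) (by positivity)
  obtain ⟨v₀, n₀, h1⟩ := asymp cls_po hm hA (by positivity : 0 ≤ 1 / 4 + ε / 2)
    (fun s hs => h _ (restr_po hs)) (ε := ε / 2) (by positivity)
  refine ⟨v₀, n₀, fun n hn v hv => ?_⟩
  have h2 := h1 n hn (IsPO (n := n)) good_po (fun s hs => toNat_po hs) v hv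
  have h3 : (v : ℝ) - (1 / 4 + ε / 2 + ε / 2) = v - 1 / 4 - ε := by ring
  rwa [h3] at h2

theorem weak_interval {n : ℕ} {s : Rel n} (h : IsWeak s) : IsInterval s := by
  refine ⟨h.1, fun a b c d h1 h2 => ?_⟩
  by_contra hcon
  rw [not_or] at hcon
  obtain ⟨h3, h4⟩ := hcon
  have h5 : (a, c) ∉ s := fun h6 => h3 (h.1.2 a c d h6 h2)
  have h6 : (c, a) ∉ s := fun h7 => h4 (h.1.2 c a b h7 h1)
  have h7 : (d, a) ∉ s := fun h8 => h6 (h.1.2 c d a h2 h8)
  exact (h.2 c a d h6 h5 h3 h7).1 h2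

theorem weak_semi {n : ℕ} {s : Rel n} (h : IsWeak s) : IsSemi s := by
  refine ⟨weak_interval h, fun a b c h1 h2 d => ?_⟩
  by_contra hcon
  rw [not_or] at hcon
  obtain ⟨h3, h4⟩ := hcon
  have h5 := h.1.2 a b c h1 h2
  have h6 : (d, a) ∉ s := fun h7 => h4 (h.1.2 d a c h7 h5)
  have h7 : (c, d) ∉ s := fun h8 => h3 (h.1.2 a c d h5 h8)
  exact (h.2 a d c h3 h6 h4 h7).1 h5

/-- **Every profile of an odd number of orders leaves a gain of the order `n ^ (3 / 2)`.** -/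
theorem F_deficiency {n : ℕ} {R : Rel n → Prop} (hR : Good R) (hW : ∀ s, IsWeak s → R s) {v : ℕ}
    (hv : Odd v) (hn : 2 ≤ n) :
    (n : ℝ) * Real.sqrt n ≤ 62 * (v * n.choose 2 - F R v) := by
  classical
  obtain ⟨π, hπ, h⟩ := exists_profile hR.empty v
  have hpo : ∀ i, IsPO (π i) := fun i => hR.po _ (hπ i)
  set G : ℝ := v * n.choose 2 - F R v with hG
  let t : Fin n × Fin n → ℝ := fun e => v - wt π e - wt π e.swap
  let w : Fin n → Fin n → ℝ := fun a b => (wt π (a, b) : ℝ) - wt π (b, a)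
  have ht0 : ∀ e, 0 ≤ t e := by
    intro e
    have h1 : ((wt π e + wt π e.swap : ℕ) : ℝ) ≤ v := by exact_mod_cast wt_swap hpo e
    push_cast at h1
    show 0 ≤ (v : ℝ) - wt π e - wt π e.swap
    linarith
  have htsw : ∀ e, t e.swap = t e := by
    intro e
    show (v : ℝ) - wt π e.swap - wt π e.swap.swap = v - wt π e - wt π e.swap
    rw [Prod.swap_swap]
    ring
  have hsum : (∑ e, (wt π e : ℝ)) = v * n.choose 2 - (∑ e ∈ off n, t e) / 2 := by
    have h1 : (∑ e, (wt π e : ℝ)) = ∑ e ∈ off n, (wt π e : ℝ) := by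
      have := congrArg (Int.cast : ℤ → ℝ) (sum_wt_off hpo)
      push_cast at this
      exact this
    have h2 : ∑ e ∈ off n, t e = v * (2 * n.choose 2) - 2 * ∑ e ∈ off n, (wt π e : ℝ) := by
      show ∑ e ∈ off n, ((v : ℝ) - wt π e - wt π e.swap) = _
      rw [sum_sub_distrib, sum_sub_distrib, ← sum_off (fun e => (wt π e : ℝ)), sum_const, card_off,
        nsmul_eq_mul]
      push_cast
      ring
    rw [h1, h2]
    ring
  have hrem : ∀ s : Rel n, IsPO s → (rem π s : ℝ) ≤ v * n.choose 2 - ∑ e ∈ s, w e.1 e.2 := by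
    intro s hs
    have h1 := congrArg (Int.cast : ℤ → ℝ) (rem_eq π s)
    push_cast at h1
    rw [h1, hsum]
    have h2 : ∑ e ∈ s, ((v : ℝ) - 2 * wt π e) = ∑ e ∈ s, t e - ∑ e ∈ s, w e.1 e.2 := by
      rw [← sum_sub_distrib]
      refine sum_congr rfl fun e _ => ?_
      show (v : ℝ) - 2 * wt π e = ((v : ℝ) - wt π e - wt π e.swap) - ((wt π e : ℝ) - wt π e.swap)
      ring
    have h3 : 2 * ∑ e ∈ s, t e ≤ ∑ e ∈ off n, t e := by
      have h4 : ∑ e ∈ s, t e = ∑ e ∈ off n, if e ∈ s then t e else 0 := by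
        rw [sum_ite_mem, inter_eq_right.2 (sub_off hs)]
      have h5 : 2 * ∑ e ∈ s, t e =
          ∑ e ∈ off n, ((if e ∈ s then t e else 0) + (if e.swap ∈ s then t e.swap else 0)) := by
        rw [sum_add_distrib, ← sum_off (fun e => if e ∈ s then t e else 0), h4, two_mul]
      rw [h5]
      refine sum_le_sum fun e _ => ?_
      rw [htsw e]
      have h6 := ht0 e
      by_cases h7 : e ∈ s
      · have h8 : e.swap ∉ s := asymm hs h7
        rw [if_pos h7, if_neg h8, add_zero]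
      · rw [if_neg h7, zero_add]
        split_ifs
        · exact le_rfl
        · exact h6
    rw [h2]
    linarith
  have hG1 : ∀ s : Rel n, IsWeak s → ∑ e ∈ s, w e.1 e.2 ≤ G := by
    intro s hs
    have h1 : (F R v : ℝ) ≤ rem π s := by exact_mod_cast h s (hW s hs)
    have h2 := hrem s hs.1
    linarith
  have hG2 : ∑ e ∈ off n, t e ≤ 2 * G := by
    have h1 : (F R v : ℝ) ≤ rem π ∅ := by exact_mod_cast h ∅ hR.empty
    have h2 := congrArg (Int.cast : ℤ → ℝ) (rem_eq π ∅)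
    push_cast at h2
    rw [h2, hsum, sum_empty] at h1
    linarith
  have h1 := gain_lower (w := w) (fun a b => by
    show (wt π (b, a) : ℝ) - wt π (a, b) = -((wt π (a, b) : ℝ) - wt π (b, a))
    ring) hG1
  have hn0 : (0 : ℝ) ≤ n := by positivity
  -- the rows
  have h2 : ∀ a : Fin n, ((n : ℝ) - 1) - ∑ b, (if a = b then 0 else t (a, b)) ≤
      Real.sqrt n * Real.sqrt (∑ b, w a b ^ 2) := by
    intro a
    set y := ((n : ℝ) - 1) - ∑ b, (if a = b then 0 else t (a, b)) with hy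
    set x := ∑ b, w a b ^ 2 with hx
    have e0 : (n : ℝ) - 1 = ∑ b : Fin n, if a = b then (0 : ℝ) else 1 := by
      have e1 : ∑ b : Fin n, (if a = b then (0 : ℝ) else 1) = ∑ b : Fin n, (1 - if a = b then (1 : ℝ) else 0) := by
        refine sum_congr rfl fun b _ => ?_
        split_ifs <;> norm_num
      rw [e1, sum_sub_distrib, sum_ite_eq, if_pos (mem_univ _), sum_const, card_univ,
        Fintype.card_fin, nsmul_eq_mul, mul_one]
    have e1 : y ≤ x := by
      rw [hy, hx, e0, ← sum_sub_distrib]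
      refine sum_le_sum fun b _ => ?_
      by_cases hab : a = b
      · rw [if_pos hab, if_pos hab, sub_zero]
        exact sq_nonneg _
      · rw [if_neg hab, if_neg hab]
        show 1 - ((v : ℝ) - wt π (a, b) - wt π (b, a)) ≤ ((wt π (a, b) : ℝ) - wt π (b, a)) ^ 2
        have e2 := wt_swap hpo (a, b)
        rw [Prod.swap_prod_mk] at e2
        rcases e2.eq_or_lt with e3 | e3
        · have e4 : ((wt π (a, b) : ℝ) + wt π (b, a)) = v := by exact_mod_cast e3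
          have e5 : (1 : ℝ) ≤ ((wt π (a, b) : ℝ) - wt π (b, a)) ^ 2 := by
            have e6 : (wt π (a, b) : ℤ) - wt π (b, a) ≠ 0 := by
              obtain ⟨k, hk⟩ := hv
              omega
            have e7 : (1 : ℤ) ≤ ((wt π (a, b) : ℤ) - wt π (b, a)) ^ 2 := by
              have := sq_nonneg ((wt π (a, b) : ℤ) - wt π (b, a))
              have h10 : ((wt π (a, b) : ℤ) - wt π (b, a)) ^ 2 ≠ 0 := pow_ne_zero _ e6
              omega
            exact_mod_cast e7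
          linarith
        · have e4 : ((wt π (a, b) : ℝ) + wt π (b, a)) + 1 ≤ v := by exact_mod_cast e3
          have e5 := sq_nonneg ((wt π (a, b) : ℝ) - wt π (b, a))
          linarith
    have e2 : y ≤ n := by
      rw [hy]
      have : 0 ≤ ∑ b, (if a = b then 0 else t (a, b)) := by
        refine sum_nonneg fun b _ => ?_
        split_ifs
        · exact le_rfl
        · exact ht0 _
      linarith
    rcases le_or_gt y 0 with e3 | e3
    · exact e3.trans (by positivity)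
    · rw [← Real.sqrt_mul hn0]
      refine Real.le_sqrt_of_sq_le ?_
      nlinarith
  have h3 := sum_le_sum fun a (_ : a ∈ (univ : Finset (Fin n))) => h2 a
  rw [← mul_sum, sum_sub_distrib, sum_const, card_univ, Fintype.card_fin, nsmul_eq_mul] at h3
  have h4 : ∑ a : Fin n, ∑ b, (if a = b then 0 else t (a, b)) = ∑ e ∈ off n, t e := by
    rw [off, sum_filter, Fintype.sum_prod_type]
    refine sum_congr rfl fun a _ => sum_congr rfl fun b _ => ?_
    by_cases hab : a = b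
    · rw [if_pos hab, if_neg (not_not.2 hab)]
    · rw [if_neg hab, if_pos hab]
  rw [h4] at h3
  set S := ∑ a, Real.sqrt (∑ b, w a b ^ 2) with hS
  have hn2 : (2 : ℝ) ≤ n := by exact_mod_cast hn
  set r := Real.sqrt n with hr
  have hr2 : r * r = n := Real.mul_self_sqrt hn0
  have hr1 : 1 ≤ r := by
    rw [hr, Real.le_sqrt (by norm_num) hn0]
    linarith
  have hG0 : 0 ≤ G := by
    have h5 : 0 ≤ ∑ e ∈ off n, t e := sum_nonneg fun e _ => ht0 e
    linarith
  have h5 : 5 / 144 * (n * (n - 1) - 2 * G) ≤ r * G := by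
    have h6 := mul_le_mul_of_nonneg_left h1 (by linarith : 0 ≤ r)
    nlinarith
  have h6 : 5 / 154 * (n * (n - 1)) ≤ r * G := by
    have : G ≤ r * G := le_mul_of_one_le_left hG0 hr1
    linarith
  have h7 : r * (5 / 154 * ((n - 1) * r)) ≤ r * G := by
    refine le_trans (le_of_eq ?_) h6
    calc r * (5 / 154 * (((n : ℝ) - 1) * r)) = 5 / 154 * ((n - 1) * (r * r)) := by ring
      _ = 5 / 154 * (n * (n - 1)) := by rw [hr2]; ring
  have h8 : 5 / 154 * (((n : ℝ) - 1) * r) ≤ G := le_of_mul_le_mul_left h7 (by linarith)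
  nlinarith

/-- **Many points, explicit.** -/
theorem F_interval {m n : ℕ} (hm : 2 ≤ m) {R : Rel n → Prop} (hR : Good R)
    (hRI : ∀ s, R s → IsInterval s) {v : ℕ} (hv : Odd v) (hmv : 2 * m + 1 ≤ v) :
    (v : ℝ) * n.choose 2 - F R v ≤ 60 * Real.sqrt m / (m - 1) * n.choose 2 +
      2 * m * n * Nat.clog m n := by
  obtain ⟨A, hA, h⟩ := chain_tournament (m := m) (by omega)
  have hm2 : (2 : ℝ) ≤ m := by exact_mod_cast hm
  have h0 : (0 : ℝ) < m - 1 := by linarith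
  have h1 := lower cls_int hm hA (γ := 60 * Real.sqrt m / (m - 1)) (by positivity)
    (fun s hs => by
      refine (h _ (restr_int hs)).trans (le_of_eq ?_)
      rw [Nat.cast_choose_two]
      field_simp
      ring) hR (fun s hs => toNat_int (hRI s hs)) (Nat.le_pow_clog (by omega) n) hv hmv
  linarith

/-- **Many voters, explicit.** -/
theorem F_many {n : ℕ} {R : Rel n → Prop} (hR : Good R) (hRI : ∀ s, R s → IsInterval s)
    (hn : 1 ≤ n) {v : ℕ} (hv : Odd v) (hv' : 2 * n + 1 ≤ v) :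
    (v : ℝ) * n.choose 2 - F R v ≤ 30 * (n * Real.sqrt n) := by
  classical
  obtain ⟨A, hA, h⟩ := chain_tournament hn
  obtain ⟨v₀, hv₀, B, hB, hT⟩ : ∃ v₀, v₀ = 2 * n + 1 ∧ ∃ B : Fin v₀ → Rel n,
    (∀ i, IsLin (B i)) ∧ ∀ a b, a ≠ b → 2 * (wt B (a, b) : ℤ) - v₀ = Ta A a b :=
    ⟨_, rfl, mcgarvey A hA⟩
  have key : ∀ s, R s → (v₀ : ℝ) * n.choose 2 - 30 * (n * Real.sqrt n) ≤ (rem B s : ℝ) := by
    intro s hs
    have h1 := congrArg (Int.cast : ℤ → ℝ) (rem_eq B s)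
    rw [sum_wt_lin hB] at h1
    have h2 : ∑ e ∈ s, ((v₀ : ℤ) - 2 * wt B e) = - ∑ e ∈ s, Td A e := by
      rw [← sum_neg_distrib]
      refine sum_congr rfl fun e he => ?_
      have hne : e.1 ≠ e.2 := (mem_filter.1 (sub_off (hR.po s hs) he)).2
      rw [Td, if_neg hne, ← hT e.1 e.2 hne]
      ring
    rw [h2] at h1
    push_cast at h1
    have h3 := h s (hRI s hs)
    push_cast at h3
    linarith
  have h1 : ⌈(v₀ : ℝ) * n.choose 2 - 30 * (n * Real.sqrt n)⌉₊ ≤ F R v₀ :=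
    le_F hR.empty B (fun i => hR.lin _ (hB i)) fun s hs => Nat.ceil_le.2 (key s hs)
  have h2 : (v₀ : ℝ) * n.choose 2 - 30 * (n * Real.sqrt n) ≤ F R v₀ :=
    (Nat.le_ceil _).trans (by exact_mod_cast h1)
  obtain ⟨j, hj⟩ : ∃ j, v = v₀ + 2 * j := by
    obtain ⟨a, ha⟩ := hv
    exact ⟨a - n, by omega⟩
  have h3 := F_add_even hR v₀ j
  rw [← hj] at h3
  have h4 : (F R v₀ : ℝ) + 2 * j * n.choose 2 ≤ F R v := by exact_mod_cast h3
  have h5 : (v : ℝ) = v₀ + 2 * j := by exact_mod_cast hj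
  rw [h5]
  linarith

/-- for a fixed number of points the deficiency is eventually constant -/
theorem eventually_const {n : ℕ} {R : Rel n → Prop} (hR : Good R) :
    ∃ g v₀ : ℕ, g ≤ n.choose 2 ∧ ∀ v, Odd v → v₀ ≤ v → F R v + g = v * n.choose 2 := by
  classical
  let a : ℕ → ℕ := fun j => (2 * j + 1) * n.choose 2 - F R (2 * j + 1)
  have hle : ∀ j, F R (2 * j + 1) ≤ (2 * j + 1) * n.choose 2 := fun j => F_le hR _
  have ha : Antitone a := by
    refine antitone_nat_of_succ_le fun j => ?_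
    have h1 := F_add_two hR (2 * j + 1)
    have h2 : 2 * (j + 1) + 1 = 2 * j + 1 + 2 := by ring
    show (2 * (j + 1) + 1) * n.choose 2 - F R (2 * (j + 1) + 1) ≤
      (2 * j + 1) * n.choose 2 - F R (2 * j + 1)
    rw [h2]
    have h3 : (2 * j + 1 + 2) * n.choose 2 = (2 * j + 1) * n.choose 2 + 2 * n.choose 2 := by ring
    rw [h3]
    have := hle j
    omega
  have hex : ∃ g, ∃ j, a j = g := ⟨_, 0, rfl⟩
  obtain ⟨j₀, hj₀⟩ := Nat.find_spec hex
  refine ⟨Nat.find hex, 2 * j₀ + 1, ?_, ?_⟩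
  · rw [← hj₀]
    show (2 * j₀ + 1) * n.choose 2 - F R (2 * j₀ + 1) ≤ n.choose 2
    have h1 := F_odd_ge hR (v := 2 * j₀ + 1) ⟨j₀, rfl⟩
    rw [Nat.add_sub_cancel] at h1
    have h2 : (2 * j₀ + 1) * n.choose 2 = 2 * j₀ * n.choose 2 + n.choose 2 := by ring
    omega
  · rintro v ⟨j, rfl⟩ hv
    have h1 : a j ≤ Nat.find hex := by
      rw [← hj₀]
      exact ha (by omega)
    have h2 : Nat.find hex ≤ a j := Nat.find_min' hex ⟨j, rfl⟩
    have h3 : a j = Nat.find hex := le_antisymm h1 h2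
    rw [← h3]
    show F R (2 * j + 1) + ((2 * j + 1) * n.choose 2 - F R (2 * j + 1)) = _
    have := hle j
    omega

/-- two points -/
theorem F_two {R : Rel 2 → Prop} (hR : Good R) (v : ℕ) : F R v = 2 * (v / 2) := by
  rcases Nat.even_or_odd v with h | h
  · rw [F_even hR h, Nat.choose_self]
    obtain ⟨k, hk⟩ := h
    omega
  · have h1 := F_odd_ge hR h
    have h2 := F_le_odd hR h
    rw [Nat.choose_self] at h1 h2
    obtain ⟨k, rfl⟩ := h
    have h3 : F R (2 * k + 1) < 2 * k + 1 := by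
      by_contra hcon
      push Not at hcon
      have h4 : (2 * k + 1) * (2 * k + 1) ≤ (2 * k + 1) * F R (2 * k + 1) :=
        Nat.mul_le_mul_left _ hcon
      have h5 : (2 * k + 1) ^ 2 = (2 * k + 1) * (2 * k + 1) := sq _
      have h6 : 0 < (2 * k + 1) * (2 * k + 1) := by positivity
      omega
    omega

/-- three points -/
theorem F_three_points {R : Rel 3 → Prop} (hR : Good R) {v : ℕ} (hv : Odd v) (h3 : 3 ≤ v) :
    F R v = 3 * v - 1 := by
  have hR' : Good (n := 3 ^ 1) R := hR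
  have h0 := F_three_pow (k := 1) hR'
  have hc : Nat.choose 3 2 = 3 := by decide
  have h0' : 3 * F R 3 = 8 * Nat.choose 3 2 := h0
  rw [hc] at h0'
  have h1 : F R 3 = 8 := by omega
  obtain ⟨j, hj⟩ : ∃ j, v = 3 + 2 * j := by
    obtain ⟨m, rfl⟩ := hv
    exact ⟨m - 1, by omega⟩
  have h2 := F_add_even hR 3 j
  rw [← hj, h1, hc] at h2
  have h4 := F_le_odd hR hv
  rw [hc] at h4
  have h5 : F R v < 3 * v := by
    by_contra hcon
    push Not at hcon
    have h6 : v * (3 * v) ≤ v * F R v := Nat.mul_le_mul_left _ hcon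
    have h7 : v ^ 2 = v * v := sq _
    have h8 : 0 < v * v := by positivity
    have h9 : v * (3 * v) = v * v * 3 := by ring
    omega
  omega

end Pool.Agent.Helper20.Disp
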