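import Pool.Agent.Helper20.Disp.Cyc

/-!
Maximum dispersal: the lower bounds for an odd number of voters.
-/

set_option autoImplicit false

namespace Pool.Agent.Helper20.Disp

open Finset

/-- one step of the recursion -/
theorem gain_step {s : ℕ → ℕ → Prop} (h1 : ∀ x, ¬ s x x) (h2 : ∀ x y z, s x y → s y z → s x z)
    (k n : ℕ) {a b c : ℕ} (ha : (n + 2) / 3 = a) (hb : (n + 1) / 3 = b) (hc : n / 3 = c) :
    3 * gain (k + 1) n s ≤ 3 * gain k a (fun x y => s (3 * x) (3 * y)) +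
      3 * gain k b (fun x y => s (3 * x + 1) (3 * y + 1)) +
      3 * gain k c (fun x y => s (3 * x + 2) (3 * y + 2)) +
      (a * b + b * c + c * a) + 2 * ((a - c) * b + (a - b) * c) := by
  have h3 := gain_succ k n s
  have h4 := three_blocks h1 h2 (fun i => 3 * i) (fun i => 3 * i + 1) (fun i => 3 * i + 2) a b c
    (by omega) (by omega)
  rw [ha, hb, hc] at h3
  set G := ∑ i ∈ range a, ∑ j ∈ range b, gn s (3 * i) (3 * j + 1) +
        ∑ j ∈ range b, ∑ l ∈ range c, gn s (3 * j + 1) (3 * l + 2) +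
        ∑ l ∈ range c, ∑ i ∈ range a, gn s (3 * l + 2) (3 * i) with hG
  have h5 : G ≤ b * c + (a - c) * b + (a - b) * c := by
    rcases Nat.eq_zero_or_pos a with h6 | h6
    · subst h6
      have hb0 : b = 0 := by omega
      have hc0 : c = 0 := by omega
      subst hb0 hc0
      rw [hG]
      simp
    · have h7 : (a : ℤ) * G ≤ a * (b * c + (a - c) * b + (a - b) * c) := by
        refine h4.trans (le_of_eq ?_)
        ring
      exact le_of_mul_le_mul_left h7 (by exact_mod_cast h6)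
  rw [h3]
  nlinarith

theorem sub_strict {s : ℕ → ℕ → Prop} (h1 : ∀ x, ¬ s x x) (h2 : ∀ x y z, s x y → s y z → s x z)
    (φ : ℕ → ℕ) : (∀ x, ¬ s (φ x) (φ x)) ∧
      ∀ x y z, s (φ x) (φ y) → s (φ y) (φ z) → s (φ x) (φ z) :=
  ⟨fun _ => h1 _, fun _ _ _ => h2 _ _ _⟩

theorem gain_zero (n : ℕ) (s : ℕ → ℕ → Prop) : gain 0 n s = 0 := by
  classical
  unfold gain
  refine sum_eq_zero fun x _ => sum_eq_zero fun y _ => ?_
  rw [mg, ite_self]

/-- the bound for all sizes -/
theorem gain_le (k n : ℕ) {s : ℕ → ℕ → Prop} (h1 : ∀ x, ¬ s x x)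
    (h2 : ∀ x y z, s x y → s y z → s x z) :
    6 * gain k n s ≤ (n : ℤ) * (n - 1) + 4 * n * k := by
  induction k generalizing n s with
  | zero =>
    rw [gain_zero]
    rcases Nat.eq_zero_or_pos n with h3 | h3
    · subst h3
      simp
    · have : (1 : ℤ) ≤ n := by exact_mod_cast h3
      nlinarith
  | succ k ih =>
    obtain ⟨a, ha⟩ : ∃ a, (n + 2) / 3 = a := ⟨_, rfl⟩
    obtain ⟨b, hb⟩ : ∃ b, (n + 1) / 3 = b := ⟨_, rfl⟩
    obtain ⟨c, hc⟩ : ∃ c, n / 3 = c := ⟨_, rfl⟩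
    have h3 := gain_step h1 h2 k n ha hb hc
    have s0 := sub_strict h1 h2 (fun x => 3 * x)
    have s1 := sub_strict h1 h2 (fun x => 3 * x + 1)
    have s2 := sub_strict h1 h2 (fun x => 3 * x + 2)
    have i0 := ih a s0.1 s0.2
    have i1 := ih b s1.1 s1.2
    have i2 := ih c s2.1 s2.2
    have hn : (n : ℤ) = a + b + c := by
      have : n = a + b + c := by omega
      exact_mod_cast this
    have hac : (a : ℤ) - c ≤ 1 := by
      have : a ≤ c + 1 := by omega
      have : (a : ℤ) ≤ c + 1 := by exact_mod_cast this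
      linarith
    have hab : (a : ℤ) - b ≤ 1 := by
      have : a ≤ b + 1 := by omega
      have : (a : ℤ) ≤ b + 1 := by exact_mod_cast this
      linarith
    have hb0 : (0 : ℤ) ≤ b := by positivity
    have hc0 : (0 : ℤ) ≤ c := by positivity
    have ha0 : (0 : ℤ) ≤ a := by positivity
    have e1 : ((a : ℤ) - c) * b ≤ b := by nlinarith
    have e2 : ((a : ℤ) - b) * c ≤ c := by nlinarith
    rw [hn]
    push_cast
    nlinarith

/-- the exact bound for powers of three -/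
theorem gain_le_pow (k : ℕ) {s : ℕ → ℕ → Prop} (h1 : ∀ x, ¬ s x x)
    (h2 : ∀ x y z, s x y → s y z → s x z) :
    6 * gain k (3 ^ k) s ≤ (3 : ℤ) ^ k * (3 ^ k - 1) := by
  induction k generalizing s with
  | zero =>
    rw [gain_zero]
    simp
  | succ k ih =>
    have ha : (3 ^ (k + 1) + 2) / 3 = 3 ^ k := by
      rw [pow_succ]
      omega
    have hb : (3 ^ (k + 1) + 1) / 3 = 3 ^ k := by
      rw [pow_succ]
      omega
    have hc : 3 ^ (k + 1) / 3 = 3 ^ k := by
      rw [pow_succ]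
      omega
    have h3 := gain_step h1 h2 k (3 ^ (k + 1)) ha hb hc
    have s0 := sub_strict h1 h2 (fun x => 3 * x)
    have s1 := sub_strict h1 h2 (fun x => 3 * x + 1)
    have s2 := sub_strict h1 h2 (fun x => 3 * x + 2)
    have i0 := ih s0.1 s0.2
    have i1 := ih s1.1 s1.2
    have i2 := ih s2.1 s2.2
    push_cast at h3
    have h4 : (3 : ℤ) ^ (k + 1) * (3 ^ (k + 1) - 1) =
        3 * (3 ^ k * (3 ^ k - 1)) + 2 * (3 ^ k * 3 ^ k + 3 ^ k * 3 ^ k + 3 ^ k * 3 ^ k) := by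
      rw [pow_succ]
      ring
    rw [h4]
    linarith

/-! ### The profile -/

/-- the three orders -/
def cyc (n k : ℕ) (c : Fin 3) : Rel n := univ.filter fun e => lt3 c k e.1 e.2 = true

theorem mem_cyc {n k : ℕ} {c : Fin 3} {e : Fin n × Fin n} :
    e ∈ cyc n k c ↔ lt3 c k e.1 e.2 = true := by simp [cyc]

theorem cyc_lin {n k : ℕ} (hn : n ≤ 3 ^ k) (c : Fin 3) : IsLin (cyc n k c) := by
  refine ⟨⟨fun a h => ?_, fun a b d h1 h2 => ?_⟩, fun a b hab => ?_⟩
  · rw [mem_cyc, lt3_irrefl] at h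
    exact Bool.false_ne_true h
  · rw [mem_cyc] at h1 h2 ⊢
    exact lt3_trans _ _ _ _ _ h1 h2
  · rw [mem_cyc, mem_cyc]
    exact lt3_total _ _ _ _ (a.2.trans_le hn) (b.2.trans_le hn) fun h => hab (Fin.ext h)

theorem wt_cyc {n k : ℕ} (hn : n ≤ 3 ^ k) {e : Fin n × Fin n} (he : e ∈ off n) :
    2 * (wt (cyc n k) e : ℤ) - 3 = mg k e.1 e.2 := by
  have hne : (e.1 : ℕ) ≠ e.2 := fun h => (mem_filter.1 he).2 (Fin.ext h)
  rw [← mg_eq k e.1 e.2 (e.1.2.trans_le hn) (e.2.2.trans_le hn) hne]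
  have h1 : (wt (cyc n k) e : ℤ) = (if lt3 0 k e.1 e.2 then 1 else 0) +
      (if lt3 1 k e.1 e.2 then 1 else 0) + (if lt3 2 k e.1 e.2 then 1 else 0) := by
    rw [wt, card_filter, Fin.sum_univ_three]
    simp only [mem_cyc]
    push_cast
    rfl
  rw [h1]

theorem mg_antisymm (k x y : ℕ) : mg k y x = - mg k x y := by
  induction k generalizing x y with
  | zero => simp [mg]
  | succ k ih =>
    by_cases h : x % 3 = y % 3
    · rw [mg, if_pos h.symm, mg, if_pos h, ih]
    · rw [mg, if_neg (Ne.symm h), mg, if_neg h]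
      by_cases h1 : (x % 3 + 1) % 3 = y % 3
      · rw [if_pos h1, if_neg (by omega)]
      · rw [if_neg h1, if_pos (by omega)]
        rfl

theorem sum_wt_cyc {n k : ℕ} (hn : n ≤ 3 ^ k) :
    ∑ e, (wt (cyc n k) e : ℤ) = 3 * n.choose 2 := by
  rw [sum_wt_off fun i => (cyc_lin hn i).1]
  have h1 : ∑ e ∈ off n, (2 * (wt (cyc n k) e : ℤ) - 3) = 0 := by
    have h2 : ∑ e ∈ off n, mg k e.1 e.2 = ∑ e ∈ off n, -mg k e.1 e.2 := by
      rw [sum_off (fun e => mg k e.1 e.2)]
      exact sum_congr rfl fun e _ => mg_antisymm k e.1 e.2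
    rw [sum_neg_distrib] at h2
    rw [sum_congr rfl fun e he => wt_cyc hn he]
    linarith
  rw [sum_sub_distrib, ← mul_sum, sum_const, card_off, nsmul_eq_mul] at h1
  push_cast at h1
  linarith

/-- the relation on the numbers -/
def toNat {n : ℕ} (s : Rel n) (x y : ℕ) : Prop :=
  ∃ (hx : x < n) (hy : y < n), ((⟨x, hx⟩ : Fin n), (⟨y, hy⟩ : Fin n)) ∈ s

theorem rem_cyc {n k : ℕ} (hn : n ≤ 3 ^ k) {s : Rel n} (hs : IsPO s) :
    (rem (cyc n k) s : ℤ) = 3 * n.choose 2 - gain k n (toNat s) := by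
  classical
  rw [rem_eq, sum_wt_cyc hn]
  have h1 : ∑ e ∈ s, (((3 : ℕ) : ℤ) - 2 * wt (cyc n k) e) = - ∑ e ∈ s, mg k e.1 e.2 := by
    rw [← sum_neg_distrib]
    refine sum_congr rfl fun e he => ?_
    rw [← wt_cyc hn (sub_off hs he)]
    push_cast
    ring
  have h2 : gain k n (toNat s) = ∑ e ∈ s, mg k e.1 e.2 := by
    unfold gain
    have h3 : ∑ e ∈ s, mg k e.1 e.2 = ∑ e : Fin n × Fin n, if e ∈ s then mg k e.1 e.2 else 0 := by
      rw [sum_ite_mem, univ_inter]
    rw [h3, Fintype.sum_prod_type, Finset.sum_range]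
    refine sum_congr rfl fun x _ => ?_
    rw [Finset.sum_range]
    refine sum_congr rfl fun y _ => ?_
    have h4 : toNat s (x : ℕ) (y : ℕ) ↔ (x, y) ∈ s :=
      ⟨fun ⟨_, _, h⟩ => h, fun h => ⟨x.2, y.2, h⟩⟩
    by_cases h5 : (x, y) ∈ s
    · rw [if_pos h5, if_pos (h4.2 h5)]
    · rw [if_neg h5, if_neg fun h6 => h5 (h4.1 h6)]
  rw [h1, h2]
  ring

theorem toNat_strict {n : ℕ} {s : Rel n} (hs : IsPO s) : (∀ x, ¬ toNat s x x) ∧
    ∀ x y z, toNat s x y → toNat s y z → toNat s x z := by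
  refine ⟨fun x => ?_, fun x y z => ?_⟩
  · rintro ⟨hx, _, h⟩
    exact hs.1 _ h
  · rintro ⟨hx, hy, h⟩ ⟨_, hz, h'⟩
    exact ⟨hx, hz, hs.2 _ _ _ h h'⟩

theorem two_choose (n : ℕ) : (n : ℤ) * (n - 1) = 2 * n.choose 2 := by
  have h1 := Nat.choose_two_right n
  have h2 := Nat.even_mul_pred_self n
  have h3 : 2 * n.choose 2 = n * (n - 1) := by
    rw [h1, Nat.mul_div_cancel' h2.two_dvd]
  rcases Nat.eq_zero_or_pos n with h4 | h4
  · subst h4
    simp
  · have h5 : ((n - 1 : ℕ) : ℤ) = n - 1 := by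
      rw [Nat.cast_sub h4]
      simp
    rw [← h5]
    exact_mod_cast h3.symm

/-- **Three voters, all `n`.** -/
theorem F_three_ge {n : ℕ} {R : Rel n → Prop} (hR : Good R) :
    8 * n.choose 2 ≤ 3 * F R 3 + 2 * n * Nat.clog 3 n := by
  set k := Nat.clog 3 n with hk
  have hn : n ≤ 3 ^ k := Nat.le_pow_clog (by norm_num) n
  obtain ⟨B, hB⟩ : ∃ B : ℕ, (B : ℤ) = 3 * n.choose 2 -
      ((n.choose 2 : ℤ) + 2 * n * k) / 3 ∨ ((3 * n.choose 2 : ℤ) - ((n.choose 2 : ℤ) + 2 * n * k) / 3 < 0 ∧ B = 0) := by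
    rcases le_or_gt 0 ((3 * n.choose 2 : ℤ) - ((n.choose 2 : ℤ) + 2 * n * k) / 3) with h | h
    · obtain ⟨B, hB⟩ := Int.eq_ofNat_of_zero_le h
      exact ⟨B, Or.inl hB.symm⟩
    · exact ⟨0, Or.inr ⟨h, rfl⟩⟩
  have h1 : B ≤ F R 3 := by
    refine le_F hR.empty (cyc n k) (fun i => hR.lin _ (cyc_lin hn i)) fun s hs => ?_
    have hpo := hR.po s hs
    obtain ⟨h2, h3⟩ := toNat_strict hpo
    have h4 := gain_le k n h2 h3
    have h5 := rem_cyc hn hpo
    rw [two_choose] at h4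
    rcases hB with h6 | ⟨h6, h7⟩
    · have h8 : (B : ℤ) ≤ (rem (cyc n k) s : ℤ) := by
        rw [h5, h6]
        have h9 : gain k n (toNat s) ≤ ((n.choose 2 : ℤ) + 2 * n * k) / 3 := by
          rw [Int.le_ediv_iff_mul_le (by norm_num)]
          linarith
        linarith
      exact_mod_cast h8
    · rw [h7]
      exact Nat.zero_le _
  have h2 : (8 * n.choose 2 : ℤ) ≤ 3 * (F R 3 : ℤ) + 2 * n * k := by
    have h3 : (B : ℤ) ≤ (F R 3 : ℤ) := by exact_mod_cast h1
    have h4 := Int.mul_ediv_self_le (x := (n.choose 2 : ℤ) + 2 * n * k) (k := 3) (by norm_num)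
    rcases hB with h6 | ⟨h6, h7⟩
    · linarith
    · have h8 : (0 : ℤ) ≤ (F R 3 : ℤ) := by positivity
      linarith
  exact_mod_cast h2

/-- **Three voters, `n` a power of three.** -/
theorem F_three_pow {k : ℕ} {R : Rel (3 ^ k) → Prop} (hR : Good R) :
    3 * F R 3 = 8 * (3 ^ k).choose 2 := by
  refine le_antisymm ?_ ?_
  · have h := F_le_odd hR (v := 3) (by decide)
    simpa using h
  · have h0 := two_choose (3 ^ k)
    have h1 : 3 * (3 ^ k).choose 2 - (3 ^ k).choose 2 / 3 ≤ F R 3 := by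
      refine le_F hR.empty (cyc (3 ^ k) k) (fun i => hR.lin _ (cyc_lin le_rfl i)) fun s hs => ?_
      have hpo := hR.po s hs
      obtain ⟨h2, h3⟩ := toNat_strict hpo
      have h4 := gain_le_pow k h2 h3
      have h5 := rem_cyc (n := 3 ^ k) (k := k) le_rfl hpo
      push_cast at h0
      rw [h0] at h4
      have h6 : gain k (3 ^ k) (toNat s) ≤ (((3 ^ k).choose 2 / 3 : ℕ) : ℤ) := by
        push_cast
        rw [Int.le_ediv_iff_mul_le (by norm_num)]
        linarith
      omega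
    have h2 : (3 ^ k).choose 2 / 3 * 3 ≤ (3 ^ k).choose 2 := Nat.div_mul_le_self _ _
    omega

/-- **Odd number of voters, all `n`.** -/
theorem F_odd_ge_all {n : ℕ} {R : Rel n → Prop} (hR : Good R) {v : ℕ} (hv : Odd v) (h3 : 3 ≤ v) :
    3 * v * n.choose 2 ≤ 3 * F R v + n.choose 2 + 2 * n * Nat.clog 3 n := by
  obtain ⟨j, hj⟩ : ∃ j, v = 3 + 2 * j := by
    obtain ⟨m, rfl⟩ := hv
    exact ⟨m - 1, by omega⟩
  subst hj
  have h1 := F_add_even hR 3 j
  have h2 := F_three_ge hR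
  nlinarith

/-! ### The bipartite orders -/

theorem card_sep {n : ℕ} {a b : Fin n} (hab : a ≠ b) :
    4 * ((univ : Finset (Finset (Fin n))).filter fun A => a ∈ A ∧ b ∉ A).card = 2 ^ n := by
  have hn : 2 ≤ n := by
    rcases n with - | - | n
    · exact a.elim0
    · exact absurd (Fin.ext (by omega)) hab
    · omega
  have h1 : ((univ : Finset (Finset (Fin n))).filter fun A => a ∈ A ∧ b ∉ A) =
      ((univ.erase a).erase b).powerset.image (insert a) := by
    ext A
    rw [mem_filter, mem_image]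
    constructor
    · rintro ⟨-, h1, h2⟩
      refine ⟨A.erase a, ?_, insert_erase h1⟩
      rw [mem_powerset]
      intro x hx
      rw [mem_erase] at hx
      rw [mem_erase, mem_erase]
      exact ⟨fun h => h2 (h ▸ hx.2), hx.1, mem_univ _⟩
    · rintro ⟨B, hB, rfl⟩
      rw [mem_powerset] at hB
      refine ⟨mem_univ _, mem_insert_self _ _, fun h => ?_⟩
      rcases mem_insert.1 h with h2 | h2
      · exact hab h2.symm
      · exact absurd (hB h2) (notMem_erase _ _)
  rw [h1, card_image_of_injOn, card_powerset, card_erase_of_mem, card_erase_of_mem (mem_univ _),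
    card_univ, Fintype.card_fin]
  · obtain ⟨m, rfl⟩ : ∃ m, n = m + 2 := ⟨n - 2, by omega⟩
    rw [show m + 2 - 1 - 1 = m by omega, pow_add]
    ring
  · rw [mem_erase]
    exact ⟨hab.symm, mem_univ _⟩
  · intro B hB C hC h
    rw [mem_coe, mem_powerset] at hB hC
    have hB' : a ∉ B := fun h2 => by
      have := hB h2
      rw [mem_erase, mem_erase] at this
      exact this.2.1 rfl
    have hC' : a ∉ C := fun h2 => by
      have := hC h2
      rw [mem_erase, mem_erase] at this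
      exact this.2.1 rfl
    have h3 : (insert a B).erase a = (insert a C).erase a := by
      have : insert a B = insert a C := h
      rw [this]
    rwa [erase_insert hB', erase_insert hC'] at h3

/-- **Partial orders, odd number of voters.** -/
theorem F_partial_le {n : ℕ} {v : ℕ} (hv : Odd v) :
    4 * F (IsPO (n := n)) v + n.choose 2 ≤ 4 * v * n.choose 2 := by
  classical
  obtain ⟨π, hπ, h⟩ := exists_profile (R := IsPO (n := n)) good_po.empty v
  let sA : Finset (Fin n) → Rel n := fun A =>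
    univ.filter fun e => (e.1 ∈ A ∧ e.2 ∉ A) ∧ v < 2 * wt π e
  have hsA : ∀ A, IsPO (sA A) := by
    intro A
    refine ⟨fun a ha => ?_, fun a b c h1 h2 => ?_⟩
    · have := (mem_filter.1 ha).2.1
      exact this.2 this.1
    · have h3 := (mem_filter.1 h1).2.1
      have h4 := (mem_filter.1 h2).2.1
      exact absurd h4.1 h3.2
  set Wt : ℤ := ∑ e, (wt π e : ℤ) with hWt
  let p : Fin n × Fin n → ℤ := fun e => max (2 * (wt π e : ℤ) - v) 0
  have h1 : ∀ A : Finset (Fin n), (F (IsPO (n := n)) v : ℤ) ≤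
      Wt - ∑ e ∈ off n, if e.1 ∈ A ∧ e.2 ∉ A then p e else 0 := by
    intro A
    have h2 : (F (IsPO (n := n)) v : ℤ) ≤ rem π (sA A) := by exact_mod_cast h _ (hsA A)
    refine h2.trans (le_of_eq ?_)
    rw [rem_eq, ← hWt, sub_eq_add_neg]
    congr 1
    rw [← sum_neg_distrib]
    have h3 : ∑ e ∈ sA A, ((v : ℤ) - 2 * wt π e) = ∑ e ∈ off n, if e ∈ sA A then ((v : ℤ) - 2 * wt π e) else 0 := by
      rw [sum_ite_mem, inter_eq_right.2 (sub_off (hsA A))]
    rw [h3]
    refine sum_congr rfl fun e _ => ?_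
    have h4 : e ∈ sA A ↔ (e.1 ∈ A ∧ e.2 ∉ A) ∧ v < 2 * wt π e := by simp [sA]
    by_cases h5 : e.1 ∈ A ∧ e.2 ∉ A
    · rw [if_pos h5]
      by_cases h6 : v < 2 * wt π e
      · have h7 : (v : ℤ) < 2 * wt π e := by exact_mod_cast h6
        rw [if_pos (h4.2 ⟨h5, h6⟩)]
        show _ = -(max _ _)
        rw [max_eq_left (by linarith)]
        ring
      · have h7 : 2 * (wt π e : ℤ) ≤ v := by exact_mod_cast not_lt.1 h6
        rw [if_neg fun h8 => h6 (h4.1 h8).2]
        show _ = -(max _ _)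
        rw [max_eq_right (by linarith), neg_zero]
    · rw [if_neg h5, if_neg fun h8 => h5 (h4.1 h8).1, neg_zero]
  have h2 : (2 : ℤ) ^ n * (F (IsPO (n := n)) v : ℤ) ≤ 2 ^ n * Wt -
      ∑ e ∈ off n, (((univ : Finset (Finset (Fin n))).filter fun A => e.1 ∈ A ∧ e.2 ∉ A).card : ℤ) * p e := by
    have h3 := sum_le_sum (s := (univ : Finset (Finset (Fin n)))) fun A _ => h1 A
    rw [sum_const, card_univ, Fintype.card_finset, Fintype.card_fin, nsmul_eq_mul, sum_sub_distrib,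
      sum_const, card_univ, Fintype.card_finset, Fintype.card_fin, nsmul_eq_mul, sum_comm] at h3
    push_cast at h3
    refine h3.trans (le_of_eq ?_)
    congr 1
    refine sum_congr rfl fun e _ => ?_
    rw [← sum_filter, sum_const, nsmul_eq_mul]
  have h3 : 4 * ∑ e ∈ off n, (((univ : Finset (Finset (Fin n))).filter fun A => e.1 ∈ A ∧ e.2 ∉ A).card : ℤ) * p e =
      2 ^ n * ∑ e ∈ off n, p e := by
    rw [mul_sum, mul_sum]
    refine sum_congr rfl fun e he => ?_
    have h4 := card_sep (mem_filter.1 he).2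
    have h5 : (4 : ℤ) * (((univ : Finset (Finset (Fin n))).filter fun A => e.1 ∈ A ∧ e.2 ∉ A).card : ℤ) = 2 ^ n := by
      exact_mod_cast h4
    rw [← mul_assoc, h5]
  have h4 : 4 * (F (IsPO (n := n)) v : ℤ) ≤ 4 * Wt - ∑ e ∈ off n, p e := by
    have h5 : (0 : ℤ) < 2 ^ n := by positivity
    have h6 : (2 : ℤ) ^ n * (4 * (F (IsPO (n := n)) v : ℤ)) ≤ 2 ^ n * (4 * Wt - ∑ e ∈ off n, p e) := by
      linarith
    exact le_of_mul_le_mul_left h6 h5
  have h5 : 2 * (4 * Wt - ∑ e ∈ off n, p e) ≤ (4 * v - 1) * (2 * n.choose 2) := by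
    have h6 : 2 * (4 * Wt - ∑ e ∈ off n, p e) =
        ∑ e ∈ off n, (4 * ((wt π e : ℤ) + wt π e.swap) - (p e + p e.swap)) := by
      rw [hWt, sum_wt_off hπ, sum_sub_distrib, ← mul_sum, sum_add_distrib, sum_add_distrib,
        ← sum_off (fun e => (wt π e : ℤ)), ← sum_off p]
      ring
    have h7 : ∀ e ∈ off n, 4 * ((wt π e : ℤ) + wt π e.swap) - (p e + p e.swap) ≤ 4 * v - 1 := by
      intro e _
      have h8 := wt_swap hπ e
      obtain ⟨j, hj⟩ := hv
      show 4 * ((wt π e : ℤ) + wt π e.swap) -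
        (max (2 * (wt π e : ℤ) - v) 0 + max (2 * (wt π e.swap : ℤ) - v) 0) ≤ 4 * v - 1
      omega
    rw [h6]
    refine (sum_le_sum h7).trans (le_of_eq ?_)
    rw [sum_const, card_off, nsmul_eq_mul]
    push_cast
    ring
  have h6 : 4 * (F (IsPO (n := n)) v : ℤ) + n.choose 2 ≤ 4 * v * n.choose 2 := by
    linarith
  exact_mod_cast h6

end Pool.Agent.Helper20.Disp
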