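import Pool.Agent.Helper20.Disp.Blow2

/-!
Maximum dispersal: every tournament on `m` points is the majority tournament, with all margins one, of
a profile of `2 m + 1` linear orders. Two orders reverse all the arcs of a matching.
-/

set_option autoImplicit false

namespace Pool.Agent.Helper20.Disp

open Finset

/-- the linear order of an injective ranking -/
def rkLin {m : ℕ} (f : Fin m → ℕ) : Rel m := univ.filter fun e => f e.1 < f e.2

theorem mem_rkLin {m : ℕ} {f : Fin m → ℕ} {a b : Fin m} : (a, b) ∈ rkLin f ↔ f a < f b := by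
  simp [rkLin]

theorem rkLin_lin {m : ℕ} {f : Fin m → ℕ} (hf : Function.Injective f) : IsLin (rkLin f) := by
  refine ⟨⟨fun a h => ?_, fun a b c h1 h2 => ?_⟩, fun a b hab => ?_⟩
  · exact lt_irrefl _ (mem_rkLin.1 h)
  · exact mem_rkLin.2 (lt_trans (mem_rkLin.1 h1) (mem_rkLin.1 h2))
  · rw [mem_rkLin, mem_rkLin]
    exact lt_or_gt_of_ne fun h => hab (hf h)

/-- the orientation of a set `A` of pairs -/
def Ta {m : ℕ} (A : Finset (Fin m × Fin m)) (a b : Fin m) : ℤ :=
  if a < b then (if (a, b) ∈ A then -1 else 1) else (if (b, a) ∈ A then 1 else -1)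

/-- adding a linear order -/
theorem wt_snoc {m v : ℕ} (B : Fin v → Rel m) (L : Rel m) (e : Fin m × Fin m) :
    wt (Fin.snoc B L : Fin (v + 1) → Rel m) e = wt B e + if e ∈ L then 1 else 0 := by
  rw [wt, wt, card_filter, card_filter, Fin.sum_univ_castSucc]
  simp only [Fin.snoc_last, Fin.snoc_castSucc]

theorem wt_snoc_rk {m v : ℕ} (B : Fin v → Rel m) (f : Fin m → ℕ) (a b : Fin m) :
    wt (Fin.snoc B (rkLin f) : Fin (v + 1) → Rel m) (a, b) =
      wt B (a, b) + if f a < f b then 1 else 0 := by
  rw [wt_snoc]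
  congr 1
  by_cases h : f a < f b
  · rw [if_pos h, if_pos (mem_rkLin.2 h)]
  · rw [if_neg h, if_neg fun h' => h (mem_rkLin.1 h')]

section matching

variable {m : ℕ} (A : Finset (Fin m × Fin m)) (p : Fin m → Fin m)

/-- the block of a point -/
def bk (x : Fin m) : Fin m := if (p x, x) ∈ A then p x else x

/-- the type of a point -/
def ty (x : Fin m) : ℕ := if (x, p x) ∈ A then 1 else 0

/-- the first order -/
def r1 (x : Fin m) : ℕ := 2 * (bk A p x : ℕ) + ty A p x

/-- the second order -/
def r2 (x : Fin m) : ℕ := 2 * (m - (bk A p x : ℕ)) + ty A p x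

variable {A p}

theorem ty_le (x : Fin m) : ty A p x ≤ 1 := by
  unfold ty
  split_ifs <;> norm_num

theorem block_cases (hA : ∀ e ∈ A, e.1 < e.2) (hp : ∀ x, p (p x) = x) {a b : Fin m} (hab : a ≠ b)
    (h : bk A p a = bk A p b) :
    ((a, b) ∈ A ∧ b = p a ∧ ty A p a = 1 ∧ ty A p b = 0) ∨
      ((b, a) ∈ A ∧ a = p b ∧ ty A p b = 1 ∧ ty A p a = 0) := by
  have key : ∀ a b : Fin m, (p b, b) ∈ A → a = p b →
      (a, b) ∈ A ∧ b = p a ∧ ty A p a = 1 ∧ ty A p b = 0 := by
    intro a b h1 h2
    subst h2
    rw [hp]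
    refine ⟨h1, rfl, ?_, ?_⟩
    · exact if_pos (by rw [hp]; exact h1)
    · exact if_neg fun h3 => lt_asymm (hA _ h1) (hA _ h3)
  unfold bk at h
  by_cases ha : (p a, a) ∈ A <;> by_cases hb : (p b, b) ∈ A
  · rw [if_pos ha, if_pos hb] at h
    exact absurd (by rw [← hp a, h, hp]) hab
  · rw [if_pos ha, if_neg hb] at h
    exact Or.inr (key b a ha h.symm)
  · rw [if_neg ha, if_pos hb] at h
    exact Or.inl (key a b hb h)
  · rw [if_neg ha, if_neg hb] at h
    exact absurd h hab

theorem block_eq (hA : ∀ e ∈ A, e.1 < e.2) (hp : ∀ x, p (p x) = x) {a b : Fin m}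
    (h : (a, b) ∈ A) (hb : b = p a) : bk A p a = bk A p b := by
  subst hb
  unfold bk
  rw [hp, if_pos h, if_neg fun h1 => lt_asymm (hA _ h) (hA _ h1)]

theorem r1_inj (hA : ∀ e ∈ A, e.1 < e.2) (hp : ∀ x, p (p x) = x) :
    Function.Injective (r1 A p) := by
  intro a b h
  by_contra hab
  have ta := ty_le (A := A) (p := p) a
  have tb := ty_le (A := A) (p := p) b
  unfold r1 at h
  have h1 : bk A p a = bk A p b := Fin.ext (by omega)
  have h2 : ty A p a = ty A p b := by
    rw [h1] at h
    omega
  rcases block_cases hA hp hab h1 with h3 | h3 <;> omega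

theorem r2_inj (hA : ∀ e ∈ A, e.1 < e.2) (hp : ∀ x, p (p x) = x) :
    Function.Injective (r2 A p) := by
  intro a b h
  by_contra hab
  have ta := ty_le (A := A) (p := p) a
  have tb := ty_le (A := A) (p := p) b
  have ba := (bk A p a).2
  have bb := (bk A p b).2
  unfold r2 at h
  have h1 : bk A p a = bk A p b := Fin.ext (by omega)
  have h2 : ty A p a = ty A p b := by
    rw [h1] at h
    omega
  rcases block_cases hA hp hab h1 with h3 | h3 <;> omega

/-- the two orders reverse the matching -/
theorem two_orders (hA : ∀ e ∈ A, e.1 < e.2) (hp : ∀ x, p (p x) = x) {a b : Fin m} (hab : a ≠ b) :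
    (if r1 A p a < r1 A p b then (1 : ℤ) else 0) + (if r2 A p a < r2 A p b then (1 : ℤ) else 0) =
      1 + (if (b, a) ∈ A ∧ a = p b then 1 else 0) - (if (a, b) ∈ A ∧ b = p a then 1 else 0) := by
  have ta := ty_le (A := A) (p := p) a
  have tb := ty_le (A := A) (p := p) b
  have ba := (bk A p a).2
  have bb := (bk A p b).2
  by_cases h : bk A p a = bk A p b
  · rcases block_cases hA hp hab h with ⟨h1, h2, h3, h4⟩ | ⟨h1, h2, h3, h4⟩
    · have n1 : ¬ r1 A p a < r1 A p b := by
        unfold r1
        rw [h]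
        omega
      have n2 : ¬ r2 A p a < r2 A p b := by
        unfold r2
        rw [h]
        omega
      have n3 : ¬ ((b, a) ∈ A ∧ a = p b) := fun h5 => lt_asymm (hA _ h1) (hA _ h5.1)
      rw [if_neg n1, if_neg n2, if_neg n3, if_pos ⟨h1, h2⟩]
      norm_num
    · have n1 : r1 A p a < r1 A p b := by
        unfold r1
        rw [h]
        omega
      have n2 : r2 A p a < r2 A p b := by
        unfold r2
        rw [h]
        omega
      have n3 : ¬ ((a, b) ∈ A ∧ b = p a) := fun h5 => lt_asymm (hA _ h1) (hA _ h5.1)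
      rw [if_pos n1, if_pos n2, if_neg n3, if_pos ⟨h1, h2⟩]
      norm_num
  · have n1 : ¬ ((b, a) ∈ A ∧ a = p b) := fun h5 => h (block_eq hA hp h5.1 h5.2).symm
    have n2 : ¬ ((a, b) ∈ A ∧ b = p a) := fun h5 => h (block_eq hA hp h5.1 h5.2)
    rw [if_neg n1, if_neg n2]
    rcases lt_or_gt_of_ne fun h' => h (Fin.ext h') with h3 | h3
    · rw [if_pos (by unfold r1; omega), if_neg (by unfold r2; omega)]
      norm_num
    · rw [if_neg (by unfold r1; omega), if_pos (by unfold r2; omega)]
      norm_num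

end matching

/-- the matching of the pairs with a given sum -/
def pk (m : ℕ) (k : Fin m) (x : Fin m) : Fin m :=
  if h : (x : ℕ) ≤ k then ⟨k - x, by omega⟩ else ⟨k + m - x, by omega⟩

theorem pk_pk (m : ℕ) (k x : Fin m) : pk m k (pk m k x) = x := by
  unfold pk
  apply Fin.ext
  have h1 := k.2
  have h2 := x.2
  by_cases h : (x : ℕ) ≤ k
  · rw [dif_pos h, dif_pos (by show (k : ℕ) - x ≤ k; omega)]
    show (k : ℕ) - (k - x) = x
    omega
  · rw [dif_neg h]
    by_cases h3 : (k : ℕ) + m - x ≤ k
    · omega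
    · rw [dif_neg h3]
      show (k : ℕ) + m - (k + m - x) = x
      omega

theorem pk_iff (m : ℕ) (k a b : Fin m) : b = pk m k a ↔ ((a : ℕ) + b) % m = k := by
  have h1 := k.2
  have h2 := a.2
  have h3 := b.2
  have h4 : ((a : ℕ) + b) % m = if (a : ℕ) + b < m then (a : ℕ) + b else (a : ℕ) + b - m := by
    by_cases h : (a : ℕ) + b < m
    · rw [if_pos h, Nat.mod_eq_of_lt h]
    · rw [if_neg h, Nat.mod_eq_sub_mod (by omega), Nat.mod_eq_of_lt (by omega)]
  rw [h4, Fin.ext_iff]
  unfold pk
  by_cases h : (a : ℕ) ≤ k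
  · rw [dif_pos h]
    show (b : ℕ) = k - a ↔ _
    split_ifs <;> omega
  · rw [dif_neg h]
    show (b : ℕ) = k + m - a ↔ _
    split_ifs <;> omega

theorem mcgarvey {m : ℕ} (A : Finset (Fin m × Fin m)) (hA : ∀ e ∈ A, e.1 < e.2) :
    ∃ B : Fin (2 * m + 1) → Rel m, (∀ i, IsLin (B i)) ∧
      ∀ a b, a ≠ b → 2 * (wt B (a, b) : ℤ) - (2 * m + 1 : ℕ) = Ta A a b := by
  classical
  have key : ∀ k, k ≤ m → ∃ B : Fin (2 * k + 1) → Rel m, (∀ i, IsLin (B i)) ∧
      ∀ a b, a ≠ b → 2 * (wt B (a, b) : ℤ) - (2 * k + 1 : ℕ) =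
        Ta (A.filter fun e => ((e.1 : ℕ) + e.2) % m < k) a b := by
    intro k
    induction k with
    | zero =>
      intro _
      refine ⟨fun _ => stdLin m, fun _ => stdLin_lin m, fun a b hab => ?_⟩
      have h0 : (A.filter fun e => ((e.1 : ℕ) + e.2) % m < 0) = ∅ := by
        rw [filter_eq_empty_iff]
        intro e _
        omega
      rw [h0, wt, Ta, card_filter, Fin.sum_univ_one]
      rcases lt_or_gt_of_ne hab with h | h
      · rw [if_pos (by simp [stdLin, h]), if_pos h, if_neg (notMem_empty _)]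
        norm_num
      · rw [if_neg (by simp [stdLin, h.le]), if_neg (not_lt.2 h.le), if_neg (notMem_empty _)]
        norm_num
    | succ k ih =>
      intro hk
      obtain ⟨B, hB, hm⟩ := ih (by omega)
      set K : Fin m := ⟨k, by omega⟩ with hK
      have hp := pk_pk m K
      refine ⟨Fin.snoc (Fin.snoc B (rkLin (r1 A (pk m K)))) (rkLin (r2 A (pk m K))), ?_, ?_⟩
      · intro i
        refine Fin.lastCases ?_ (fun i => ?_) i
        · rw [Fin.snoc_last]
          exact rkLin_lin (r2_inj hA hp)
        · rw [Fin.snoc_castSucc]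
          refine Fin.lastCases ?_ (fun i => ?_) i
          · rw [Fin.snoc_last]
            exact rkLin_lin (r1_inj hA hp)
          · rw [Fin.snoc_castSucc]
            exact hB i
      · intro a b hab
        rw [wt_snoc_rk, wt_snoc_rk]
        have h1 := hm a b hab
        have h2 := two_orders hA hp hab
        have h3 : Ta (A.filter fun e => ((e.1 : ℕ) + e.2) % m < k + 1) a b =
            Ta (A.filter fun e => ((e.1 : ℕ) + e.2) % m < k) a b +
              2 * (if (b, a) ∈ A ∧ a = pk m K b then 1 else 0) -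
              2 * (if (a, b) ∈ A ∧ b = pk m K a then 1 else 0) := by
          simp only [pk_iff]
          unfold Ta
          simp only [mem_filter]
          have hKk : ((K : Fin m) : ℕ) = k := rfl
          rw [hKk]
          rcases lt_or_gt_of_ne hab with h | h
          · have n1 : (b, a) ∉ A := fun h5 => lt_asymm h (hA _ h5)
            rw [if_pos h, if_pos h, if_neg (c := (b, a) ∈ A ∧ ((b : ℕ) + a) % m = k) fun h5 => n1 h5.1]
            by_cases c1 : (a, b) ∈ A
            · simp only [c1, true_and]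
              split_ifs <;> first | (exfalso; omega) | norm_num
            · simp only [c1, false_and, if_false]
              norm_num
          · have n1 : (a, b) ∉ A := fun h5 => lt_asymm h (hA _ h5)
            rw [if_neg (not_lt.2 h.le), if_neg (not_lt.2 h.le),
              if_neg (c := (a, b) ∈ A ∧ ((a : ℕ) + b) % m = k) fun h5 => n1 h5.1]
            by_cases c1 : (b, a) ∈ A
            · simp only [c1, true_and]
              split_ifs <;> first | (exfalso; omega) | norm_num
            · simp only [c1, false_and, if_false]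
              norm_num
        rw [h3, ← h1]
        push_cast at h2 ⊢
        linarith
  obtain ⟨B, hB, h⟩ := key m le_rfl
  refine ⟨B, hB, fun a b hab => ?_⟩
  rw [h a b hab]
  congr 1
  refine filter_true_of_mem fun e _ => Nat.mod_lt _ ?_
  have := e.1.2
  omega

end Pool.Agent.Helper20.Disp
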