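import Pool.Agent.Helper20.Disp.Rand

/-!
Maximum dispersal: a tournament in which no partial order gains much more than a quarter of the pairs.
The fingerprint of a partial order, and the counting of cherries.
-/

set_option autoImplicit false

namespace Pool.Agent.Helper20.Disp

open Finset

/-- the points between the two points of a pair -/
def btw {m : ℕ} (s : Rel m) (e : Fin m × Fin m) : Finset (Fin m) :=
  univ.filter fun c => (e.1, c) ∈ s ∧ (c, e.2) ∈ s

/-- the pairs which are witnessed by a fingerprint -/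
def Fp {m t : ℕ} (D U : Fin t → Finset (Fin m)) : Rel m :=
  univ.filter fun e => ∃ i, e.1 ∈ D i ∧ e.2 ∈ U i

theorem exists_finger {m : ℕ} {s : Rel m} (hs : IsPO s) {δ : ℝ} (hδ1 : δ ≤ 1) (t : ℕ) :
    ∃ D U : Fin t → Finset (Fin m), Fp D U ⊆ s ∧
      (((s.filter fun e => δ * m < (btw s e).card ∧ e ∉ Fp D U).card : ℕ) : ℝ) ≤
        (1 - δ) ^ t * (m * m) := by
  classical
  induction t with
  | zero =>
    refine ⟨fun i => i.elim0, fun i => i.elim0, fun e he => ?_, ?_⟩
    · obtain ⟨i, -⟩ := (mem_filter.1 he).2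
      exact i.elim0
    · rw [pow_zero, one_mul]
      have h := card_le_univ (s.filter fun e => δ * m < (btw s e).card ∧
        e ∉ Fp (fun i : Fin 0 => i.elim0) (fun i : Fin 0 => i.elim0))
      rw [Fintype.card_prod, Fintype.card_fin] at h
      exact_mod_cast h
  | succ t ih =>
    obtain ⟨D, U, h1, h2⟩ := ih
    set M := s.filter fun e => δ * m < (btw s e).card ∧ e ∉ Fp D U with hM
    obtain ⟨D', U', h3, h4⟩ : ∃ D' U' : Finset (Fin m), (∀ a ∈ D', ∀ b ∈ U', (a, b) ∈ s) ∧
        δ * M.card ≤ ((M.filter fun e => e.1 ∈ D' ∧ e.2 ∈ U').card : ℝ) := by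
      rcases M.eq_empty_or_nonempty with h5 | h5
      · refine ⟨∅, ∅, fun a ha => absurd ha (notMem_empty _), ?_⟩
        rw [h5]
        simp
      · have hne : (univ : Finset (Fin m)).Nonempty := ⟨h5.choose.1, mem_univ _⟩
        obtain ⟨y, -, hy⟩ := exists_le_of_sum_le (s := (univ : Finset (Fin m))) hne
          (f := fun _ => δ * M.card) (g := fun y => ((M.filter fun e => y ∈ btw s e).card : ℝ)) (by
            rw [sum_const, card_univ, Fintype.card_fin, nsmul_eq_mul]
            have h6 : ∑ y : Fin m, ((M.filter fun e => y ∈ btw s e).card : ℝ) =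
                ∑ e ∈ M, ((btw s e).card : ℝ) := by
              simp only [card_filter]
              push_cast
              rw [sum_comm]
              refine sum_congr rfl fun e _ => ?_
              have : (btw s e).card = ∑ y, if y ∈ btw s e then 1 else 0 := by
                rw [sum_ite_mem, univ_inter, card_eq_sum_ones]
              rw [this]
              push_cast
              rfl
            rw [h6]
            have h7 : ∑ e ∈ M, δ * m ≤ ∑ e ∈ M, ((btw s e).card : ℝ) :=
              sum_le_sum fun e he => (mem_filter.1 he).2.1.le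
            rw [sum_const, nsmul_eq_mul] at h7
            linarith)
        refine ⟨univ.filter fun a => (a, y) ∈ s, univ.filter fun b => (y, b) ∈ s, ?_, ?_⟩
        · intro a ha b hb
          exact hs.2 a y b (mem_filter.1 ha).2 (mem_filter.1 hb).2
        · refine hy.trans (le_of_eq ?_)
          congr 2
          ext e
          simp only [mem_filter, btw, mem_univ, true_and]
    refine ⟨Fin.snoc D D', Fin.snoc U U', ?_, ?_⟩
    · intro e he
      obtain ⟨i, hi⟩ := (mem_filter.1 he).2
      revert hi
      refine Fin.lastCases ?_ (fun i => ?_) i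
      · rw [Fin.snoc_last, Fin.snoc_last]
        exact fun hi => h3 _ hi.1 _ hi.2
      · rw [Fin.snoc_castSucc, Fin.snoc_castSucc]
        exact fun hi => h1 (mem_filter.2 ⟨mem_univ _, i, hi⟩)
    · have h5 : (s.filter fun e => δ * m < (btw s e).card ∧
          e ∉ Fp (Fin.snoc D D' : Fin (t + 1) → Finset (Fin m)) (Fin.snoc U U')) ⊆
          M \ (M.filter fun e => e.1 ∈ D' ∧ e.2 ∈ U') := by
        intro e he
        rw [mem_filter] at he
        rw [mem_sdiff, hM, mem_filter, mem_filter, mem_filter]
        have h6 : e ∉ Fp D U := by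
          intro h7
          obtain ⟨i, hi⟩ := (mem_filter.1 h7).2
          refine he.2.2 (mem_filter.2 ⟨mem_univ _, i.castSucc, ?_⟩)
          rw [Fin.snoc_castSucc, Fin.snoc_castSucc]
          exact hi
        refine ⟨⟨he.1, he.2.1, h6⟩, fun h7 => he.2.2 (mem_filter.2 ⟨mem_univ _, Fin.last t, ?_⟩)⟩
        rw [Fin.snoc_last, Fin.snoc_last]
        exact h7.2
      have h6 : (((s.filter fun e => δ * m < (btw s e).card ∧
          e ∉ Fp (Fin.snoc D D' : Fin (t + 1) → Finset (Fin m)) (Fin.snoc U U')).card : ℕ) : ℝ) ≤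
          M.card - (M.filter fun e => e.1 ∈ D' ∧ e.2 ∈ U').card := by
        have h7 := card_le_card h5
        rw [card_sdiff_of_subset (filter_subset _ _)] at h7
        have h8 := card_filter_le M fun e => e.1 ∈ D' ∧ e.2 ∈ U'
        rw [← Nat.cast_sub h8]
        exact_mod_cast h7
      refine h6.trans ?_
      rw [pow_succ]
      have h7 : (0 : ℝ) ≤ 1 - δ := by linarith
      nlinarith [mul_le_mul_of_nonneg_left h2 h7]

/-! ### The functions -/

/-- thin pairs along the tournament -/
def hh {m : ℕ} (s Q : Rel m) (T : Fin m → Fin m → ℤ) (x y : Fin m) : ℤ :=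
  if (x, y) ∈ s ∧ (x, y) ∉ Q ∧ T x y = 1 then 1 else 0

/-- thick pairs -/
def ff {m : ℕ} (Q : Rel m) (x y : Fin m) : ℤ := if (x, y) ∈ Q then 1 else 0

/-- pairs which are not thick -/
def oo {m : ℕ} (Q : Rel m) (x y : Fin m) : ℤ := if x ≠ y ∧ (x, y) ∉ Q ∧ (y, x) ∉ Q then 1 else 0

/-- the arcs of the tournament -/
def gg {m : ℕ} (T : Fin m → Fin m → ℤ) (x y : Fin m) : ℤ := if T x y = 1 then 1 else 0

/-- chains with a thin outer pair -/
def ex {m : ℕ} (s Q : Rel m) (x y z : Fin m) : ℤ :=
  if (x, y) ∈ s ∧ (y, z) ∈ s ∧ (x, z) ∉ Q then 1 else 0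

/-- the margins of a tournament -/
structure IsT {m : ℕ} (T : Fin m → Fin m → ℤ) : Prop where
  diag : ∀ a, T a a = 0
  anti : ∀ a b, T b a = - T a b
  one : ∀ a b, a ≠ b → T a b = 1 ∨ T a b = -1

section pointwise

variable {m : ℕ} {s Q : Rel m} {T : Fin m → Fin m → ℤ}

theorem hh_01 (x y : Fin m) : 0 ≤ hh s Q T x y ∧ hh s Q T x y ≤ 1 := by
  unfold hh
  split_ifs <;> norm_num

theorem gg_01 (x y : Fin m) : 0 ≤ gg T x y ∧ gg T x y ≤ 1 := by
  unfold gg
  split_ifs <;> norm_num

theorem oo_01 (x y : Fin m) : 0 ≤ oo Q x y ∧ oo Q x y ≤ 1 := by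
  unfold oo
  split_ifs <;> norm_num

theorem ff_01 (x y : Fin m) : 0 ≤ ff Q x y ∧ ff Q x y ≤ 1 := by
  unfold ff
  split_ifs <;> norm_num

theorem ex_01 (x y z : Fin m) : 0 ≤ ex s Q x y z ∧ ex s Q x y z ≤ 1 := by
  unfold ex
  split_ifs <;> norm_num

theorem oo_symm (x y : Fin m) : oo Q x y = oo Q y x := by
  unfold oo
  congr 1
  rw [eq_iff_iff]
  constructor
  · rintro ⟨h1, h2, h3⟩
    exact ⟨h1.symm, h3, h2⟩
  · rintro ⟨h1, h2, h3⟩
    exact ⟨h1.symm, h3, h2⟩

theorem T_abs (hT : IsT T) (x y : Fin m) : -1 ≤ T x y ∧ T x y ≤ 1 := by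
  by_cases h : x = y
  · subst h
    rw [hT.diag]
    norm_num
  · rcases hT.one x y h with h | h <;> rw [h] <;> norm_num

/-- the weights of the third point -/
theorem pt (hs : IsPO s) (hQ : Q ⊆ s) (hT : IsT T) (x y z : Fin m) :
    hh s Q T x y * (8 * (hh s Q T x z * gg T z y) + 8 * (hh s Q T z y * gg T x z) +
        4 * hh s Q T y z + 4 * hh s Q T z x) ≤
      hh s Q T x y * (2 + oo Q y z * T y z * (-(oo Q x z * (2 + T x z)) + 2 * ff Q x z) +
        oo Q x z * T x z * (oo Q y z * (2 - T y z) - 2 * ff Q z y)) +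
      40 * (ex s Q x z y + ex s Q z x y + ex s Q x y z) := by
  have e1 := ex_01 (s := s) (Q := Q) x z y
  have e2 := ex_01 (s := s) (Q := Q) z x y
  have e3 := ex_01 (s := s) (Q := Q) x y z
  by_cases hxy : (x, y) ∈ s ∧ (x, y) ∉ Q ∧ T x y = 1
  swap
  · have h0 : hh s Q T x y = 0 := if_neg hxy
    rw [h0, zero_mul, zero_mul]
    linarith
  have h0 : hh s Q T x y = 1 := if_pos hxy
  obtain ⟨hxs, hxQ, hxT⟩ := hxy
  rw [h0, one_mul, one_mul]
  have hyx : (y, x) ∉ s := asymm hs hxs
  by_cases hex : ((x, z) ∈ s ∧ (z, y) ∈ s) ∨ ((z, x) ∈ s ∧ (z, y) ∉ Q) ∨ ((y, z) ∈ s ∧ (x, z) ∉ Q)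
  · have h1 : 1 ≤ ex s Q x z y + ex s Q z x y + ex s Q x y z := by
      rcases hex with h | h | h
      · have : ex s Q x z y = 1 := if_pos ⟨h.1, h.2, hxQ⟩
        linarith
      · have : ex s Q z x y = 1 := if_pos ⟨h.1, hxs, h.2⟩
        linarith
      · have : ex s Q x y z = 1 := if_pos ⟨hxs, h.1, h.2⟩
        linarith
    have a1 := hh_01 (s := s) (Q := Q) (T := T) x z
    have a2 := hh_01 (s := s) (Q := Q) (T := T) z y
    have a3 := hh_01 (s := s) (Q := Q) (T := T) y z
    have a4 := hh_01 (s := s) (Q := Q) (T := T) z x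
    have b1 := gg_01 (T := T) z y
    have b2 := gg_01 (T := T) x z
    have c1 := T_abs hT x z
    have c2 := T_abs hT y z
    have l1 : hh s Q T x z * gg T z y ≤ 1 := by nlinarith
    have l2 : hh s Q T z y * gg T x z ≤ 1 := by nlinarith
    have r1 : -5 ≤ oo Q y z * T y z * (-(oo Q x z * (2 + T x z)) + 2 * ff Q x z) := by
      have d1 := oo_01 (Q := Q) y z
      have d2 := oo_01 (Q := Q) x z
      have d3 := ff_01 (Q := Q) x z
      generalize oo Q y z = o1 at *
      generalize oo Q x z = o2 at *
      generalize ff Q x z = f at *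
      generalize T y z = t1 at *
      generalize T x z = t2 at *
      obtain ⟨d11, d12⟩ := d1
      obtain ⟨d21, d22⟩ := d2
      obtain ⟨d31, d32⟩ := d3
      obtain ⟨c11, c12⟩ := c1
      obtain ⟨c21, c22⟩ := c2
      interval_cases o1 <;> interval_cases o2 <;> interval_cases f <;> interval_cases t1 <;>
        interval_cases t2 <;> norm_num
    have r2 : -5 ≤ oo Q x z * T x z * (oo Q y z * (2 - T y z) - 2 * ff Q z y) := by
      have d1 := oo_01 (Q := Q) y z
      have d2 := oo_01 (Q := Q) x z
      have d3 := ff_01 (Q := Q) z y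
      generalize oo Q y z = o1 at *
      generalize oo Q x z = o2 at *
      generalize ff Q z y = f at *
      generalize T y z = t1 at *
      generalize T x z = t2 at *
      obtain ⟨d11, d12⟩ := d1
      obtain ⟨d21, d22⟩ := d2
      obtain ⟨d31, d32⟩ := d3
      obtain ⟨c11, c12⟩ := c1
      obtain ⟨c21, c22⟩ := c2
      interval_cases o1 <;> interval_cases o2 <;> interval_cases f <;> interval_cases t1 <;>
        interval_cases t2 <;> norm_num
    linarith
  · have hn : 0 ≤ 40 * (ex s Q x z y + ex s Q z x y + ex s Q x y z) := by linarith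
    refine le_trans ?_ (le_add_of_nonneg_right hn)
    rw [not_or, not_or] at hex
    obtain ⟨k1, k2, k3⟩ := hex
    have hself : ∀ a : Fin m, (a, a) ∉ s := hs.1
    -- the third point equal to one of the two
    by_cases hzx : z = x
    · subst hzx
      have i1 : hh s Q T z z = 0 := if_neg fun h => hself z h.1
      have i2 : gg T z z = 0 := if_neg fun h => by rw [hT.diag] at h; exact absurd h (by norm_num)
      have i3 : hh s Q T y z = 0 := if_neg fun h => hyx h.1
      have i4 : oo Q z z = 0 := if_neg fun h => h.1 rfl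
      have i5 : ff Q z z = 0 := if_neg fun h => hself z (hQ h)
      rw [i1, i2, i3, i4, i5]
      norm_num
    by_cases hzy : z = y
    · subst hzy
      have i1 : hh s Q T z z = 0 := if_neg fun h => hself z h.1
      have i2 : gg T z z = 0 := if_neg fun h => by rw [hT.diag] at h; exact absurd h (by norm_num)
      have i3 : hh s Q T z x = 0 := if_neg fun h => hyx h.1
      have i4 : oo Q z z = 0 := if_neg fun h => h.1 rfl
      have i5 : ff Q z z = 0 := if_neg fun h => hself z (hQ h)
      rw [i1, i2, i3, i4, i5]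
      norm_num
    have hxz : x ≠ z := fun h => hzx h.symm
    have hyz : y ≠ z := fun h => hzy h.symm
    have t1 := hT.one x z hxz
    have t2 := hT.one y z hyz
    have t3 := hT.anti x z
    have t4 := hT.anti y z
    by_cases ox : (x, z) ∉ Q ∧ (z, x) ∉ Q
    · have oxe : oo Q x z = 1 := if_pos ⟨hxz, ox⟩
      have fxe : ff Q x z = 0 := if_neg ox.1
      by_cases oy : (y, z) ∉ Q ∧ (z, y) ∉ Q
      · -- both pairs are not thick
        have oye : oo Q y z = 1 := if_pos ⟨hyz, oy⟩
        have fye : ff Q z y = 0 := if_neg oy.2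
        have n1 : (z, x) ∉ s := fun h => k2 ⟨h, oy.2⟩
        have n2 : (y, z) ∉ s := fun h => k3 ⟨h, ox.1⟩
        have i1 : hh s Q T z x = 0 := if_neg fun h => n1 h.1
        have i2 : hh s Q T y z = 0 := if_neg fun h => n2 h.1
        rw [i1, i2, oxe, oye, fxe, fye]
        by_cases c : (x, z) ∈ s
        · have i3 : hh s Q T z y = 0 := if_neg fun h => k1 ⟨c, h.1⟩
          rw [i3]
          have i4 : hh s Q T x z ≤ 1 := (hh_01 x z).2
          have i4' : 0 ≤ hh s Q T x z := (hh_01 x z).1
          rcases t1 with t1 | t1 <;> rcases t2 with t2 | t2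
          · have i5 : gg T z y = 0 := if_neg (by rw [t4, t2]; norm_num)
            rw [i5, t1, t2]
            norm_num
          · have i5 : gg T z y = 1 := if_pos (by rw [t4, t2]; norm_num)
            rw [i5, t1, t2]
            linarith
          · have i5 : gg T z y = 0 := if_neg (by rw [t4, t2]; norm_num)
            rw [i5, t1, t2]
            norm_num
          · have i5 : hh s Q T x z = 0 := if_neg fun h => by rw [t1] at h; exact absurd h.2.2 (by norm_num)
            rw [i5, t1, t2]
            norm_num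
        · have i3 : hh s Q T x z = 0 := if_neg fun h => c h.1
          rw [i3]
          have i4 : hh s Q T z y ≤ 1 := (hh_01 z y).2
          have i4' : 0 ≤ hh s Q T z y := (hh_01 z y).1
          rcases t1 with t1 | t1 <;> rcases t2 with t2 | t2
          · have i5 : hh s Q T z y = 0 :=
              if_neg fun h => by rw [t4, t2] at h; exact absurd h.2.2 (by norm_num)
            rw [i5, t1, t2]
            norm_num
          · have i5 : gg T x z = 1 := if_pos t1
            rw [i5, t1, t2]
            linarith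
          · have i5 : gg T x z = 0 := if_neg (by rw [t1]; norm_num)
            rw [i5, t1, t2]
            norm_num
          · have i5 : gg T x z = 0 := if_neg (by rw [t1]; norm_num)
            rw [i5, t1, t2]
            norm_num
      · -- `y z` is thick
        have oye : oo Q y z = 0 := if_neg fun h => oy h.2
        have q1 : (y, z) ∉ Q := fun h => k3 ⟨hQ h, ox.1⟩
        have q2 : (z, y) ∈ Q := by
          by_contra h
          exact oy ⟨q1, h⟩
        have fye : ff Q z y = 1 := if_pos q2
        have i1 : hh s Q T z y = 0 := if_neg fun h => h.2.1 q2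
        have i2 : hh s Q T y z = 0 := if_neg fun h => asymm hs (hQ q2) h.1
        have i3 : hh s Q T x z = 0 := if_neg fun h => k1 ⟨h.1, hQ q2⟩
        rw [i1, i2, i3, oxe, oye, fye]
        have i4 : hh s Q T z x ≤ 1 := (hh_01 z x).2
        rcases t1 with t1 | t1
        · have i5 : hh s Q T z x = 0 :=
            if_neg fun h => by rw [t3, t1] at h; exact absurd h.2.2 (by norm_num)
          rw [i5, t1]
          norm_num
        · rw [t1]
          linarith
    · have oxe : oo Q x z = 0 := if_neg fun h => ox h.2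
      have hx0 : hh s Q T x z = 0 ∧ hh s Q T z x = 0 := by
        by_cases c : (x, z) ∈ Q
        · exact ⟨if_neg fun h => h.2.1 c, if_neg fun h => asymm hs (hQ c) h.1⟩
        · have c' : (z, x) ∈ Q := by
            by_contra h
            exact ox ⟨c, h⟩
          exact ⟨if_neg fun h => asymm hs (hQ c') h.1, if_neg fun h => h.2.1 c'⟩
      rw [hx0.1, hx0.2, oxe]
      by_cases oy : (y, z) ∉ Q ∧ (z, y) ∉ Q
      · have oye : oo Q y z = 1 := if_pos ⟨hyz, oy⟩
        have q1 : (z, x) ∉ Q := fun h => k2 ⟨hQ h, oy.2⟩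
        have q2 : (x, z) ∈ Q := by
          by_contra h
          exact ox ⟨h, q1⟩
        have fxe : ff Q x z = 1 := if_pos q2
        have i1 : hh s Q T z y = 0 := if_neg fun h => k1 ⟨hQ q2, h.1⟩
        rw [i1, oye, fxe]
        have i4 : hh s Q T y z ≤ 1 := (hh_01 y z).2
        rcases t2 with t2 | t2
        · rw [t2]
          linarith
        · have i5 : hh s Q T y z = 0 :=
            if_neg fun h => by rw [t2] at h; exact absurd h.2.2 (by norm_num)
          rw [i5, t2]
          norm_num
      · have oye : oo Q y z = 0 := if_neg fun h => oy h.2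
        have hy0 : hh s Q T y z = 0 ∧ hh s Q T z y = 0 := by
          by_cases c : (y, z) ∈ Q
          · exact ⟨if_neg fun h => h.2.1 c, if_neg fun h => asymm hs (hQ c) h.1⟩
          · have c' : (z, y) ∈ Q := by
              by_contra h
              exact oy ⟨c, h⟩
            exact ⟨if_neg fun h => asymm hs (hQ c') h.1, if_neg fun h => h.2.1 c'⟩
        rw [hy0.1, hy0.2, oye]
        norm_num

end pointwise

end Pool.Agent.Helper20.Disp
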