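import Pool.Agent.Helper20.Disp.Part

/-!
Maximum dispersal: the number of thin pairs along a balanced tournament.
-/

set_option autoImplicit false

namespace Pool.Agent.Helper20.Disp

open Finset

variable {m : ℕ} {s Q : Rel m} {T : Fin m → Fin m → ℤ}

/-- the sum over a rectangle -/
def rect (Q : Rel m) (T : Fin m → Fin m → ℤ) (X Y : Finset (Fin m)) : ℤ :=
  ∑ y ∈ X, ∑ z ∈ Y, oo Q y z * T y z

theorem rect_anti (hT : IsT T) (X Y : Finset (Fin m)) : rect Q T X Y = - rect Q T Y X := by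
  unfold rect
  rw [sum_comm, ← sum_neg_distrib]
  refine sum_congr rfl fun z _ => ?_
  rw [← sum_neg_distrib]
  refine sum_congr rfl fun y _ => ?_
  rw [oo_symm, hT.anti z y]
  ring

theorem rect_eq (X Y : Finset (Fin m)) : rect Q T X Y =
    ∑ y, ∑ z, (if y ∈ X then 1 else 0) * (oo Q y z * T y z * (if z ∈ Y then 1 else 0)) := by
  unfold rect
  have h1 : ∀ y, ∑ z, (if y ∈ X then (1 : ℤ) else 0) * (oo Q y z * T y z * (if z ∈ Y then 1 else 0)) =
      if y ∈ X then ∑ z ∈ Y, oo Q y z * T y z else 0 := by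
    intro y
    by_cases h : y ∈ X
    · simp only [if_pos h, one_mul, mul_ite, mul_one, mul_zero]
      rw [sum_ite_mem, univ_inter]
    · simp only [if_neg h, zero_mul, sum_const_zero]
  rw [sum_congr rfl fun y _ => h1 y, sum_ite_mem, univ_inter]

/-- a bounded weight on the third point -/
theorem rect_w (hT : IsT T) {η : ℝ} (hη : ∀ X Y : Finset (Fin m), (rect Q T X Y : ℝ) ≤ η)
    (a w : Fin m → ℤ) (ha : ∀ y, a y = 0 ∨ a y = 1) (σ : ℤ) (hσ : σ = 1 ∨ σ = -1)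
    (hw' : ∀ z, w z = σ ∨ w z = 3 * σ ∨ w z = -2 * σ ∨ w z = 0) :
    ((∑ y, ∑ z, a y * (oo Q y z * T y z * w z) : ℤ) : ℝ) ≤ 6 * η := by
  classical
  have hη' : ∀ X Y : Finset (Fin m), -η ≤ (rect Q T X Y : ℝ) := by
    intro X Y
    rw [rect_anti hT]
    push_cast
    linarith [hη Y X]
  set X := univ.filter fun y => a y = 1 with hX
  set Z1 := univ.filter fun z => w z = σ with hZ1
  set Z2 := univ.filter fun z => w z = 3 * σ with hZ2
  set Z3 := univ.filter fun z => w z = -2 * σ with hZ3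
  have h1 : ∀ y, a y = if y ∈ X then 1 else 0 := by
    intro y
    rcases ha y with h | h
    · rw [if_neg, h]
      rw [hX, mem_filter, h]
      simp
    · rw [if_pos, h]
      rw [hX, mem_filter]
      exact ⟨mem_univ _, h⟩
  have h2 : ∀ z, w z = σ * (if z ∈ Z1 then 1 else 0) + 3 * σ * (if z ∈ Z2 then 1 else 0) +
      -2 * σ * (if z ∈ Z3 then 1 else 0) := by
    intro z
    rw [hZ1, hZ2, hZ3]
    simp only [mem_filter, mem_univ, true_and]
    rcases hσ with rfl | rfl <;> rcases hw' z with h | h | h | h <;> rw [h] <;> norm_num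
  have h3 : ∑ y, ∑ z, a y * (oo Q y z * T y z * w z) =
      σ * rect Q T X Z1 + 3 * σ * rect Q T X Z2 + -2 * σ * rect Q T X Z3 := by
    rw [rect_eq, rect_eq, rect_eq]
    simp only [mul_sum, ← sum_add_distrib]
    refine sum_congr rfl fun y _ => sum_congr rfl fun z _ => ?_
    rw [h2 z, h1 y]
    ring
  rw [h3]
  push_cast
  have a1 := hη X Z1
  have a2 := hη X Z2
  have a3 := hη X Z3
  have b1 := hη' X Z1
  have b2 := hη' X Z2
  have b3 := hη' X Z3
  rcases hσ with rfl | rfl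
  · push_cast
    linarith
  · push_cast
    linarith

theorem gg_pair (hT : IsT T) (y z : Fin m) : gg T z y + gg T y z = if y = z then 0 else 1 := by
  unfold gg
  by_cases h : y = z
  · subst h
    rw [hT.diag, if_pos rfl]
    norm_num
  · rw [if_neg h, hT.anti y z]
    rcases hT.one y z h with h1 | h1 <;> rw [h1] <;> norm_num

theorem cherry (hT : IsT T) (a : Fin m → ℤ) (ha : ∀ y, a y = 0 ∨ a y = 1) :
    2 * ∑ y, ∑ z, a y * (a z * gg T z y) = (∑ y, a y) ^ 2 - ∑ y, a y := by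
  have h1 : ∑ y, ∑ z, a y * (a z * gg T z y) = ∑ y, ∑ z, a y * (a z * gg T y z) := by
    rw [sum_comm]
    refine sum_congr rfl fun y _ => sum_congr rfl fun z _ => ?_
    ring
  have h2 : 2 * ∑ y, ∑ z, a y * (a z * gg T z y) =
      ∑ y, ∑ z, a y * (a z * (if y = z then 0 else 1)) := by
    rw [two_mul]
    nth_rewrite 2 [h1]
    rw [← sum_add_distrib]
    refine sum_congr rfl fun y _ => ?_
    rw [← sum_add_distrib]
    refine sum_congr rfl fun z _ => ?_
    rw [← gg_pair hT y z]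
    ring
  rw [h2]
  have h3 : ∀ y, ∑ z, a y * (a z * (if y = z then 0 else 1)) = a y * ∑ z, a z - a y := by
    intro y
    have h4 : ∀ z, a y * (a z * (if y = z then 0 else 1)) = a y * a z - (if y = z then a y * a z else 0) := by
      intro z
      split_ifs <;> ring
    rw [sum_congr rfl fun z _ => h4 z, sum_sub_distrib, ← mul_sum, sum_ite_eq, if_pos (mem_univ _)]
    rcases ha y with h | h <;> rw [h] <;> ring
  rw [sum_congr rfl fun y _ => h3 y, sum_sub_distrib, ← sum_mul]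
  ring

theorem cherry' (hT : IsT T) (a : Fin m → ℤ) (ha : ∀ y, a y = 0 ∨ a y = 1) :
    2 * ∑ y, ∑ z, a y * (a z * gg T y z) = (∑ y, a y) ^ 2 - ∑ y, a y := by
  rw [← cherry hT a ha, sum_comm]
  congr 1
  refine sum_congr rfl fun y _ => sum_congr rfl fun z _ => ?_
  ring

theorem hh_or (x y : Fin m) : hh s Q T x y = 0 ∨ hh s Q T x y = 1 := by
  unfold hh
  split_ifs
  · exact Or.inr rfl
  · exact Or.inl rfl

/-- the left side -/
theorem left_sum (hT : IsT T) :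
    ∑ x, ∑ y, ∑ z, hh s Q T x y * (8 * (hh s Q T x z * gg T z y) + 8 * (hh s Q T z y * gg T x z) +
        4 * hh s Q T y z + 4 * hh s Q T z x) =
      4 * ∑ a, (∑ y, hh s Q T a y + ∑ x, hh s Q T x a) ^ 2 - 8 * ∑ x, ∑ y, hh s Q T x y := by
  set h := hh s Q T with hh'
  have e1 : ∑ x, ∑ y, ∑ z, h x y * (h x z * gg T z y) * 2 = ∑ x, ((∑ y, h x y) ^ 2 - ∑ y, h x y) := by
    refine sum_congr rfl fun x _ => ?_
    rw [← cherry hT (fun y => h x y) fun y => hh_or x y, mul_sum]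
    refine sum_congr rfl fun y _ => ?_
    rw [mul_sum]
    refine sum_congr rfl fun z _ => ?_
    ring
  have e2 : ∑ x, ∑ y, ∑ z, h x y * (h z y * gg T x z) * 2 = ∑ y, ((∑ x, h x y) ^ 2 - ∑ x, h x y) := by
    rw [sum_comm]
    refine sum_congr rfl fun y _ => ?_
    rw [← cherry' hT (fun x => h x y) fun x => hh_or x y, mul_sum]
    refine sum_congr rfl fun x _ => ?_
    rw [mul_sum]
    refine sum_congr rfl fun z _ => ?_
    ring
  have e3 : ∑ x, ∑ y, ∑ z, h x y * h y z = ∑ y, (∑ x, h x y) * (∑ z, h y z) := by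
    rw [sum_comm]
    refine sum_congr rfl fun y _ => ?_
    rw [sum_mul_sum]
  have e4 : ∑ x, ∑ y, ∑ z, h x y * h z x = ∑ x, (∑ y, h x y) * (∑ z, h z x) := by
    refine sum_congr rfl fun x _ => ?_
    rw [sum_mul_sum]
  have e5 : ∑ x, ∑ y, ∑ z, h x y * (8 * (h x z * gg T z y) + 8 * (h z y * gg T x z) +
        4 * h y z + 4 * h z x) =
      4 * (∑ x, ∑ y, ∑ z, h x y * (h x z * gg T z y) * 2) +
      4 * (∑ x, ∑ y, ∑ z, h x y * (h z y * gg T x z) * 2) +
      4 * (∑ x, ∑ y, ∑ z, h x y * h y z) + 4 * (∑ x, ∑ y, ∑ z, h x y * h z x) := by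
    simp only [mul_sum, ← sum_add_distrib]
    refine sum_congr rfl fun x _ => sum_congr rfl fun y _ => sum_congr rfl fun z _ => ?_
    ring
  rw [e5, e1, e2, e3, e4]
  have e6 : ∑ x, ∑ y, h x y = ∑ a, ∑ x, h x a := by rw [sum_comm]
  have e7 : 8 * ∑ x, ∑ y, h x y = 4 * ∑ x, ∑ y, h x y + 4 * ∑ a, ∑ x, h x a := by
    rw [← e6]
    ring
  rw [e7]
  simp only [mul_sum (s := (univ : Finset (Fin m))) (f := fun a => (∑ y, h a y + ∑ x, h x a) ^ 2)]
  rw [mul_sum, mul_sum, mul_sum, mul_sum, mul_sum, mul_sum, ← sum_add_distrib, ← sum_add_distrib,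
    ← sum_add_distrib, ← sum_add_distrib, ← sum_sub_distrib]
  refine sum_congr rfl fun a _ => ?_
  ring

/-- the error term -/
theorem ex_sum (hs : IsPO s) {δ : ℝ} (hδ : 0 ≤ δ)
    (hthin : ∀ e ∈ s, e ∉ Q → ((btw s e).card : ℝ) ≤ δ * m) :
    ((∑ x, ∑ y, ∑ z, ex s Q x y z : ℤ) : ℝ) ≤ δ * m ^ 3 := by
  classical
  have h1 : ∀ x z, ((∑ y, ex s Q x y z : ℤ) : ℝ) ≤ δ * m := by
    intro x z
    by_cases h2 : (x, z) ∈ s ∧ (x, z) ∉ Q
    · refine le_trans (le_of_eq ?_) (hthin _ h2.1 h2.2)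
      rw [btw, card_filter]
      push_cast
      refine sum_congr rfl fun y _ => ?_
      unfold ex
      by_cases h3 : (x, y) ∈ s ∧ (y, z) ∈ s
      · rw [if_pos ⟨h3.1, h3.2, h2.2⟩, if_pos h3]
        norm_num
      · rw [if_neg fun h => h3 ⟨h.1, h.2.1⟩, if_neg h3]
        norm_num
    · have h3 : ∑ y, ex s Q x y z = 0 := by
        refine sum_eq_zero fun y _ => if_neg fun h => h2 ⟨hs.2 _ _ _ h.1 h.2.1, h.2.2⟩
      rw [h3, Int.cast_zero]
      positivity
  have h2 : ∑ x, ∑ y, ∑ z, ex s Q x y z = ∑ x, ∑ z, ∑ y, ex s Q x y z :=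
    sum_congr rfl fun x _ => sum_comm
  rw [h2]
  push_cast
  have h3 : ∑ x : Fin m, ∑ z : Fin m, ((∑ y, ex s Q x y z : ℤ) : ℝ) ≤
      ∑ x : Fin m, ∑ z : Fin m, δ * m := sum_le_sum fun x _ => sum_le_sum fun z _ => h1 x z
  simp only [sum_const, card_univ, Fintype.card_fin, nsmul_eq_mul] at h3
  push_cast at h3
  refine h3.trans (le_of_eq ?_)
  ring

theorem oo_or (x y : Fin m) : oo Q x y = 0 ∨ (oo Q x y = 1 ∧ x ≠ y ∧ (x, y) ∉ Q ∧ (y, x) ∉ Q) := by
  unfold oo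
  split_ifs with h
  · exact Or.inr ⟨rfl, h⟩
  · exact Or.inl rfl

theorem ff_or (x y : Fin m) : ff Q x y = 0 ∨ (ff Q x y = 1 ∧ (x, y) ∈ Q) := by
  unfold ff
  split_ifs with h
  · exact Or.inr ⟨rfl, h⟩
  · exact Or.inl rfl

/-- **The main inequality.** -/
theorem thin_le (hs : IsPO s) (hQ : Q ⊆ s) (hT : IsT T) {η δ : ℝ} (hδ : 0 ≤ δ)
    (hη : ∀ X Y : Finset (Fin m), (rect Q T X Y : ℝ) ≤ η)
    (hthin : ∀ e ∈ s, e ∉ Q → ((btw s e).card : ℝ) ≤ δ * m) :
    16 * ((∑ x, ∑ y, hh s Q T x y : ℤ) : ℝ) ^ 2 ≤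
      m * ((2 * m + 8) * ((∑ x, ∑ y, hh s Q T x y : ℤ) : ℝ) + 12 * m * η + 120 * δ * m ^ 3) := by
  have h1 := sum_le_sum (s := (univ : Finset (Fin m))) fun x _ =>
    sum_le_sum (s := (univ : Finset (Fin m))) fun y _ =>
      sum_le_sum (s := (univ : Finset (Fin m))) fun z _ => pt hs hQ hT x y z
  rw [left_sum hT] at h1
  set H := ∑ x, ∑ y, hh s Q T x y with hH
  -- the right side
  have h2 : ∑ x, ∑ y, ∑ z, (hh s Q T x y * (2 + oo Q y z * T y z * (-(oo Q x z * (2 + T x z)) +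
        2 * ff Q x z) + oo Q x z * T x z * (oo Q y z * (2 - T y z) - 2 * ff Q z y)) +
      40 * (ex s Q x z y + ex s Q z x y + ex s Q x y z)) =
      2 * m * H +
      ∑ x, ∑ y, ∑ z, hh s Q T x y * (oo Q y z * T y z * (-(oo Q x z * (2 + T x z)) + 2 * ff Q x z)) +
      ∑ y, ∑ x, ∑ z, hh s Q T x y * (oo Q x z * T x z * (oo Q y z * (2 - T y z) - 2 * ff Q z y)) +
      120 * ∑ x, ∑ y, ∑ z, ex s Q x y z := by
    have a1 : ∑ x, ∑ y, ∑ z : Fin m, 2 * hh s Q T x y = 2 * m * H := by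
      simp only [sum_const, card_univ, Fintype.card_fin, nsmul_eq_mul, hH, mul_sum]
      refine sum_congr rfl fun x _ => sum_congr rfl fun y _ => ?_
      ring
    have a2 : ∑ x, ∑ y, ∑ z, ex s Q x z y = ∑ x, ∑ y, ∑ z, ex s Q x y z :=
      sum_congr rfl fun x _ => sum_comm
    have a3 : ∑ x, ∑ y, ∑ z, ex s Q z x y = ∑ x, ∑ y, ∑ z, ex s Q x y z := by
      calc ∑ x, ∑ y, ∑ z, ex s Q z x y = ∑ x, ∑ z, ∑ y, ex s Q z x y :=
            sum_congr rfl fun x _ => sum_comm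
        _ = ∑ z, ∑ x, ∑ y, ex s Q z x y := sum_comm
    have a4 : ∑ y, ∑ x, ∑ z, hh s Q T x y * (oo Q x z * T x z * (oo Q y z * (2 - T y z) - 2 * ff Q z y)) =
        ∑ x, ∑ y, ∑ z, hh s Q T x y * (oo Q x z * T x z * (oo Q y z * (2 - T y z) - 2 * ff Q z y)) :=
      sum_comm
    have a5 : 120 * ∑ x, ∑ y, ∑ z, ex s Q x y z = 40 * (∑ x, ∑ y, ∑ z, ex s Q x z y +
        ∑ x, ∑ y, ∑ z, ex s Q z x y + ∑ x, ∑ y, ∑ z, ex s Q x y z) := by
      rw [a2, a3]
      ring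
    rw [← a1, a4, a5]
    simp only [mul_sum, ← sum_add_distrib]
    refine sum_congr rfl fun x _ => sum_congr rfl fun y _ => sum_congr rfl fun z _ => ?_
    ring
  rw [h2] at h1
  have h3 : ((∑ x, ∑ y, ∑ z, hh s Q T x y * (oo Q y z * T y z * (-(oo Q x z * (2 + T x z)) +
      2 * ff Q x z)) : ℤ) : ℝ) ≤ m * (6 * η) := by
    rw [Int.cast_sum]
    have b1 : ∀ x ∈ (univ : Finset (Fin m)), ((∑ y, ∑ z, hh s Q T x y * (oo Q y z * T y z *
        (-(oo Q x z * (2 + T x z)) + 2 * ff Q x z)) : ℤ) : ℝ) ≤ 6 * η := by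
      intro x _
      refine rect_w hT hη (fun y => hh s Q T x y)
        (fun z => -(oo Q x z * (2 + T x z)) + 2 * ff Q x z) (fun y => hh_or x y) (-1)
        (Or.inr rfl) ?_
      · intro z
        rcases oo_or (Q := Q) x z with h | ⟨h, h', h'', h'''⟩ <;>
          rcases ff_or (Q := Q) x z with g | ⟨g, g'⟩
        · rw [h, g]; norm_num
        · rw [h, g]; norm_num
        · rw [h, g]
          rcases hT.one x z h' with t | t <;> rw [t] <;> norm_num
        · exact absurd g' h''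
    refine (sum_le_sum b1).trans (le_of_eq ?_)
    rw [sum_const, card_univ, Fintype.card_fin, nsmul_eq_mul]
  have h4 : ((∑ y, ∑ x, ∑ z, hh s Q T x y * (oo Q x z * T x z * (oo Q y z * (2 - T y z) -
      2 * ff Q z y)) : ℤ) : ℝ) ≤ m * (6 * η) := by
    rw [Int.cast_sum]
    have b1 : ∀ y ∈ (univ : Finset (Fin m)), ((∑ x, ∑ z, hh s Q T x y * (oo Q x z * T x z *
        (oo Q y z * (2 - T y z) - 2 * ff Q z y)) : ℤ) : ℝ) ≤ 6 * η := by
      intro y _
      refine rect_w hT hη (fun x => hh s Q T x y)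
        (fun z => oo Q y z * (2 - T y z) - 2 * ff Q z y) (fun x => hh_or x y) 1
        (Or.inl rfl) ?_
      · intro z
        rcases oo_or (Q := Q) y z with h | ⟨h, h', h'', h'''⟩ <;>
          rcases ff_or (Q := Q) z y with g | ⟨g, g'⟩
        · rw [h, g]; norm_num
        · rw [h, g]; norm_num
        · rw [h, g]
          rcases hT.one y z h' with t | t <;> rw [t] <;> norm_num
        · exact absurd g' h'''
    refine (sum_le_sum b1).trans (le_of_eq ?_)
    rw [sum_const, card_univ, Fintype.card_fin, nsmul_eq_mul]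
  have h5 := ex_sum hs hδ hthin
  -- Cauchy-Schwarz
  have h6 : (∑ a, (∑ y, hh s Q T a y + ∑ x, hh s Q T x a)) ^ 2 ≤
      m * ∑ a, (∑ y, hh s Q T a y + ∑ x, hh s Q T x a) ^ 2 := by
    have := sq_sum_le_card_mul_sum_sq (s := (univ : Finset (Fin m)))
      (f := fun a => ∑ y, hh s Q T a y + ∑ x, hh s Q T x a)
    rw [card_univ, Fintype.card_fin] at this
    exact this
  have h7 : ∑ a, (∑ y, hh s Q T a y + ∑ x, hh s Q T x a) = 2 * H := by
    rw [sum_add_distrib, hH, two_mul]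
    congr 1
    exact sum_comm
  rw [h7] at h6
  set S := ∑ a, (∑ y, hh s Q T a y + ∑ x, hh s Q T x a) ^ 2 with hS
  have h1' : 4 * (S : ℝ) - 8 * (H : ℝ) ≤ 2 * m * (H : ℝ) + m * (6 * η) + m * (6 * η) +
      120 * (δ * m ^ 3) := by
    have h8 : ((4 * S - 8 * H : ℤ) : ℝ) ≤ _ := Int.cast_le.2 h1
    push_cast at h8 h3 h4 h5
    linarith
  have h6' : (4 : ℝ) * (H : ℝ) ^ 2 ≤ m * S := by
    have : ((2 * H) ^ 2 : ℤ) ≤ m * S := h6
    have h8 : (((2 * H) ^ 2 : ℤ) : ℝ) ≤ ((m * S : ℤ) : ℝ) := Int.cast_le.2 this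
    push_cast at h8
    linarith
  have hm : (0 : ℝ) ≤ m := by positivity
  have h9 : (m : ℝ) * (4 * S) ≤ m * ((2 * m + 8) * (H : ℝ) + 12 * m * η + 120 * δ * m ^ 3) := by
    refine mul_le_mul_of_nonneg_left ?_ hm
    linarith
  linarith

end Pool.Agent.Helper20.Disp
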