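import Pool.Agent.Helper20.Disp.Part2

/-!
Maximum dispersal: there are tournaments in which no partial order gains more than
`(1 / 4 + κ)` of the pairs.
-/

set_option autoImplicit false

namespace Pool.Agent.Helper20.Disp

open Finset

theorem isT_Td {m : ℕ} (A : Finset (Fin m × Fin m)) : IsT (fun a b => Td A (a, b)) where
  diag a := if_pos rfl
  anti a b := by
    show Td A (b, a) = - Td A (a, b)
    unfold Td
    by_cases h : a = b
    · subst h
      rw [if_pos rfl, neg_zero]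
    · rw [if_neg h, if_neg (Ne.symm h)]
      unfold Ta
      rcases lt_or_gt_of_ne h with h1 | h1
      · rw [if_neg (not_lt.2 h1.le), if_pos h1]
        split_ifs <;> rfl
      · rw [if_pos h1, if_neg (not_lt.2 h1.le)]
        split_ifs <;> rfl
  one a b h := by
    show Td A (a, b) = 1 ∨ Td A (a, b) = -1
    unfold Td
    rw [if_neg h]
    unfold Ta
    split_ifs <;> simp

/-- the gain of a partial order -/
theorem po_gain {m : ℕ} {s Q : Rel m} {T : Fin m → Fin m → ℤ} (hs : IsPO s) (hQ : Q ⊆ s)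
    (hT : IsT T) {ε κ : ℝ} (hκ : 0 < κ) (hκ1 : κ ≤ 1) (hε : ε = κ ^ 2 / 2048)
    (hm : 2 / κ + 2 ≤ m)
    (hfp : ((∑ e ∈ Q, T e.1 e.2 : ℤ) : ℝ) ≤ ε * m.choose 2)
    (hη : ∀ X Y : Finset (Fin m), (rect Q T X Y : ℝ) ≤ ε * m.choose 2)
    (hthin : ∀ e ∈ s, e ∉ Q → ((btw s e).card : ℝ) ≤ ε * m) :
    ((∑ e ∈ s, T e.1 e.2 : ℤ) : ℝ) ≤ (1 / 4 + κ) * m.choose 2 := by
  classical
  have hε0 : 0 ≤ ε := by
    rw [hε]
    positivity
  have h1 := thin_le hs hQ hT hε0 hη hthin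
  set H := ∑ x, ∑ y, hh s Q T x y with hH
  have h2 : ∑ e ∈ s, T e.1 e.2 ≤ ∑ e ∈ Q, T e.1 e.2 + H := by
    rw [← sum_sdiff hQ, add_comm]
    refine add_le_add le_rfl ?_
    have h3 : H = ∑ e : Fin m × Fin m, hh s Q T e.1 e.2 := by
      rw [hH, Fintype.sum_prod_type]
    rw [h3]
    refine (sum_le_sum fun e he => ?_ : _ ≤ ∑ e ∈ s \ Q, hh s Q T e.1 e.2).trans
      (sum_le_univ_sum_of_nonneg fun e => (hh_01 _ _).1)
    rw [mem_sdiff] at he
    unfold hh
    by_cases h4 : T e.1 e.2 = 1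
    · rw [if_pos ⟨he.1, he.2, h4⟩, h4]
    · rw [if_neg fun h => h4 h.2.2]
      have h5 : e.1 ≠ e.2 := by
        intro h6
        have h7 : e = (e.1, e.1) := Prod.ext rfl h6.symm
        rw [h7] at he
        exact hs.1 _ he.1
      rcases hT.one _ _ h5 with h6 | h6
      · exact absurd h6 h4
      · rw [h6]
        norm_num
  have h2' : ((∑ e ∈ s, T e.1 e.2 : ℤ) : ℝ) ≤ ((∑ e ∈ Q, T e.1 e.2 : ℤ) : ℝ) + (H : ℝ) := by
    exact_mod_cast h2
  rw [Nat.cast_choose_two] at h1 hfp ⊢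
  set M : ℝ := (m : ℝ) with hM
  set h : ℝ := (H : ℝ) with hh'
  have hM0 : 2 ≤ M := by
    have : 0 < 2 / κ := by positivity
    linarith
  have h3 : 16 * h ^ 2 ≤ (2 * M ^ 2 + 8 * M) * h + 126 * ε * M ^ 4 := by
    have e1 : M * (12 * M * (ε * (M * (M - 1) / 2))) ≤ 6 * ε * M ^ 4 := by
      have : 0 ≤ 6 * ε * M ^ 3 := by positivity
      nlinarith
    nlinarith
  have h4 : h ≤ (M ^ 2 + 4 * M) / 8 + κ / 16 * M ^ 2 := by
    by_contra hcon
    push Not at hcon
    have e1 : 0 < κ / 16 * M ^ 2 := by positivity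
    have e2 : κ / 16 * M ^ 2 < h := by
      have : 0 ≤ (M ^ 2 + 4 * M) / 8 := by positivity
      linarith
    have e3 : 16 * (κ / 16 * M ^ 2) < 16 * h - (2 * M ^ 2 + 8 * M) := by linarith
    have e4 : 126 * ε * M ^ 4 ≤ κ / 16 * M ^ 2 * (16 * (κ / 16 * M ^ 2)) := by
      rw [hε]
      have : 0 ≤ κ ^ 2 * M ^ 4 := by positivity
      nlinarith
    have e5 : κ / 16 * M ^ 2 * (16 * (κ / 16 * M ^ 2)) < h * (16 * h - (2 * M ^ 2 + 8 * M)) :=
      mul_lt_mul'' e2 e3 e1.le (by positivity)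
    nlinarith
  have h5 : 2 ≤ κ * (M - 2) := by
    have : 2 / κ ≤ M - 2 := by linarith
    rw [div_le_iff₀ hκ] at this
    linarith
  have h6 : ε * (M * (M - 1) / 2) ≤ κ / 4 * (M * (M - 1) / 2) := by
    refine mul_le_mul_of_nonneg_right ?_ ?_
    · rw [hε]
      nlinarith
    · have : 0 ≤ M - 1 := by linarith
      positivity
  have h7 : (M ^ 2 + 4 * M) / 8 + κ / 16 * M ^ 2 ≤ (1 / 4 + 3 / 4 * κ) * (M * (M - 1) / 2) := by
    have e1 : 0 ≤ M * (κ * (M - 2) - 2) := mul_nonneg (by linarith) (by linarith)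
    have e2 : 0 ≤ κ * M := by positivity
    nlinarith
  linarith

/-- the family of the relations on which the tournament has to be balanced -/
noncomputable def fam (m t : ℕ) : Finset (Rel m) := by
  classical
  exact (univ : Finset ((Fin t → Finset (Fin m)) × (Fin t → Finset (Fin m)))).image
      (fun i => Fp i.1 i.2) ∪
    (univ : Finset (((Fin t → Finset (Fin m)) × (Fin t → Finset (Fin m))) ×
      (Finset (Fin m) × Finset (Fin m)))).image
      (fun i => (i.2.1 ×ˢ i.2.2).filter fun e =>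
        e.1 ≠ e.2 ∧ (e.1, e.2) ∉ Fp i.1.1 i.1.2 ∧ (e.2, e.1) ∉ Fp i.1.1 i.1.2)

theorem card_fam (m t : ℕ) : (fam m t).card ≤ 2 ^ (2 * t * m + 2 * m + 1) := by
  classical
  unfold fam
  refine (card_union_le _ _).trans ?_
  refine (add_le_add card_image_le card_image_le).trans ?_
  simp only [card_univ, Fintype.card_prod, Fintype.card_fun, Fintype.card_finset, Fintype.card_fin]
  have h1 : (2 ^ m) ^ t * (2 ^ m) ^ t ≤ 2 ^ (2 * t * m + 2 * m) := by
    rw [← pow_mul, ← pow_add]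
    refine Nat.pow_le_pow_right (by norm_num) ?_
    nlinarith
  have h2 : (2 ^ m) ^ t * (2 ^ m) ^ t * (2 ^ m * 2 ^ m) = 2 ^ (2 * t * m + 2 * m) := by
    rw [← pow_mul, ← pow_add, ← pow_add, ← pow_add]
    congr 1
    ring
  rw [h2, pow_succ]
  linarith

theorem rect_fam {m t : ℕ} (D U : Fin t → Finset (Fin m)) (A : Finset (Fin m × Fin m))
    (X Y : Finset (Fin m)) : ∃ w ∈ fam m t,
      rect (Fp D U) (fun a b => Td A (a, b)) X Y = ∑ e ∈ w, Td A e := by
  classical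
  refine ⟨_, mem_union_right _ (mem_image_of_mem _ (mem_univ ((D, U), (X, Y)))), ?_⟩
  unfold rect
  rw [sum_filter, sum_product]
  refine sum_congr rfl fun y _ => sum_congr rfl fun z _ => ?_
  unfold oo
  simp only
  split_ifs <;> simp

theorem po_tournament {κ : ℝ} (hκ : 0 < κ) : ∃ m : ℕ, 2 ≤ m ∧
    ∃ A : Finset (Fin m × Fin m), (∀ e ∈ A, e.1 < e.2) ∧
      ∀ w : Rel m, IsPO w → ((∑ e ∈ w, Td A e : ℤ) : ℝ) ≤ (1 / 4 + κ) * m.choose 2 := by
  classical
  wlog hκ1 : κ ≤ 1 with hwlog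
  · obtain ⟨m, hm, A, hA, h⟩ := hwlog one_pos le_rfl
    refine ⟨m, hm, A, hA, fun w hw => (h w hw).trans ?_⟩
    push Not at hκ1
    have : (0 : ℝ) ≤ m.choose 2 := by positivity
    nlinarith
  obtain ⟨ε, hε⟩ : ∃ ε : ℝ, ε = κ ^ 2 / 2048 := ⟨_, rfl⟩
  have hε0 : 0 < ε := by
    rw [hε]
    positivity
  have hε1 : ε ≤ 1 := by
    rw [hε]
    nlinarith
  obtain ⟨x₀, hx₀⟩ := log_small (c := ε ^ 3 / 32) (by positivity)
  obtain ⟨m, hm⟩ := exists_nat_ge (max x₀ (max (2 / κ + 2) (16 / ε ^ 3 + 40 / ε ^ 2 + 2)))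
  have hm1 : x₀ ≤ m := (le_max_left _ _).trans hm
  have hm2 : 2 / κ + 2 ≤ m := (le_max_left _ _).trans ((le_max_right _ _).trans hm)
  have hm3 : 16 / ε ^ 3 + 40 / ε ^ 2 + 2 ≤ m := (le_max_right _ _).trans ((le_max_right _ _).trans hm)
  have hm4 : (2 : ℝ) ≤ m := by
    have : 0 < 2 / κ := by positivity
    linarith
  have hm5 : 2 ≤ m := by exact_mod_cast hm4
  have hlog := hx₀ m hm1
  have hlog0 : 0 ≤ Real.log m := Real.log_nonneg (by linarith)
  obtain ⟨t, ht1, ht2⟩ : ∃ t : ℕ, 2 * Real.log m + 1 ≤ ε * t ∧ ε * t ≤ 2 * Real.log m + 1 + ε := by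
    refine ⟨⌈(2 * Real.log m + 1) / ε⌉₊, ?_, ?_⟩
    · have := Nat.le_ceil ((2 * Real.log m + 1) / ε)
      rw [div_le_iff₀ hε0] at this
      linarith
    · have := (Nat.ceil_lt_add_one (a := (2 * Real.log m + 1) / ε) (by positivity)).le
      have h1 := mul_le_mul_of_nonneg_left this hε0.le
      rw [mul_add, mul_div_cancel₀ _ hε0.ne', mul_one] at h1
      exact h1
  refine ⟨m, hm5, ?_⟩
  obtain ⟨A, hA, h⟩ := exists_tournament (fam m t) hε0 hm5 (by
    have h1 : ((fam m t).card : ℝ) ≤ 2 ^ (2 * t * m + 2 * m + 1) := by exact_mod_cast card_fam m t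
    refine h1.trans_lt ?_
    have h2 : (2 : ℝ) ^ (2 * t * m + 2 * m + 1) < Real.exp (2 * t * m + 2 * m + 1) := by
      have h3 : Real.exp (2 * t * m + 2 * m + 1) = Real.exp 1 ^ (2 * t * m + 2 * m + 1) := by
        rw [← Real.exp_nat_mul]
        push_cast
        congr 1
        ring
      rw [h3]
      refine pow_lt_pow_left₀ ?_ (by norm_num) (by omega)
      have := Real.exp_one_gt_d9
      linarith
    refine h2.trans_le (Real.exp_le_exp.2 ?_)
    rw [Nat.cast_choose_two]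
    set M : ℝ := (m : ℝ) with hM
    have e1 : 16 / ε ^ 3 + 40 / ε ^ 2 + 2 ≤ M := hm3
    -- `4 log M / ε + 2 / ε + 5 ≤ ε² (M - 1) / 4`, multiplied by `ε`
    have e2 : 16 + 40 * ε + 2 * ε ^ 3 ≤ ε ^ 3 * M := by
      have h3 : ε ^ 3 * (16 / ε ^ 3 + 40 / ε ^ 2 + 2) ≤ ε ^ 3 * M :=
        mul_le_mul_of_nonneg_left e1 (by positivity)
      have h4 : ε ^ 3 * (16 / ε ^ 3 + 40 / ε ^ 2 + 2) = 16 + 40 * ε + 2 * ε ^ 3 := by
        field_simp
      linarith
    have e3 : 2 * (ε * t) + 5 * ε ≤ ε ^ 3 * (M - 1) / 4 + 2 * ε := by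
      have h3 : 4 * Real.log M ≤ ε ^ 3 * M / 8 := by linarith
      have h4 : (0 : ℝ) < ε ^ 3 := by positivity
      linarith
    have e4 : 2 * (t : ℝ) + 3 ≤ ε ^ 2 * (M - 1) / 4 := by
      have h3 : ε * (2 * t + 3) ≤ ε * (ε ^ 2 * (M - 1) / 4) := by
        have : ε * (ε ^ 2 * (M - 1) / 4) = ε ^ 3 * (M - 1) / 4 := by ring
        linarith
      exact le_of_mul_le_mul_left h3 hε0
    have e5 : M * (2 * (t : ℝ) + 3) ≤ M * (ε ^ 2 * (M - 1) / 4) :=
      mul_le_mul_of_nonneg_left e4 (by linarith)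
    have e6 : ε ^ 2 / 2 * (M * (M - 1) / 2) = M * (ε ^ 2 * (M - 1) / 4) := by ring
    rw [e6]
    linarith)
  refine ⟨A, hA, fun w hw => ?_⟩
  obtain ⟨D, U, hQ, hmiss⟩ := exists_finger hw hε1 t
  have hzero : (w.filter fun e => ε * m < (btw w e).card ∧ e ∉ Fp D U).card = 0 := by
    have h1 : (1 - ε) ^ t * ((m : ℝ) * m) < 1 := by
      have h2 : (1 - ε) ^ t ≤ Real.exp (-(ε * t)) := by
        have h3 := Real.one_sub_le_exp_neg ε
        calc (1 - ε) ^ t ≤ Real.exp (-ε) ^ t := pow_le_pow_left₀ (by linarith) h3 t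
          _ = Real.exp (-(ε * t)) := by
            rw [← Real.exp_nat_mul]
            congr 1
            ring
      have h3 : (m : ℝ) * m = Real.exp (2 * Real.log m) := by
        rw [two_mul, Real.exp_add, Real.exp_log (by linarith)]
      calc (1 - ε) ^ t * ((m : ℝ) * m) ≤ Real.exp (-(ε * t)) * Real.exp (2 * Real.log m) := by
            rw [h3]
            exact mul_le_mul_of_nonneg_right h2 (Real.exp_pos _).le
        _ = Real.exp (-(ε * t) + 2 * Real.log m) := by rw [Real.exp_add]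
        _ < 1 := by
            rw [← Real.exp_zero]
            exact Real.exp_lt_exp.2 (by linarith)
    have h2 := hmiss.trans_lt h1
    have h3 : (w.filter fun e => ε * m < (btw w e).card ∧ e ∉ Fp D U).card < 1 := by exact_mod_cast h2
    omega
  have hthin : ∀ e ∈ w, e ∉ Fp D U → ((btw w e).card : ℝ) ≤ ε * m := by
    intro e he he'
    by_contra hcon
    push Not at hcon
    rw [card_eq_zero] at hzero
    have : e ∈ w.filter fun e => ε * m < (btw w e).card ∧ e ∉ Fp D U :=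
      mem_filter.2 ⟨he, hcon, he'⟩
    rw [hzero] at this
    exact notMem_empty _ this
  have hfin := po_gain (T := fun a b => Td A (a, b)) hw hQ (isT_Td A) hκ hκ1 hε hm2
    (h _ (mem_union_left _ (mem_image_of_mem _ (mem_univ (D, U))))) (fun X Y => by
      obtain ⟨w', hw', h2⟩ := rect_fam D U A X Y
      rw [h2]
      exact h w' hw') hthin
  exact hfin

end Pool.Agent.Helper20.Disp
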