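import Pool.Agent.Helper20.Disp.McG

/-!
Maximum dispersal: random tournaments.
-/

set_option autoImplicit false

namespace Pool.Agent.Helper20.Disp

open Finset

/-- the exponential moment of a random sum of signs -/
theorem exp_moment {ι : Type*} [DecidableEq ι] (P : Finset ι) (ε : ι → ℝ) (l : ℝ) :
    ∑ A ∈ P.powerset, Real.exp (l * ∑ p ∈ P, ε p * (if p ∈ A then -1 else 1)) ≤
      2 ^ P.card * Real.exp (l ^ 2 / 2 * ∑ p ∈ P, ε p ^ 2) := by
  have h1 : ∀ A ∈ P.powerset, Real.exp (l * ∑ p ∈ P, ε p * (if p ∈ A then -1 else 1)) =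
      (∏ p ∈ A, Real.exp (-(l * ε p))) * ∏ p ∈ P \ A, Real.exp (l * ε p) := by
    intro A hA
    rw [mem_powerset] at hA
    rw [mul_sum, Real.exp_sum, ← prod_sdiff hA, mul_comm]
    congr 1
    · refine prod_congr rfl fun p hp => ?_
      rw [if_pos hp]
      congr 1
      ring
    · refine prod_congr rfl fun p hp => ?_
      rw [if_neg (mem_sdiff.1 hp).2]
      congr 1
      ring
  rw [sum_congr rfl h1, ← prod_add]
  calc ∏ p ∈ P, (Real.exp (-(l * ε p)) + Real.exp (l * ε p)) ≤
      ∏ p ∈ P, (2 * Real.exp (l ^ 2 / 2 * ε p ^ 2)) := by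
        refine prod_le_prod (fun p _ => by positivity) fun p hp => ?_
        have h2 : Real.exp (-(l * ε p)) + Real.exp (l * ε p) = 2 * Real.cosh (l * ε p) := by
          rw [Real.cosh_eq]
          ring
        rw [h2]
        have h3 := Real.cosh_le_exp_half_sq (l * ε p)
        have h4 : (l * ε p) ^ 2 / 2 = l ^ 2 / 2 * ε p ^ 2 := by ring
        rw [h4] at h3
        linarith
    _ = _ := by
        rw [prod_mul_distrib, prod_const, mul_sum, Real.exp_sum]

/-- the margins of the orientation `A`, zero on the diagonal -/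
def Td {m : ℕ} (A : Finset (Fin m × Fin m)) (e : Fin m × Fin m) : ℤ :=
  if e.1 = e.2 then 0 else Ta A e.1 e.2

theorem sum_std {m : ℕ} {M : Type*} [AddCommMonoid M] (f : Fin m × Fin m → M)
    (hf : ∀ e, e.1 = e.2 → f e = 0) : ∑ e, f e = ∑ e ∈ stdLin m, (f e + f e.swap) := by
  classical
  have h1 : ∑ e, f e = ∑ e ∈ off m, f e := by
    symm
    refine sum_subset (subset_univ _) fun e _ he => hf e ?_
    by_contra h
    exact he (mem_filter.2 ⟨mem_univ _, h⟩)
  have h2 : off m = stdLin m ∪ revLin m := by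
    ext e
    simp only [off, stdLin, revLin, mem_filter, mem_univ, true_and, mem_union]
    exact ne_iff_lt_or_gt
  have h3 : Disjoint (stdLin m) (revLin m) := by
    rw [disjoint_left]
    intro e he he'
    exact lt_asymm (mem_filter.1 he).2 (mem_filter.1 he').2
  rw [h1, h2, sum_union h3, sum_add_distrib]
  congr 1
  refine sum_bij' (fun e _ => e.swap) (fun e _ => e.swap) ?_ ?_ ?_ ?_ ?_
  · intro e he
    exact mem_filter.2 ⟨mem_univ _, (mem_filter.1 he).2⟩
  · intro e he
    exact mem_filter.2 ⟨mem_univ _, (mem_filter.1 he).2⟩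
  · intro e _
    exact e.swap_swap
  · intro e _
    exact e.swap_swap
  · intro e _
    rw [Prod.swap_swap]

theorem card_std (m : ℕ) : (stdLin m).card = m.choose 2 := by
  have h1 := sum_std (m := m) (fun e => if e.1 = e.2 then 0 else 1) fun e he => if_pos he
  have h2 : ∑ e : Fin m × Fin m, (if e.1 = e.2 then 0 else 1) = (off m).card := by
    rw [off, card_filter]
    refine sum_congr rfl fun e _ => ?_
    by_cases h : e.1 = e.2
    · rw [if_pos h, if_neg (not_not.2 h)]
    · rw [if_neg h, if_pos h]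
  have h3 : ∑ e ∈ stdLin m, ((if e.1 = e.2 then 0 else 1) + (if e.swap.1 = e.swap.2 then 0 else 1)) =
      ∑ e ∈ stdLin m, 2 := by
    refine sum_congr rfl fun e he => ?_
    have h := (mem_filter.1 he).2
    rw [if_neg h.ne, Prod.fst_swap, Prod.snd_swap, if_neg h.ne']
  rw [h2, h3, card_off, sum_const, smul_eq_mul] at h1
  omega

theorem Td_std {m : ℕ} {A : Finset (Fin m × Fin m)} {e : Fin m × Fin m} (he : e ∈ stdLin m) :
    Td A e = (if e ∈ A then -1 else 1) ∧ Td A e.swap = -(if e ∈ A then -1 else 1) := by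
  obtain ⟨a, b⟩ := e
  have h : a < b := (mem_filter.1 he).2
  refine ⟨?_, ?_⟩
  · rw [Td, if_neg h.ne, Ta, if_pos h]
  · rw [Td, Prod.swap_prod_mk, if_neg h.ne', Ta, if_neg (not_lt.2 h.le)]
    split_ifs <;> rfl

/-- the coefficient of a pair in the gain of a relation -/
def cf {m : ℕ} (w : Rel m) (e : Fin m × Fin m) : ℝ :=
  (if e ∈ w then 1 else 0) - (if e.swap ∈ w then 1 else 0)

theorem sum_Td {m : ℕ} (A : Finset (Fin m × Fin m)) (w : Rel m) :
    ((∑ e ∈ w, Td A e : ℤ) : ℝ) = ∑ e ∈ stdLin m, cf w e * (if e ∈ A then -1 else 1) := by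
  classical
  have h1 : ∑ e ∈ w, Td A e = ∑ e, if e ∈ w then Td A e else 0 := by
    rw [sum_ite_mem, univ_inter]
  rw [h1, sum_std _ fun e he => by rw [Td, if_pos he, ite_self]]
  push_cast
  refine sum_congr rfl fun e he => ?_
  obtain ⟨h2, h3⟩ := Td_std (A := A) he
  rw [h2, h3, cf]
  push_cast
  split_ifs <;> norm_num

/-- the energy of a relation -/
def en {m : ℕ} (w : Rel m) : ℝ := ∑ e ∈ stdLin m, cf w e ^ 2

theorem en_le_choose {m : ℕ} (w : Rel m) : en w ≤ m.choose 2 := by
  have h1 : en w ≤ ∑ e ∈ stdLin m, (1 : ℝ) := by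
    refine sum_le_sum fun e _ => ?_
    unfold cf
    split_ifs <;> norm_num
  rw [sum_const, card_std, nsmul_eq_mul, mul_one] at h1
  exact h1

theorem en_le_card {m : ℕ} (w : Rel m) : en w ≤ w.card := by
  classical
  have h0 : ((w.card : ℕ) : ℝ) = ∑ e, if e ∈ w then (1 : ℝ) else 0 := by
    rw [sum_ite_mem, univ_inter, sum_const, nsmul_eq_mul, mul_one]
  have h1 : ∑ e, (if e.1 = e.2 then (0 : ℝ) else if e ∈ w then 1 else 0) ≤ w.card := by
    rw [h0]
    refine sum_le_sum fun e _ => ?_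
    split_ifs <;> norm_num
  rw [sum_std _ fun e he => if_pos he] at h1
  refine le_trans (sum_le_sum fun e he => ?_) h1
  have h := (mem_filter.1 he).2
  rw [if_neg h.ne, Prod.fst_swap, Prod.snd_swap, if_neg h.ne']
  unfold cf
  split_ifs <;> norm_num

/-- **Random tournaments are balanced on families of relations.** -/
theorem exists_balanced {m : ℕ} {κ : Type*} (L : Finset κ) (W : κ → Finset (Rel m))
    (c lam : κ → ℝ) (hc : ∀ j ∈ L, 0 < c j) (hen : ∀ j ∈ L, ∀ w ∈ W j, en w ≤ c j)
    (hlam : ∀ j ∈ L, 0 ≤ lam j)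
    (hsum : ∑ j ∈ L, ((W j).card : ℝ) * Real.exp (-(lam j ^ 2 / (2 * c j))) < 1) :
    ∃ A : Finset (Fin m × Fin m), (∀ e ∈ A, e.1 < e.2) ∧
      ∀ j ∈ L, ∀ w ∈ W j, ((∑ e ∈ w, Td A e : ℤ) : ℝ) ≤ lam j := by
  classical
  by_contra hcon
  push Not at hcon
  set P := stdLin m with hP
  let σ : Rel m → Finset (Fin m × Fin m) → ℝ := fun w A => ∑ p ∈ P,
    cf w p * (if p ∈ A then -1 else 1)
  let l : κ → ℝ := fun j => lam j / c j
  have h1 : ∀ A ∈ P.powerset, (1 : ℝ) ≤ ∑ j ∈ L, ∑ w ∈ W j,
      Real.exp (l j * σ w A) * Real.exp (-(l j * lam j)) := by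
    intro A hA
    obtain ⟨j, hj, w, hw, h2⟩ := hcon A fun e he => (mem_filter.1 (mem_powerset.1 hA he)).2
    rw [sum_Td] at h2
    have h3 : (1 : ℝ) ≤ Real.exp (l j * σ w A) * Real.exp (-(l j * lam j)) := by
      rw [← Real.exp_add]
      refine Real.one_le_exp ?_
      have h4 : 0 ≤ l j := div_nonneg (hlam j hj) (hc j hj).le
      have h5 := mul_le_mul_of_nonneg_left h2.le h4
      have h6 : l j * σ w A = l j * ∑ e ∈ stdLin m, cf w e * (if e ∈ A then -1 else 1) := rfl
      rw [h6]
      linarith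
    refine h3.trans ?_
    refine (single_le_sum (f := fun w => Real.exp (l j * σ w A) * Real.exp (-(l j * lam j)))
      (fun w _ => by positivity) hw).trans ?_
    exact single_le_sum (f := fun j => ∑ w ∈ W j, Real.exp (l j * σ w A) *
      Real.exp (-(l j * lam j))) (fun j _ => sum_nonneg fun w _ => by positivity) hj
  have h2 : (2 : ℝ) ^ P.card ≤ 2 ^ P.card *
      ∑ j ∈ L, ((W j).card : ℝ) * Real.exp (-(lam j ^ 2 / (2 * c j))) := by
    calc (2 : ℝ) ^ P.card = ∑ A ∈ P.powerset, (1 : ℝ) := by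
          rw [sum_const, card_powerset, nsmul_eq_mul, mul_one]
          push_cast
          rfl
      _ ≤ ∑ A ∈ P.powerset, ∑ j ∈ L, ∑ w ∈ W j,
          Real.exp (l j * σ w A) * Real.exp (-(l j * lam j)) := sum_le_sum h1
      _ = ∑ j ∈ L, ∑ w ∈ W j, (∑ A ∈ P.powerset, Real.exp (l j * σ w A)) *
          Real.exp (-(l j * lam j)) := by
          rw [sum_comm]
          refine sum_congr rfl fun j _ => ?_
          rw [sum_comm]
          exact sum_congr rfl fun w _ => by rw [sum_mul]
      _ ≤ ∑ j ∈ L, ∑ w ∈ W j, 2 ^ P.card * Real.exp (-(lam j ^ 2 / (2 * c j))) := by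
          refine sum_le_sum fun j hj => sum_le_sum fun w hw => ?_
          have h3 : ∑ A ∈ P.powerset, Real.exp (l j * σ w A) ≤
              2 ^ P.card * Real.exp (l j ^ 2 / 2 * c j) := by
            refine (exp_moment P (cf w) (l j)).trans ?_
            refine mul_le_mul_of_nonneg_left (Real.exp_le_exp.2 ?_) (by positivity)
            exact mul_le_mul_of_nonneg_left (hen j hj w hw) (by positivity)
          refine (mul_le_mul_of_nonneg_right h3 (Real.exp_pos _).le).trans (le_of_eq ?_)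
          rw [mul_assoc, ← Real.exp_add]
          congr 2
          have h4 := (hc j hj).ne'
          show (lam j / c j) ^ 2 / 2 * c j + -(lam j / c j * lam j) = -(lam j ^ 2 / (2 * c j))
          field_simp
          ring
      _ = _ := by
          rw [mul_sum]
          refine sum_congr rfl fun j _ => ?_
          rw [sum_const, nsmul_eq_mul]
          ring
  have h4 : (0 : ℝ) < 2 ^ P.card := by positivity
  have h5 := mul_lt_mul_of_pos_left hsum h4
  linarith

/-- one family -/
theorem exists_tournament {m : ℕ} (W : Finset (Rel m)) {ε : ℝ} (hε : 0 < ε) (hm : 2 ≤ m)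
    (hW : (W.card : ℝ) < Real.exp (ε ^ 2 / 2 * m.choose 2)) :
    ∃ A : Finset (Fin m × Fin m), (∀ e ∈ A, e.1 < e.2) ∧
      ∀ w ∈ W, ((∑ e ∈ w, Td A e : ℤ) : ℝ) ≤ ε * m.choose 2 := by
  have hN : (0 : ℝ) < m.choose 2 := by exact_mod_cast Nat.choose_pos hm
  obtain ⟨A, hA, h⟩ := exists_balanced (m := m) ({()} : Finset Unit) (fun _ => W)
    (fun _ => m.choose 2) (fun _ => ε * m.choose 2) (fun _ _ => hN)
    (fun _ _ w _ => en_le_choose w) (fun _ _ => by positivity) (by
      rw [sum_singleton]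
      have h1 : (ε * (m.choose 2 : ℝ)) ^ 2 / (2 * (m.choose 2 : ℝ)) = ε ^ 2 / 2 * m.choose 2 := by
        field_simp
      rw [h1]
      calc (W.card : ℝ) * Real.exp (-(ε ^ 2 / 2 * m.choose 2)) <
          Real.exp (ε ^ 2 / 2 * m.choose 2) * Real.exp (-(ε ^ 2 / 2 * m.choose 2)) :=
            mul_lt_mul_of_pos_right hW (Real.exp_pos _)
        _ = 1 := by rw [← Real.exp_add, add_neg_cancel, Real.exp_zero])
  exact ⟨A, hA, fun w hw => h () (mem_singleton_self _) w hw⟩

/-- for every constant there is a size beyond which the logarithm is small -/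
theorem log_small {c : ℝ} (hc : 0 < c) : ∃ x₀ : ℝ, ∀ x, x₀ ≤ x → Real.log x ≤ c * x := by
  have h := Real.isLittleO_log_id_atTop.bound hc
  rw [Filter.eventually_atTop] at h
  obtain ⟨a, ha⟩ := h
  refine ⟨max a 1, fun x hx => ?_⟩
  have h1 := ha x ((le_max_left _ _).trans hx)
  have h2 : 1 ≤ x := (le_max_right _ _).trans hx
  rw [id, Real.norm_eq_abs, Real.norm_eq_abs, abs_of_nonneg (Real.log_nonneg h2),
    abs_of_nonneg (by linarith)] at h1
  exact h1

end Pool.Agent.Helper20.Disp
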